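import Mathlib

/-!
[XLI-CombE] Invariant subspaces, the full case (imports Mathlib only; adapt `GLI/CombD.lean` by
helper41).

`Γ` a group of permutations of `Fin g × Bool`, such that `(h1)` every `(i, true)` can be mapped to
every `(j, true)`; `(h2)` the stabilizer of `(i, true)` maps `(j, true)` to `(l, c)` for all
`j, l ≠ i` and all `c`.  `W` a nonzero `Γ`-stable space of antisymmetric rational functions.  Then
`W` contains all antisymmetric functions.

Proof.  For `i : Fin g` let `S_i = {γ ∈ Γ : γ (i, true) = (i, true)}`.  For `φ ∈ W` let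
`P_i φ = ∑_{γ ∈ S_i} φ ∘ γ ∈ W`.  `P_i φ (i, true) = |S_i| φ (i, true)`, and `P_i φ ∘ γ' = P_i φ` for
`γ' ∈ S_i`; for `j ≠ i` (h2) with `l = j`, `c = false` gives `P_i φ (j, true) = P_i φ (j, false) =
- P_i φ (j, true)`, so it is `0`.  So `P_i φ = |S_i| φ (i, true) e_i` with `e_i (i, true) = 1`,
`e_i (i, false) = -1`, zero elsewhere.
For every `i` there is `φ ∈ W` with `φ (i, true) ≠ 0`: take `φ ≠ 0` in `W`, `φ (i0, true) ≠ 0` for
some `i0` (antisymmetry) and `γ ∈ Γ` with `γ (i, true) = (i0, true)`; use `φ ∘ γ`.  So `e_i ∈ W` for all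
`i`, and an antisymmetric `φ` is `∑_i φ (i, true) e_i`.
* `comb_full_dim`: so `g ≤ dim W`: the map `(Fin g → ℚ) → W`, `c ↦ ∑ c_i e_i` is injective.
-/

set_option autoImplicit false

namespace LIF

/-- the stabilizer of `(i, true)` in `Γ` as a finset -/
noncomputable def CombE_S {g : ℕ} (Γ : Subgroup (Equiv.Perm (Fin g × Bool))) (i : Fin g) :
    Finset (Equiv.Perm (Fin g × Bool)) := by
  classical
  exact Finset.univ.filter (fun γ => γ ∈ Γ ∧ γ (i, true) = (i, true))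

theorem CombE_mem {g : ℕ} {Γ : Subgroup (Equiv.Perm (Fin g × Bool))} {i : Fin g}
    {γ : Equiv.Perm (Fin g × Bool)} :
    γ ∈ CombE_S Γ i ↔ γ ∈ Γ ∧ γ (i, true) = (i, true) := by
  classical
  unfold CombE_S
  rw [Finset.mem_filter]
  exact ⟨fun h => h.2, fun h => ⟨Finset.mem_univ _, h⟩⟩

theorem CombE_pos {g : ℕ} (Γ : Subgroup (Equiv.Perm (Fin g × Bool))) (i : Fin g) :
    0 < (CombE_S Γ i).card :=
  Finset.card_pos.2 ⟨1, CombE_mem.2 ⟨Γ.one_mem, rfl⟩⟩

theorem CombE_inv {g : ℕ} {Γ : Subgroup (Equiv.Perm (Fin g × Bool))} {i : Fin g}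
    (φ : Fin g × Bool → ℚ) {γ' : Equiv.Perm (Fin g × Bool)} (h : γ' ∈ CombE_S Γ i)
    (x : Fin g × Bool) :
    ∑ γ ∈ CombE_S Γ i, φ (γ (γ' x)) = ∑ γ ∈ CombE_S Γ i, φ (γ x) := by
  obtain ⟨h1, h2⟩ := CombE_mem.1 h
  refine Finset.sum_bij (fun γ _ => γ * γ') ?_ ?_ ?_ ?_
  · intro γ hγ
    obtain ⟨h3, h4⟩ := CombE_mem.1 hγ
    refine CombE_mem.2 ⟨Γ.mul_mem h3 h1, ?_⟩
    rw [Equiv.Perm.mul_apply, h2, h4]
  · intro a _ b _ hab
    exact mul_right_cancel hab
  · intro γ hγ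
    obtain ⟨h3, h4⟩ := CombE_mem.1 hγ
    refine ⟨γ * γ'⁻¹, CombE_mem.2 ⟨Γ.mul_mem h3 (Γ.inv_mem h1), ?_⟩, by group⟩
    rw [Equiv.Perm.mul_apply]
    have h5 : γ'⁻¹ (i, true) = (i, true) := by
      rw [Equiv.Perm.inv_eq_iff_eq]
      exact h2.symm
    rw [h5, h4]
  · intro γ _
    rfl

theorem CombE_e {g : ℕ} (Γ : Subgroup (Equiv.Perm (Fin g × Bool)))
    (h1 : ∀ i j, ∃ γ ∈ Γ, γ (i, true) = (j, true))
    (h2 : ∀ i j l c, j ≠ i → l ≠ i → ∃ γ ∈ Γ, γ (i, true) = (i, true) ∧ γ (j, true) = (l, c))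
    (W : Submodule ℚ (Fin g × Bool → ℚ))
    (hanti : ∀ φ ∈ W, ∀ i c, φ (i, !c) = - φ (i, c))
    (hst : ∀ φ ∈ W, ∀ γ ∈ Γ, (fun x => φ (γ x)) ∈ W) (hW : W ≠ ⊥) (i : Fin g) :
    ∃ w ∈ W, w (i, true) = 1 ∧ ∀ j, j ≠ i → w (j, true) = 0 := by
  classical
  have hT : ∀ φ ∈ W, (fun x => ∑ γ ∈ CombE_S Γ i, φ (γ x)) ∈ W := by
    intro φ hφ
    have h5 : (fun x => ∑ γ ∈ CombE_S Γ i, φ (γ x)) = ∑ γ ∈ CombE_S Γ i, (fun x => φ (γ x)) := by
      funext x
      rw [Finset.sum_apply]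
    rw [h5]
    exact W.sum_mem (fun γ hγ => hst φ hφ γ (CombE_mem.1 hγ).1)
  have hnz : ∃ φ ∈ W, φ (i, true) ≠ 0 := by
    obtain ⟨φ, hφ, hφ0⟩ := W.ne_bot_iff.1 hW
    obtain ⟨⟨i0, c⟩, hx⟩ := Function.ne_iff.1 hφ0
    have hx' : φ (i0, true) ≠ 0 := by
      cases c with
      | true => exact hx
      | false =>
        intro h0
        apply hx
        have h5 := hanti φ hφ i0 true
        rw [h0, neg_zero] at h5
        exact h5
    obtain ⟨γ, hγ, h5⟩ := h1 i i0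
    refine ⟨fun x => φ (γ x), hst φ hφ γ hγ, ?_⟩
    show φ (γ (i, true)) ≠ 0
    rw [h5]
    exact hx'
  obtain ⟨φ, hφ, hφ0⟩ := hnz
  have hTi : ∑ γ ∈ CombE_S Γ i, φ (γ (i, true)) = (CombE_S Γ i).card * φ (i, true) := by
    rw [Finset.sum_congr rfl (fun γ hγ => by rw [(CombE_mem.1 hγ).2]), Finset.sum_const,
      nsmul_eq_mul]
  have hc0 : ((CombE_S Γ i).card : ℚ) * φ (i, true) ≠ 0 := by
    have h6 : ((CombE_S Γ i).card : ℚ) ≠ 0 := by exact_mod_cast (CombE_pos Γ i).ne'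
    exact mul_ne_zero h6 hφ0
  refine ⟨(((CombE_S Γ i).card : ℚ) * φ (i, true))⁻¹ • (fun x => ∑ γ ∈ CombE_S Γ i, φ (γ x)),
    W.smul_mem _ (hT φ hφ), ?_, ?_⟩
  · rw [Pi.smul_apply, smul_eq_mul]
    rw [hTi, inv_mul_cancel₀ hc0]
  · intro j hj
    have h5 : ∑ γ ∈ CombE_S Γ i, φ (γ (j, true)) = ∑ γ ∈ CombE_S Γ i, φ (γ (j, false)) := by
      obtain ⟨γ', hγ', h5, h6⟩ := h2 i j j false hj hj
      rw [← h6]
      exact (CombE_inv φ (CombE_mem.2 ⟨hγ', h5⟩) _).symm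
    have h6 := hanti _ (hT φ hφ) j true
    simp only [Bool.not_true] at h6
    rw [← h5] at h6
    have h7 : ∑ γ ∈ CombE_S Γ i, φ (γ (j, true)) = 0 := by linarith
    rw [Pi.smul_apply, smul_eq_mul]
    rw [h7, mul_zero]

theorem comb_full {g : ℕ} (Γ : Subgroup (Equiv.Perm (Fin g × Bool)))
    (h1 : ∀ i j, ∃ γ ∈ Γ, γ (i, true) = (j, true))
    (h2 : ∀ i j l c, j ≠ i → l ≠ i → ∃ γ ∈ Γ, γ (i, true) = (i, true) ∧ γ (j, true) = (l, c))
    (W : Submodule ℚ (Fin g × Bool → ℚ))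
    (hanti : ∀ φ ∈ W, ∀ i c, φ (i, !c) = - φ (i, c))
    (hst : ∀ φ ∈ W, ∀ γ ∈ Γ, (fun x => φ (γ x)) ∈ W) (hW : W ≠ ⊥)
    (φ : Fin g × Bool → ℚ) (hφ : ∀ i c, φ (i, !c) = - φ (i, c)) : φ ∈ W := by
  classical
  choose w hwW hw1 hw0 using CombE_e Γ h1 h2 W hanti hst hW
  have hsum : φ = ∑ i, φ (i, true) • w i := by
    have ht : ∀ j, (∑ i, φ (i, true) • w i) (j, true) = φ (j, true) := by
      intro j
      rw [Finset.sum_apply, Finset.sum_eq_single j]
      · rw [Pi.smul_apply, hw1, smul_eq_mul, mul_one]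
      · intro i _ hij
        rw [Pi.smul_apply, hw0 i j (Ne.symm hij), smul_eq_mul, mul_zero]
      · intro h
        exact absurd (Finset.mem_univ j) h
    have hmem : (∑ i, φ (i, true) • w i) ∈ W :=
      W.sum_mem fun i _ => W.smul_mem _ (hwW i)
    funext x
    obtain ⟨j, c⟩ := x
    cases c with
    | true => exact (ht j).symm
    | false =>
      have h5 := hanti _ hmem j true
      have h6 := hφ j true
      rw [ht, ← h6] at h5
      exact h5.symm
  rw [hsum]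
  exact W.sum_mem fun i _ => W.smul_mem _ (hwW i)

theorem comb_full_dim {g : ℕ} (W : Submodule ℚ (Fin g × Bool → ℚ))
    (h : ∀ φ : Fin g × Bool → ℚ, (∀ i c, φ (i, !c) = - φ (i, c)) → φ ∈ W) :
    g ≤ Module.finrank ℚ W := by
  classical
  let E : (Fin g → ℚ) →ₗ[ℚ] (Fin g × Bool → ℚ) :=
    { toFun := fun c x => if x.2 then c x.1 else - c x.1
      map_add' := by
        intro c d
        funext x
        simp only [Pi.add_apply]
        split_ifs
        · rfl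
        · ring
      map_smul' := by
        intro r c
        funext x
        simp only [Pi.smul_apply, smul_eq_mul, RingHom.id_apply]
        split_ifs
        · rfl
        · ring }
  have hE : ∀ c, E c ∈ W := by
    intro c
    apply h
    intro i b
    show (if !b then c i else - c i) = - (if b then c i else - c i)
    cases b <;> simp
  let F : (Fin g → ℚ) →ₗ[ℚ] W := E.codRestrict W hE
  have hF : Function.Injective F := by
    intro c d hcd
    have h1 : E c = E d := congrArg Subtype.val hcd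
    funext i
    exact congrFun h1 (i, true)
  have h1 := LinearMap.finrank_le_finrank_of_injective hF
  rwa [Module.finrank_fintype_fun_eq_card, Fintype.card_fin] at h1

end LIF
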