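import Pool.Agent.helper1.XLI.Defs
import Pool.Agent.helper1.LI.Mon
import Pool.Agent.helper1.LI.Sym
import Pool.Agent.helper1.LI.Van

/-!
[XLI-VanX] `S_d = 0` for `d ≥ deg D` (compare `LI/Sym.lean`, `LI/Van.lean`, `LI/Gauss1.lean`).

`D = P D'`, `P` monic irreducible of odd degree, `P ∤ D'`, `D(0) ≠ 0` (so `D ≠ 0`).  Put
`n = deg D`, `c = leadingCoeff D`, `D = C c * D1`, `D1` monic, `D1 = P D1'`, `P ∤ D1'`.
`ψ(h) := quadraticChar (Res (D1, h))`.
* for monic `h` of degree `d`: `chi D h = quadraticChar (Res (h, D)) = ε_d ψ(h)`, where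
  `ε_d = quadraticChar (c^d (-1)^(d n))` depends only on `d` (`resultant_C_mul_right`,
  `resultant_comm`).
* `ψ(a b) = ψ(a) ψ(b)`, `ψ(a + D1 b) = ψ(a)` (as `chh_mul`, `chh_add_mul` in `LI/Sym.lean`; for the
  monic `D1` in the first argument the degree of the second argument does not matter, `Sym_deg`).
  Alternatively use `Res (D1, h) = ∏_{roots x of D1} h(x)` in the algebraic closure.
* there is `u` coprime to `D1` with `ψ(u) = -1`: choose a constant `b ∈ F_p` with
  `quadraticChar b = -1`; `P` and `D1'` are coprime (`P` irreducible, `P ∤ D1'`), so there is `u` with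
  `u ≡ b (mod P)`, `u ≡ 1 (mod D1')`; `Res (D1, u) = Res (P, u) Res (D1', u) = Res (P, b) Res (D1', 1)
  = b^(deg P)`, `deg P` odd, so `ψ(u) = -1`, and `u` is coprime to `D1`.
* `∑_{r ∈ Low p n} ψ(r) = 0`: `r ↦ (u r) %ₘ D1` permutes `Low p n` (it is injective because `u` is
  invertible modulo `D1`), and `ψ((u r) %ₘ D1) = ψ(u r) = - ψ(r)`.
* for `d ≥ n`: `S_d = ε_d ∑_{h ∈ Mon p d} ψ(h) = ε_d ∑_{r ∈ Low p d} ψ(X^d + r)`; division with
  remainder `Low p d ≃ Low p (d-n) × Low p n` and a translation as in `Sd_vanish`: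
  `= ε_d p^(d-n) ∑_{s ∈ Low p n} ψ(s) = 0`.
-/

set_option autoImplicit false

namespace LIF

open Polynomial

/-- `Res(F, a)` does not depend on the degree parameter of `a` -/
private theorem VanX_deg {p : ℕ} [Fact p.Prime] {F : (ZMod p)[X]} (hF : F.Monic)
    {a : (ZMod p)[X]} {n : ℕ} (hn : a.natDegree ≤ n) :
    resultant F a F.natDegree n = resultant F a := by
  obtain ⟨k, rfl⟩ := Nat.exists_eq_add_of_le hn
  rw [resultant_add_right_deg _ _ _ _ k le_rfl, hF.coeff_natDegree, one_pow, one_mul]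

private theorem VanX_zero {p : ℕ} [Fact p.Prime] {F : (ZMod p)[X]} (h1 : 1 ≤ F.natDegree) :
    resultant F (0 : (ZMod p)[X]) = 0 := by
  rw [resultant_zero_right, zero_pow (by omega), zero_mul]

private theorem VanX_mul {p : ℕ} [Fact p.Prime] {F : (ZMod p)[X]} (h1 : 1 ≤ F.natDegree)
    (a b : (ZMod p)[X]) : resultant F (a * b) = resultant F a * resultant F b := by
  by_cases ha : a = 0
  · rw [ha, zero_mul, VanX_zero h1, zero_mul]
  by_cases hb : b = 0
  · rw [hb, mul_zero, VanX_zero h1, mul_zero]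
  rw [natDegree_mul ha hb, resultant_mul_right _ _ _ _ le_rfl]

private theorem VanX_add_mul {p : ℕ} [Fact p.Prime] {F : (ZMod p)[X]} (hF : F.Monic)
    (a b : (ZMod p)[X]) : resultant F (a + F * b) = resultant F a := by
  rw [← VanX_deg hF (n := (a + F * b).natDegree + a.natDegree + (b.natDegree + F.natDegree))
      (by omega), resultant_add_mul_right _ _ _ _ _ (by omega) le_rfl, VanX_deg hF (by omega)]

private theorem VanX_C {p : ℕ} [Fact p.Prime] (F : (ZMod p)[X]) (c : ZMod p) :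
    resultant F (C c) = c ^ F.natDegree := by
  rw [natDegree_C, resultant_C_zero_right]

private theorem VanX_mod {p : ℕ} [Fact p.Prime] {F u w v r : (ZMod p)[X]} (hF : F.Monic)
    (hw : w * u + v * F = 1) (hr : r.degree < F.degree) :
    (w * ((u * r) %ₘ F)) %ₘ F = r := by
  have h1 := modByMonic_add_div (u * r) F
  have h2 : F ∣ w * ((u * r) %ₘ F) - r := by
    refine ⟨-(v * r) - w * ((u * r) /ₘ F), ?_⟩
    linear_combination w * h1 + r * hw
  rw [modByMonic_eq_of_dvd_sub hF h2]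
  exact (modByMonic_eq_self_iff hF).2 hr

/-- a monic polynomial with an irreducible factor of odd degree which occurs once has a residue
class with character `-1` -/
private theorem VanX_unit {p : ℕ} [Fact p.Prime] (p2 : p ≠ 2) {P Q : (ZMod p)[X]}
    (hP : P.Monic) (hirr : Irreducible P) (hodd : Odd P.natDegree) (hQ : Q.Monic)
    (hn : ¬ P ∣ Q) : ∃ u w v : (ZMod p)[X], w * u + v * (P * Q) = 1 ∧
      quadraticChar (ZMod p) (resultant (P * Q) u) = -1 := by
  have hch : ringChar (ZMod p) ≠ 2 := by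
    rw [ZMod.ringChar_zmod_n]
    exact p2
  obtain ⟨c, hc⟩ := quadraticChar_exists_neg_one hch
  have hc0 : c ≠ 0 := by
    rintro rfl
    rw [quadraticChar_zero] at hc
    norm_num at hc
  obtain ⟨a, b, hab⟩ := (hirr.coprime_iff_not_dvd.2 hn : IsCoprime P Q)
  set u : (ZMod p)[X] := C c + P * ((1 - C c) * a) with hu
  have hu' : u = 1 + Q * ((C c - 1) * b) := by
    rw [hu]
    linear_combination (1 - C c) * hab
  have hcc : C c⁻¹ * C c = (1 : (ZMod p)[X]) := by
    rw [← C_mul, inv_mul_cancel₀ hc0, C_1]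
  have h1 : IsCoprime u P := by
    refine ⟨C c⁻¹, -(C c⁻¹ * ((1 - C c) * a)), ?_⟩
    rw [hu]
    linear_combination hcc
  have h2 : IsCoprime u Q := by
    refine ⟨1, -((C c - 1) * b), ?_⟩
    rw [hu']
    ring
  obtain ⟨w, v, hwv⟩ := h1.mul_right h2
  refine ⟨u, w, v, hwv, ?_⟩
  have h3 : resultant (P * Q) u = c ^ P.natDegree := by
    rw [hP.natDegree_mul hQ, resultant_mul_left _ _ _ _ le_rfl]
    have h4 : resultant P u = c ^ P.natDegree := by
      rw [hu, VanX_add_mul hP, VanX_C]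
    have h5 : resultant Q u = 1 := by
      have h6 := VanX_C Q 1
      rw [C_1, one_pow] at h6
      rw [hu', VanX_add_mul hQ, h6]
    rw [h4, h5, mul_one]
  rw [h3, map_pow, hc, hodd.neg_one_pow]

private theorem VanX_sum {p : ℕ} [Fact p.Prime] {F u w v : (ZMod p)[X]} (hF : F.Monic)
    (h1 : 1 ≤ F.natDegree) (hw : w * u + v * F = 1)
    (hu : quadraticChar (ZMod p) (resultant F u) = -1) :
    ∑ r ∈ Low p F.natDegree, quadraticChar (ZMod p) (resultant F r) = 0 := by
  have hdF : F.degree = (F.natDegree : WithBot ℕ) := degree_eq_natDegree hF.ne_zero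
  have hw' : u * w + v * F = 1 := by
    rw [← hw]
    ring
  have e1 : ∑ r ∈ Low p F.natDegree, quadraticChar (ZMod p) (resultant F ((u * r) %ₘ F)) =
      ∑ r ∈ Low p F.natDegree, quadraticChar (ZMod p) (resultant F r) := by
    refine Finset.sum_nbij' (fun r => (u * r) %ₘ F) (fun r => (w * r) %ₘ F) ?_ ?_ ?_ ?_ ?_
    · intro r _
      rw [mem_Low, ← hdF]
      exact degree_modByMonic_lt _ hF
    · intro r _
      rw [mem_Low, ← hdF]
      exact degree_modByMonic_lt _ hF
    · intro r hr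
      rw [mem_Low, ← hdF] at hr
      exact VanX_mod hF hw hr
    · intro r hr
      rw [mem_Low, ← hdF] at hr
      exact VanX_mod hF hw' hr
    · intro r _
      rfl
  have e2 : ∑ r ∈ Low p F.natDegree, quadraticChar (ZMod p) (resultant F ((u * r) %ₘ F)) =
      - ∑ r ∈ Low p F.natDegree, quadraticChar (ZMod p) (resultant F r) := by
    rw [← Finset.sum_neg_distrib]
    apply Finset.sum_congr rfl
    intro r _
    have h2 : resultant F ((u * r) %ₘ F) = resultant F u * resultant F r := by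
      rw [← VanX_mul h1 u r, ← VanX_add_mul hF ((u * r) %ₘ F) ((u * r) /ₘ F),
        modByMonic_add_div]
    rw [h2, map_mul, hu, neg_one_mul]
  rw [e2] at e1
  linarith

theorem Sd_vanishX {p : ℕ} [Fact p.Prime] (p2 : p ≠ 2) {D : (ZMod p)[X]} (hD : OddF p D) {d : ℕ}
    (hd : D.natDegree ≤ d) : Sd D d = 0 := by
  have hD0 : D ≠ 0 := by
    rintro rfl
    exact hD.c0 (coeff_zero 0)
  obtain ⟨P, D', hP, hirr, hodd, hPD, hn⟩ := hD.ex
  set c := D.leadingCoeff with hc
  have hc0 : c ≠ 0 := leadingCoeff_ne_zero.2 hD0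
  set F : (ZMod p)[X] := C c⁻¹ * D with hFdef
  have hF : F.Monic := by
    apply monic_C_mul_of_mul_leadingCoeff_eq_one
    rw [← hc, inv_mul_cancel₀ hc0]
  have hFD : D = C c * F := by
    rw [hFdef, ← mul_assoc, ← C_mul, mul_inv_cancel₀ hc0, C_1, one_mul]
  have hFn : D.natDegree = F.natDegree := by
    rw [hFdef, natDegree_C_mul (inv_ne_zero hc0)]
  have hFP : F = P * (C c⁻¹ * D') := by
    rw [hFdef, hPD]
    ring
  have hQ : (C c⁻¹ * D').Monic := by
    rw [hFP] at hF
    exact hP.of_mul_monic_left hF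
  have hnQ : ¬ P ∣ C c⁻¹ * D' := by
    intro h1
    apply hn
    have h2 : D' = C c * (C c⁻¹ * D') := by
      rw [← mul_assoc, ← C_mul, mul_inv_cancel₀ hc0, C_1, one_mul]
    rw [h2]
    exact h1.mul_left _
  have h1 : 1 ≤ F.natDegree := by
    rw [hFP, hP.natDegree_mul hQ]
    have := hodd.pos
    omega
  obtain ⟨u, w, v, hw, hu⟩ := VanX_unit p2 hP hirr hodd hQ hnQ
  rw [← hFP] at hw hu
  have hsum := VanX_sum hF h1 hw hu
  set ψ : (ZMod p)[X] → ℤ := fun h => quadraticChar (ZMod p) (resultant F h) with hψ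
  have e0 : Sd D d = ∑ h ∈ Mon p d,
      quadraticChar (ZMod p) (c ^ d * (-1) ^ (d * F.natDegree)) * ψ h := by
    unfold Sd
    apply Finset.sum_congr rfl
    intro h hh
    obtain ⟨-, hhd⟩ := mem_Mon.1 hh
    have h2 : resultant h D = c ^ d * (-1) ^ (d * F.natDegree) * resultant F h := by
      rw [hFn, hFD, resultant_C_mul_right, resultant_comm, hhd]
      ring
    rw [chi, h2, map_mul]
  rw [hFn] at hd
  have e1 : ∑ h ∈ Mon p d, ψ h = ∑ r ∈ Low p d, ψ (X ^ d + r) := sum_Mon_eq ψ d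
  have e2 : ∑ s ∈ Low p F.natDegree, ∑ r ∈ Low p d, ψ (X ^ d + (r + s)) =
      ∑ s ∈ Low p F.natDegree, ∑ r ∈ Low p d, ψ (X ^ d + r) := by
    apply Finset.sum_congr rfl
    intro s hs
    refine Van_trans (fun r => ψ (X ^ d + r)) ?_
    rw [mem_Low] at hs
    exact hs.trans_le (by exact_mod_cast hd)
  have e3 : ∑ s ∈ Low p F.natDegree, ∑ r ∈ Low p d, ψ (X ^ d + (r + s)) = 0 := by
    rw [Finset.sum_comm]
    apply Finset.sum_eq_zero
    intro r _
    have ht : ((X ^ d + r) %ₘ F).degree < ((F.natDegree : ℕ) : WithBot ℕ) := by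
      rw [← degree_eq_natDegree hF.ne_zero]
      exact degree_modByMonic_lt (X ^ d + r) hF
    rw [← hsum, ← Van_trans (fun s => quadraticChar (ZMod p) (resultant F s)) ht]
    apply Finset.sum_congr rfl
    intro s _
    have h5 : X ^ d + (r + s) = (s + (X ^ d + r) %ₘ F) + F * ((X ^ d + r) /ₘ F) := by
      have h6 := modByMonic_add_div (X ^ d + r) F
      linear_combination -h6
    show quadraticChar (ZMod p) (resultant F (X ^ d + (r + s))) = _
    rw [h5, VanX_add_mul hF]
  rw [e2, Finset.sum_const, card_Low, ← e1, nsmul_eq_mul] at e3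
  have hp : ((p ^ F.natDegree : ℕ) : ℤ) ≠ 0 := by
    have : p ≠ 0 := (Fact.out : p.Prime).ne_zero
    exact_mod_cast pow_ne_zero _ this
  rw [e0, ← Finset.mul_sum, (mul_eq_zero.1 e3).resolve_left hp, mul_zero]

end LIF
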