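import Pool.Agent.helper1.XLI.StX
import Pool.Agent.helper1.XLI.VanX
import Pool.Agent.helper1.LI.Roots
import Pool.Agent.helper1.LI.PowSum

/-!
proofs: helper59

[XLI-RootX] The Weil bound `|a_m| ≤ (deg D - 1) √p^m` (imports the stubs `StX`, `VanX`; adapt
`LI/Roots.lean`, `LI/RH.lean`).

* `am_eq_rootsX`: `n ≥ 1`, `S_d = 0` for `d ≥ n` ⇒ `a_m = - ∑ α^m`, `α` running over the complex roots of
  the monic polynomial `LpX n D` of degree `n - 1` (with multiplicity).  As `am_eq_roots`: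
  `mc s d = S_d` for all `d`, `newton_mult`, `mul_newton`.
* `am_leX`: `n = deg D ≥ 1` (`P ∣ D`).  By `am_boundX`, `am_eq_rootsX` and `powsum_bound` applied to the
  multiset of the `α^2`: `|α|^2 ≤ p` for all `α`.  There are `n - 1` roots, so
  `|a_m| ≤ ∑ |α|^m ≤ (n - 1) √p^m`.
-/

set_option autoImplicit false

namespace LIF

open Polynomial

theorem RootX_S0 {p : ℕ} [Fact p.Prime] (D : (ZMod p)[X]) : Sd D 0 = 1 := Roots_S0 0 D

theorem RootX_coeff {p : ℕ} [Fact p.Prime] {n : ℕ} (D : (ZMod p)[X]) {j : ℕ} (hj : j < n) :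
    (LpX n D).coeff (n - 1 - j) = Sd D j := by
  unfold LpX
  rw [finset_sum_coeff, Finset.sum_eq_single j]
  · rw [coeff_C_mul, coeff_X_pow, if_pos rfl, mul_one]
  · intro b hb hbj
    have hb' := Finset.mem_range.1 hb
    rw [coeff_C_mul, coeff_X_pow, if_neg (by omega), mul_zero]
  · intro h
    exact absurd (Finset.mem_range.2 hj) h

theorem RootX_natDegree_le {p : ℕ} [Fact p.Prime] {n : ℕ} (D : (ZMod p)[X]) :
    (LpX n D).natDegree ≤ n - 1 := by
  unfold LpX
  apply natDegree_sum_le_of_forall_le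
  intro d _
  refine (natDegree_C_mul_X_pow_le _ _).trans ?_
  omega

theorem RootX_monic {p : ℕ} [Fact p.Prime] {n : ℕ} (hn : 1 ≤ n) (D : (ZMod p)[X]) :
    (LpX n D).Monic := by
  apply monic_of_natDegree_le_of_coeff_eq_one (n - 1) (RootX_natDegree_le D)
  have h := RootX_coeff D (n := n) (j := 0) (by omega)
  rw [Nat.sub_zero] at h
  rw [h, RootX_S0]

theorem RootX_natDegree {p : ℕ} [Fact p.Prime] {n : ℕ} (hn : 1 ≤ n) (D : (ZMod p)[X]) :
    (LpX n D).natDegree = n - 1 := by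
  apply le_antisymm (RootX_natDegree_le D)
  apply le_natDegree_of_ne_zero
  have h := RootX_coeff D (n := n) (j := 0) (by omega)
  rw [Nat.sub_zero] at h
  rw [h, RootX_S0]
  exact one_ne_zero

theorem RootX_card {p : ℕ} [Fact p.Prime] {n : ℕ} (hn : 1 ≤ n) (D : (ZMod p)[X]) :
    Multiset.card ((LpX n D).map (Int.castRingHom ℂ)).roots = n - 1 := by
  rw [splits_iff_card_roots.1 (IsAlgClosed.splits _), (RootX_monic hn D).natDegree_map,
    RootX_natDegree hn]

theorem RootX_mc {p : ℕ} [Fact p.Prime] {n : ℕ} (hn : 1 ≤ n) {D : (ZMod p)[X]}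
    (hv : ∀ d, n ≤ d → Sd D d = 0) (d : ℕ) :
    mc ((LpX n D).map (Int.castRingHom ℂ)).roots d = ((Sd D d : ℤ) : ℂ) := by
  have hsp := IsAlgClosed.splits ((LpX n D).map (Int.castRingHom ℂ))
  have hmon : ((LpX n D).map (Int.castRingHom ℂ)).Monic := (RootX_monic hn D).map _
  have hcard := RootX_card hn D
  have hprod : (((LpX n D).map (Int.castRingHom ℂ)).roots.map (fun x => X - C x)).prod =
      (LpX n D).map (Int.castRingHom ℂ) := by
    apply prod_multiset_X_sub_C_of_monic_of_roots_card_eq hmon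
    exact splits_iff_card_roots.1 hsp
  unfold mc
  rw [hcard, hprod]
  by_cases hd : d ≤ n - 1
  · rw [if_pos hd, coeff_map, RootX_coeff D (by omega)]
    rfl
  · rw [if_neg hd, hv d (by omega)]
    simp

theorem am_eq_rootsX {p : ℕ} [Fact p.Prime] {D : (ZMod p)[X]} {n : ℕ} (hn : 1 ≤ n)
    (hv : ∀ d, n ≤ d → Sd D d = 0) {m : ℕ} (hm : 1 ≤ m) :
    ((am D m : ℤ) : ℂ) =
      - ((((LpX n D).map (Int.castRingHom ℂ)).roots.map (fun x => x ^ m)).sum) := by
  induction m using Nat.strong_induction_on with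
  | _ m ih =>
    obtain ⟨k, rfl⟩ : ∃ k, m = k + 1 := ⟨m - 1, by omega⟩
    have h1 : (((k + 1 : ℕ) : ℤ) : ℤ) * Sd D (k + 1) =
        ∑ j ∈ Finset.Icc 1 (k + 1), am D j * Sd D (k + 1 - j) :=
      newton_mult (R := ℤ) (fun h => chi D h)
        (fun a b ha hb => chi_mul D ha hb) (k + 1)
    have h2 := mul_newton (((LpX n D).map (Int.castRingHom ℂ)).roots) hm
    have h3 : (((k + 1 : ℕ) : ℂ)) * ((Sd D (k + 1) : ℤ) : ℂ) =
        ∑ j ∈ Finset.Icc 1 (k + 1), ((am D j : ℤ) : ℂ) *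
          ((Sd D (k + 1 - j) : ℤ) : ℂ) := by
      have h4 := congrArg (fun z : ℤ => (z : ℂ)) h1
      push_cast at h4
      push_cast
      exact h4
    simp only [RootX_mc hn hv] at h2
    rw [h3] at h2
    rw [Finset.sum_Icc_succ_top (by omega), Finset.sum_Icc_succ_top (by omega), Nat.sub_self,
      RootX_S0, Int.cast_one, mul_one, mul_one] at h2
    have h5 : ∑ j ∈ Finset.Icc 1 k, ((am D j : ℤ) : ℂ) *
          ((Sd D (k + 1 - j) : ℤ) : ℂ) =
        - ∑ j ∈ Finset.Icc 1 k,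
          ((((LpX n D).map (Int.castRingHom ℂ)).roots.map (fun x => x ^ j)).sum) *
            ((Sd D (k + 1 - j) : ℤ) : ℂ) := by
      rw [← Finset.sum_neg_distrib]
      apply Finset.sum_congr rfl
      intro j hj
      rw [Finset.mem_Icc] at hj
      rw [ih j (by omega) hj.1]
      ring
    rw [h5] at h2
    linear_combination h2

theorem am_leX {p : ℕ} [Fact p.Prime] (p2 : p ≠ 2) {D : (ZMod p)[X]} (hD : OddF p D) {m : ℕ}
    (hm : 1 ≤ m) :
    |((am D m : ℤ) : ℝ)| ≤ ((D.natDegree : ℝ) - 1) * (Real.sqrt p) ^ m := by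
  have hpp : p.Prime := Fact.out
  have hp0 : (0 : ℝ) < p := by exact_mod_cast hpp.pos
  have hn1 : 1 ≤ D.natDegree := by
    obtain ⟨P, D', hP, hirr, hodd, hPD, hn⟩ := hD.ex
    have hD'0 : D' ≠ 0 := by
      rintro rfl
      exact hn (dvd_zero P)
    rw [hPD, natDegree_mul hP.ne_zero hD'0]
    have := hodd.pos
    omega
  have hv : ∀ d, D.natDegree ≤ d → Sd D d = 0 := fun d hd => Sd_vanishX p2 hD hd
  obtain ⟨s, hs⟩ : ∃ s, s = ((LpX D.natDegree D).map (Int.castRingHom ℂ)).roots := ⟨_, rfl⟩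
  have hcard : Multiset.card s = D.natDegree - 1 := by
    rw [hs]
    exact RootX_card hn1 D
  obtain ⟨C0, m0, hC⟩ := am_boundX p2 hD
  have hle : ∀ x ∈ s, ‖x‖ ≤ Real.sqrt p := by
    intro x hx
    have h1 := powsum_bound (s.map (fun x => x ^ 2)) C0 p hp0
      (m0 + 1) ?_ (x ^ 2) (Multiset.mem_map_of_mem _ hx)
    · rw [norm_pow] at h1
      exact Real.le_sqrt_of_sq_le h1
    · intro k hk
      have h4 := hC k (by omega)
      have h5 := am_eq_rootsX hn1 hv (m := 2 * k) (by omega)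
      rw [← hs] at h5
      have h6 : ((s.map (fun x => x ^ 2)).map (fun x => x ^ k)).sum =
          -((am D (2 * k) : ℤ) : ℂ) := by
        rw [h5, neg_neg, Multiset.map_map]
        congr 1
        apply Multiset.map_congr rfl
        intro y _
        show (y ^ 2) ^ k = y ^ (2 * k)
        rw [pow_mul]
      rw [h6, norm_neg, Complex.norm_intCast]
      exact h4
  have h5 := am_eq_rootsX hn1 hv hm
  rw [← hs] at h5
  have h6 : |((am D m : ℤ) : ℝ)| = ‖((s.map (fun x => x ^ m)).sum)‖ := by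
    have h7 : ‖((am D m : ℤ) : ℂ)‖ = |((am D m : ℤ) : ℝ)| := Complex.norm_intCast _
    rw [← h7, h5, norm_neg]
  have hsum : ∀ t : Multiset ℂ, (∀ x ∈ t, ‖x‖ ≤ Real.sqrt p) →
      ‖((t.map (fun x => x ^ m)).sum)‖ ≤ (Multiset.card t : ℝ) * (Real.sqrt p) ^ m := by
    intro t
    induction t using Multiset.induction_on with
    | empty => simp
    | cons a t ih =>
      intro ht
      rw [Multiset.map_cons, Multiset.sum_cons, Multiset.card_cons]
      have h8 := ih fun x hx => ht x (Multiset.mem_cons_of_mem hx)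
      have h9 : ‖a ^ m‖ ≤ (Real.sqrt p) ^ m := by
        rw [norm_pow]
        exact pow_le_pow_left₀ (norm_nonneg _) (ht a (Multiset.mem_cons_self a t)) m
      push_cast
      calc ‖a ^ m + (t.map (fun x => x ^ m)).sum‖ ≤ ‖a ^ m‖ + ‖(t.map (fun x => x ^ m)).sum‖ :=
            norm_add_le _ _
        _ ≤ (Real.sqrt p) ^ m + (Multiset.card t : ℝ) * (Real.sqrt p) ^ m := add_le_add h9 h8
        _ = _ := by ring
  rw [h6]
  refine (hsum s hle).trans (le_of_eq ?_)
  rw [hcard, Nat.cast_sub hn1, Nat.cast_one]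

end LIF
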