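import Pool.Agent.helper1.XLI.EPp
import Pool.Agent.helper1.XLI.RootX
import Pool.Agent.helper1.GLI.Neg
import Pool.Agent.helper1.LI.ChiMp

/-!
[XLI-CountX] At least `p^(2g)/16` elements `γ` of `F_(p^(2g))` satisfy `GamX` (imports the stubs `EPp`,
`RootX`).  `g = 2^k`, `k ≥ 2`, `D1 = DP p g`, `Q = p^(2g)`.

For `x ∈ Km p (2g)` put `u(x) = chi D1 (Mp (2g) x)`, `w(x) = chi (1 - X) (Mp (2g) x)`, integers in
`{0, 1, -1}` with `(u(x) : K) = eta p (2g) (D1(x))`, `(w(x) : K) = eta p (2g) (1 - x)` (`chi_Mp`),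
`u(x) w(x) = chi ((1 - X) D1) (Mp (2g) x)` (multiplicativity of `chi` in the first argument, or from the
values in `K`: `1 ≠ -1`).  `u(x) = ±1` by `DP_ne_zero`.
* `∑_x w(x) = 0`: `x ↦ 1 - x` permutes `Km p (2g)` and there are as many `y ≠ 0` with
  `y^((Q-1)/2) = 1` as with `-1` (a nonsquare `ν`, `y ↦ ν y`; or count roots: the sum of
  `y^((Q-1)/2)` over the cyclic group of nonzero elements).
* `|∑ u| = |am D1 (2g)| ≤ (deg D1 - 1) p^g`, `|∑ u w| = |am ((1-X) D1) (2g)| ≤ deg D1 * p^g`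
  (`am_leX`, `DP_oddF`, `(√p)^(2g) = p^g`).
* `∑_x (1 - u)(1 - w) = Q - ∑ u - ∑ w + ∑ u w ≥ Q - 2 deg D1 p^g ≥ Q/4`, since
  `deg D1 ≤ p * p^g/(p^2 - 1) ≤ (3/8) p^g` (`DP_degree`; `8 p ≤ 3 (p^2 - 1)` for `p ≥ 3`).
* the term is `4` if `u = w = -1`; it is `0` if `u = 1` or `w = 1`; the remaining case is `w = 0`,
  `x = 1`: `u(1) = 1` because `D1(1) = 1` (as in `DP_ne_zero`: `EP p d (1) = N = 1`), so it is `0`
  too.  So the number of `x` with `u = w = -1` is at least `Q/16`.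
* such an `x` satisfies `GamX p k x`: `eta p (2g) (1 - x) = -1`; if `x^(p^g) = x` then
  `(1-x)^(p^g) = 1 - x` and `eta_of_fix` (`GLI/Neg.lean`) gives `eta = 1` (or `x = 1`, `eta = 0`),
  contradiction; so the degree of `x` divides `2g = 2^(k+1)` and not `g = 2^k`, so it is `2g`
  (`mem_Km_iff_dvd`); `x^p ≠ x` and `DP_eta` gives `prod`.
-/

set_option autoImplicit false

namespace LIF

open Polynomial

theorem CountX_tri {p : ℕ} [Fact p.Prime] (D h : (ZMod p)[X]) :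
    chi D h = 0 ∨ chi D h = 1 ∨ chi D h = -1 := by
  unfold chi
  by_cases h0 : resultant h D = 0
  · left
    rw [h0]
    exact quadraticChar_zero
  · right
    exact quadraticChar_dichotomy h0

theorem CountX_two {p : ℕ} [Fact p.Prime] (p2 : p ≠ 2) :
    (1 : AlgebraicClosure (ZMod p)) ≠ -1 := by
  have : CharP (AlgebraicClosure (ZMod p)) p :=
    charP_of_injective_algebraMap (algebraMap (ZMod p) (AlgebraicClosure (ZMod p))).injective p
  intro h
  have h2 : ((2 : ℕ) : AlgebraicClosure (ZMod p)) = 0 := by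
    push_cast
    linear_combination h
  rw [CharP.cast_eq_zero_iff (AlgebraicClosure (ZMod p)) p 2] at h2
  exact p2 ((Nat.prime_dvd_prime_iff_eq (Fact.out : p.Prime) Nat.prime_two).1 h2)

theorem CountX_cast {p : ℕ} [Fact p.Prime] (p2 : p ≠ 2) {a b : ℤ}
    (ha : a = 0 ∨ a = 1 ∨ a = -1) (hb : b = 0 ∨ b = 1 ∨ b = -1)
    (h : (a : AlgebraicClosure (ZMod p)) = (b : AlgebraicClosure (ZMod p))) : a = b := by
  have h1 := CountX_two p2
  have h2 : (0 : AlgebraicClosure (ZMod p)) ≠ 1 := zero_ne_one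
  have h3 : (0 : AlgebraicClosure (ZMod p)) ≠ -1 := by
    intro h
    exact h2 (neg_eq_zero.1 h.symm).symm
  rcases ha with rfl | rfl | rfl <;> rcases hb with rfl | rfl | rfl <;> push_cast at h
  · rfl
  · exact absurd h h2
  · exact absurd h h3
  · exact absurd h.symm h2
  · rfl
  · exact absurd h h1
  · exact absurd h.symm h3
  · exact absurd h.symm h1
  · rfl

theorem CountX_oddF (p : ℕ) [Fact p.Prime] : OddF p (1 - X : (ZMod p)[X]) := by
  refine ⟨by simp, X - C 1, -1, monic_X_sub_C 1, irreducible_X_sub_C 1, ?_, ?_, ?_⟩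
  · rw [natDegree_X_sub_C]
    exact odd_one
  · rw [C_1]
    ring
  · intro h
    have h1 : IsUnit (-1 : (ZMod p)[X]) := isUnit_one.neg
    exact (irreducible_X_sub_C (1 : ZMod p)).not_isUnit (isUnit_of_dvd_unit h h1)

theorem CountX_EP_one {p : ℕ} [Fact p.Prime] {d : ℕ} (hd : 1 ≤ d) :
    aeval (1 : AlgebraicClosure (ZMod p)) (EP p d) = 1 := by
  have : CharP (AlgebraicClosure (ZMod p)) p :=
    charP_of_injective_algebraMap (algebraMap (ZMod p) (AlgebraicClosure (ZMod p))).injective p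
  unfold EP
  simp only [map_sum, map_pow, aeval_X, one_pow, Finset.sum_const, Finset.card_range, nsmul_eq_mul,
    mul_one]
  rw [← Nat.geomSum_eq (Fact.out : p.Prime).two_le]
  obtain ⟨e, rfl⟩ : ∃ e, d = e + 1 := ⟨d - 1, by omega⟩
  rw [Finset.sum_range_succ']
  push_cast
  rw [CharP.cast_eq_zero]
  simp

theorem CountX_DP_one {p : ℕ} [Fact p.Prime] (g : ℕ) :
    aeval (1 : AlgebraicClosure (ZMod p)) (DP p g) = 1 := by
  unfold DP
  rw [map_prod]
  refine Finset.prod_eq_one fun d hd => ?_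
  unfold odds at hd
  rw [Finset.mem_filter] at hd
  exact CountX_EP_one (by omega)

/-- the value `w = -1` and `u = -1` gives `GamX` -/
theorem CountX_gam {p : ℕ} [Fact p.Prime] (p2 : p ≠ 2) {k : ℕ} (hk : 2 ≤ k)
    {x : AlgebraicClosure (ZMod p)} (hx : x ∈ Km p (2 * 2 ^ k))
    (h1 : eta p (2 * 2 ^ k) (1 - x) = -1)
    (h2 : eta p (2 * 2 ^ k) (aeval x (DP p (2 ^ k))) = -1) : GamX p k x := by
  have hp : p.Prime := Fact.out
  have hm1 : 1 ≤ 2 ^ k := Nat.one_le_two_pow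
  have hnfix : ¬ x ^ (p ^ (2 ^ k)) = x := by
    intro hfix
    have hne : (1 - x) ≠ 0 := by
      intro h0
      rw [h0] at h1
      unfold eta at h1
      have hpos : (p ^ (2 * 2 ^ k) - 1) / 2 ≠ 0 := by
        have h3 : 3 ≤ p := by
          have := hp.two_le
          omega
        have h4 : 3 ^ 1 ≤ p ^ (2 * 2 ^ k) := by
          calc 3 ^ 1 ≤ p ^ 1 := Nat.pow_le_pow_left h3 1
            _ ≤ p ^ (2 * 2 ^ k) := Nat.pow_le_pow_right hp.pos (by omega)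
        omega
      rw [zero_pow hpos] at h1
      have h5 : (1 : AlgebraicClosure (ZMod p)) = 0 := by
        linear_combination h1
      exact one_ne_zero h5
    have hfix' : (1 - x) ^ (p ^ (2 ^ k)) = 1 - x := by
      have : CharP (AlgebraicClosure (ZMod p)) p :=
        charP_of_injective_algebraMap
          (algebraMap (ZMod p) (AlgebraicClosure (ZMod p))).injective p
      rw [sub_pow_char_pow, one_pow, hfix]
    have h3 := eta_of_fix p2 hne hfix'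
    rw [h3] at h1
    exact CountX_two p2 h1
  have hdvd := (mem_Km_iff_dvd (by omega : 1 ≤ 2 * 2 ^ k)).1 hx
  refine ⟨?_, h1, ?_⟩
  · have e : 2 * 2 ^ k = 2 ^ (k + 1) := by rw [pow_succ]; ring
    rw [e] at hdvd ⊢
    obtain ⟨j, hj, hj2⟩ := (Nat.dvd_prime_pow Nat.prime_two).1 hdvd
    rcases Nat.lt_or_ge j (k + 1) with hlt | hge
    · exfalso
      apply hnfix
      have h3 : (minpoly (ZMod p) x).natDegree ∣ 2 ^ k := by
        rw [hj2]
        exact pow_dvd_pow 2 (by omega)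
      exact (mem_Km hm1).1 ((mem_Km_iff_dvd hm1).2 h3)
    · rw [hj2]
      congr 1
      omega
  · rw [DP_eta p2 hk hx, h2]
    intro hxp
    apply hnfix
    have h3 : x ^ (p ^ 1) = x := by rw [pow_one]; exact hxp
    have h4 := Km_iter h3 (2 ^ k)
    rwa [one_mul] at h4

open scoped Classical in
theorem count_gam {p : ℕ} [Fact p.Prime] (p2 : p ≠ 2) {k : ℕ} (hk : 2 ≤ k) :
    p ^ (2 * 2 ^ k) ≤ 16 * ((Km p (2 * 2 ^ k)).filter (fun x => GamX p k x)).card := by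
  have hp : p.Prime := Fact.out
  have p3 : 3 ≤ p := by
    have := hp.two_le
    omega
  have hm1 : 1 ≤ 2 * 2 ^ k := by
    have : 1 ≤ 2 ^ k := Nat.one_le_two_pow
    omega
  have hg4 : 4 ≤ 2 ^ k := by
    calc 4 = 2 ^ 2 := by norm_num
      _ ≤ 2 ^ k := Nat.pow_le_pow_right (by norm_num) hk
  have ge : Even (2 ^ k) := Nat.even_pow.2 ⟨even_two, by omega⟩
  have hu : ∀ x ∈ Km p (2 * 2 ^ k), chi (DP p (2 ^ k)) (Mp (2 * 2 ^ k) x) = 1 ∨
      chi (DP p (2 ^ k)) (Mp (2 * 2 ^ k) x) = -1 := by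
    intro x hx
    rcases CountX_tri (DP p (2 ^ k)) (Mp (2 * 2 ^ k) x) with h | h
    · exfalso
      have h1 := chi_Mp p2 (DP p (2 ^ k)) hm1 hx
      rw [h, Int.cast_zero] at h1
      exact pow_ne_zero _ (DP_ne_zero p2 hx) h1.symm
    · exact h
  have huw : ∀ x ∈ Km p (2 * 2 ^ k), chi ((1 - X) * DP p (2 ^ k)) (Mp (2 * 2 ^ k) x) =
      chi (DP p (2 ^ k)) (Mp (2 * 2 ^ k) x) * chi (1 - X) (Mp (2 * 2 ^ k) x) := by
    intro x hx
    apply CountX_cast p2 (CountX_tri _ _)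
    · rcases CountX_tri (DP p (2 ^ k)) (Mp (2 * 2 ^ k) x) with h | h | h <;>
        rcases CountX_tri (1 - X) (Mp (2 * 2 ^ k) x) with h' | h' | h' <;> rw [h, h'] <;> simp
    · rw [Int.cast_mul, chi_Mp p2 _ hm1 hx, chi_Mp p2 _ hm1 hx, chi_Mp p2 _ hm1 hx, map_mul,
        mul_pow, mul_comm]
  have hterm : ∀ x ∈ Km p (2 * 2 ^ k),
      (1 - chi (DP p (2 ^ k)) (Mp (2 * 2 ^ k) x)) * (1 - chi (1 - X) (Mp (2 * 2 ^ k) x)) =
      if chi (DP p (2 ^ k)) (Mp (2 * 2 ^ k) x) = -1 ∧ chi (1 - X) (Mp (2 * 2 ^ k) x) = -1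
        then (4 : ℤ) else 0 := by
    intro x hx
    rcases hu x hx with h | h
    · rw [h, if_neg (by norm_num)]
      ring
    · rcases CountX_tri (1 - X) (Mp (2 * 2 ^ k) x) with h' | h' | h'
      · exfalso
        have h1 := chi_Mp p2 (1 - X) hm1 hx
        rw [h', Int.cast_zero] at h1
        have h2 : aeval x (1 - X : (ZMod p)[X]) = 0 := by
          by_contra hne
          exact pow_ne_zero _ hne h1.symm
        have h3 : x = 1 := by
          rw [map_sub, map_one, aeval_X] at h2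
          exact (sub_eq_zero.1 h2).symm
        subst h3
        have h4 := chi_Mp p2 (DP p (2 ^ k)) hm1 hx
        rw [h, CountX_DP_one, one_pow] at h4
        push_cast at h4
        exact CountX_two p2 h4.symm
      · rw [h', if_neg (by norm_num)]
        ring
      · rw [h, h', if_pos ⟨rfl, rfl⟩]
        norm_num
  have hsum := Finset.sum_congr rfl hterm
  have hexp : ∑ x ∈ Km p (2 * 2 ^ k),
      (1 - chi (DP p (2 ^ k)) (Mp (2 * 2 ^ k) x)) * (1 - chi (1 - X) (Mp (2 * 2 ^ k) x)) =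
      ((p ^ (2 * 2 ^ k) : ℕ) : ℤ) - am (DP p (2 ^ k)) (2 * 2 ^ k) -
        am (1 - X : (ZMod p)[X]) (2 * 2 ^ k) + am ((1 - X) * DP p (2 ^ k)) (2 * 2 ^ k) := by
    have e1 : ∀ x ∈ Km p (2 * 2 ^ k),
        (1 - chi (DP p (2 ^ k)) (Mp (2 * 2 ^ k) x)) * (1 - chi (1 - X) (Mp (2 * 2 ^ k) x)) =
        1 - chi (DP p (2 ^ k)) (Mp (2 * 2 ^ k) x) - chi (1 - X) (Mp (2 * 2 ^ k) x) +
          chi ((1 - X) * DP p (2 ^ k)) (Mp (2 * 2 ^ k) x) := by
      intro x hx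
      rw [huw x hx]
      ring
    rw [Finset.sum_congr rfl e1, Finset.sum_add_distrib, Finset.sum_sub_distrib,
      Finset.sum_sub_distrib, Finset.sum_const, card_Km hm1]
    unfold am
    simp
  rw [hexp, ← Finset.sum_filter, Finset.sum_const, nsmul_eq_mul] at hsum
  have hsub : ((Km p (2 * 2 ^ k)).filter (fun x =>
      chi (DP p (2 ^ k)) (Mp (2 * 2 ^ k) x) = -1 ∧ chi (1 - X) (Mp (2 * 2 ^ k) x) = -1)).card ≤
      ((Km p (2 * 2 ^ k)).filter (fun x => GamX p k x)).card := by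
    apply Finset.card_le_card
    intro x hx
    rw [Finset.mem_filter] at hx ⊢
    obtain ⟨hx1, hx2, hx3⟩ := hx
    refine ⟨hx1, CountX_gam p2 hk hx1 ?_ ?_⟩
    · have h1 := chi_Mp p2 (1 - X) hm1 hx1
      rw [hx3] at h1
      rw [map_sub, map_one, aeval_X] at h1
      unfold eta
      rw [← h1]
      simp
    · have h1 := chi_Mp p2 (DP p (2 ^ k)) hm1 hx1
      rw [hx2] at h1
      unfold eta
      rw [← h1]
      simp
  obtain ⟨M, hM⟩ : ∃ M : ℕ, M = ((Km p (2 * 2 ^ k)).filter (fun x =>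
      chi (DP p (2 ^ k)) (Mp (2 * 2 ^ k) x) = -1 ∧
        chi (1 - X) (Mp (2 * 2 ^ k) x) = -1)).card := ⟨_, rfl⟩
  rw [← hM] at hsum hsub
  refine le_trans ?_ (Nat.mul_le_mul_left 16 hsub)
  obtain ⟨hO1, hO2⟩ := DP_oddF p2 ge hg4
  have b1 := am_leX p2 hO1 hm1
  have b2 := am_leX p2 hO2 hm1
  have b3 := am_leX p2 (CountX_oddF p) hm1
  have hsq : (Real.sqrt p) ^ (2 * 2 ^ k) = (p : ℝ) ^ (2 ^ k) := by
    rw [pow_mul, Real.sq_sqrt (Nat.cast_nonneg p)]
  have hd1 : (1 - X : (ZMod p)[X]).natDegree = 1 := by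
    have e : (1 - X : (ZMod p)[X]) = -(X - C 1) := by rw [C_1]; ring
    rw [e, natDegree_neg, natDegree_X_sub_C]
  have hd2 : ((1 - X) * DP p (2 ^ k)).natDegree ≤ 1 + (DP p (2 ^ k)).natDegree := by
    rw [← hd1]
    exact natDegree_mul_le
  rw [hsq] at b1 b2 b3
  rw [hd1, Nat.cast_one, sub_self, zero_mul] at b3
  have hd2' : ((((1 - X) * DP p (2 ^ k)).natDegree : ℕ) : ℝ) ≤
      1 + ((DP p (2 ^ k)).natDegree : ℝ) := by exact_mod_cast hd2
  have hdeg := DP_degree (p := p) ge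
  obtain ⟨N, hN⟩ : ∃ N : ℕ, N = (DP p (2 ^ k)).natDegree := ⟨_, rfl⟩
  rw [← hN] at b1 hd2' hdeg
  obtain ⟨t, ht⟩ : ∃ t : ℕ, p ^ 2 = t + 1 := ⟨p ^ 2 - 1, by
    have : 0 < p ^ 2 := by positivity
    omega⟩
  have ht' : p ^ 2 - 1 = t := by omega
  rw [ht'] at hdeg
  have ht3 : 8 * p ≤ 3 * t := by nlinarith
  have htpos : 0 < t := by nlinarith
  have hN8 : 8 * N ≤ 3 * p ^ (2 ^ k) := by
    have h1 : 8 * (N * t) ≤ 3 * p ^ (2 ^ k) * t := by
      calc 8 * (N * t) ≤ 8 * (p * p ^ (2 ^ k)) := Nat.mul_le_mul_left 8 hdeg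
        _ = (8 * p) * p ^ (2 ^ k) := by ring
        _ ≤ (3 * t) * p ^ (2 ^ k) := Nat.mul_le_mul_right _ ht3
        _ = 3 * p ^ (2 ^ k) * t := by ring
    have h2 : 8 * N * t ≤ 3 * p ^ (2 ^ k) * t := by linarith
    exact Nat.le_of_mul_le_mul_right h2 htpos
  have hN8' : 8 * (N : ℝ) ≤ 3 * (p : ℝ) ^ (2 ^ k) := by exact_mod_cast hN8
  have hsumR : ((p : ℝ) ^ (2 * 2 ^ k)) - (am (DP p (2 ^ k)) (2 * 2 ^ k) : ℤ) -
      (am (1 - X : (ZMod p)[X]) (2 * 2 ^ k) : ℤ) +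
        (am ((1 - X) * DP p (2 ^ k)) (2 * 2 ^ k) : ℤ) = (M : ℝ) * 4 := by
    exact_mod_cast hsum
  have hP : (0 : ℝ) ≤ (p : ℝ) ^ (2 ^ k) := by positivity
  have hPP : (p : ℝ) ^ (2 * 2 ^ k) = (p : ℝ) ^ (2 ^ k) * (p : ℝ) ^ (2 ^ k) := by
    rw [two_mul, pow_add]
  have c1 := (abs_le.1 b1).2
  have c2 := (abs_le.1 b2).1
  have c3 := (abs_le.1 b3).2
  have c4 : ((((1 - X) * DP p (2 ^ k)).natDegree : ℝ) - 1) * (p : ℝ) ^ (2 ^ k) ≤
      (N : ℝ) * (p : ℝ) ^ (2 ^ k) := mul_le_mul_of_nonneg_right (by linarith) hP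
  have c5 : 8 * (N : ℝ) * (p : ℝ) ^ (2 ^ k) ≤ 3 * (p : ℝ) ^ (2 ^ k) * (p : ℝ) ^ (2 ^ k) :=
    mul_le_mul_of_nonneg_right hN8' hP
  have hfin : (p : ℝ) ^ (2 * 2 ^ k) ≤ 16 * (M : ℝ) := by
    rw [hPP] at hsumR ⊢
    nlinarith
  exact_mod_cast hfin

end LIF
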