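import Mathlib

/-!
[XLI-CrossV] The Artin-Schreier computation (imports Mathlib only; valuations).

Write `w = v(2) < 1`.  `g ≥ 8` even, `p` odd, `v(y)^g = w`, `v(δ)^(g-1) = w`, `v(y^g - δ^(g-1)) ≤ w v(y)`,
`U^2 = (1 - 4p/y^2)(1 - 4p/(y+δ)^2)`.  `Π = δ/y`, `r = δ/(y (y+δ))`, `θ = (Π⁻¹)^((g-2)/2)`,
`V = (U-1)/2 - r - θ`.  Claim: `v(V)^2 * v(Π)^(g-3) = 1`.

Put `π = v(Π)`.  All valuations below are powers of `π`: `π^(g(g-1)) = v(δ)^(g(g-1)) / v(y)^(g(g-1))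
= w^g / w^(g-1) = w`; `v(y) = π^(g-1)` (both to the power `g` are `w`, resp. `π^(g(g-1)) = w`),
`v(δ) = π^g`, `w = π^(g(g-1))`, `0 < π < 1` (in a linearly ordered group with zero `x^n = y^n`, `n ≥ 1`
implies `x = y`: `pow_left_injective`).  So every estimate is a comparison of integer exponents of `π`.

Steps.  Let `κ = y^g / δ^(g-1)`, so `y = Π^(g-1) κ` (`Π^(g-1) = δ^(g-1)/y^(g-1)`), and
`v(κ - 1) ≤ w v(y) / w = π^(g-1)`.  `y + δ = y (1 + Π)`, so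
`r = Π / (y (1 + Π)) = Π^(-(g-2)) / (κ (1 + Π))`.
(1) `v(r - θ^2 + Π^(-(g-3))) ≤ π^(-(g-4))` with `θ^2 = Π^(-(g-2))`: indeed
  `r - θ^2 + Π^(-(g-3)) = Π^(-(g-2)) (1/(κ(1+Π)) - 1 + Π)` and
  `1/(κ(1+Π)) - 1 + Π = (1 - (1 - Π)(1 + Π) κ)/(κ (1+Π)) = (1 - κ + Π^2 κ)/(κ(1+Π))`, valuation
  `≤ π^2` (`g - 1 ≥ 2`; `v(κ) = v(1 + Π) = 1`).
  So `v(r) = π^(-(g-2))` and `v(r - θ^2) = π^(-(g-3))`.
(2) Let `V0 = (U-1)/2`: `V0^2 + V0 = (U^2 - 1)/4 = - p (s^2 + s'^2) + 4 p^2 s^2 s'^2`, `s = 1/y`,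
  `s' = 1/(y+δ)`, `s - s' = r`, `s^2 + s'^2 = r^2 + 2 s s'`.
  Let `V1 = V0 - r`: `V1^2 + V1 + 2 r V1 = - r - (p+1) r^2 - 2 p s s' + 4 p^2 s^2 s'^2`.
  `v((p+1) r^2) ≤ w π^(-2(g-2)) < 1` (`p + 1` even; `2(g-2) < g(g-1)`), `v(2 p s s') ≤ w π^(-2(g-1))
  < 1`, `v(4 p^2 s^2 s'^2) ≤ w^2 π^(-4(g-1)) < 1` (`2(g-1) < g(g-1)`).
  So `V1^2 + V1 (1 + 2r) = - r + ε`, `v(ε) < 1`.  `v(1 + 2r) = 1` (`v(2r) < 1`).  As
  `v(- r + ε) = π^(-(g-2)) > 1`, `v(V1) > 1` and `v(V1)^2 = π^(-(g-2))` (if `v(V1) > 1` then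
  `v(V1^2 + V1 (1+2r)) = v(V1)^2`).
(3) `V = V1 - θ`: `V^2 + V = V1^2 + V1 - 2 V1 θ + θ^2 - θ = (- r + ε) - 2 r V1 - 2 V1 θ + θ^2 - θ
  = - (r - θ^2) - θ + ε - 2 r V1 - 2 V1 θ`.  Valuations: `v(r - θ^2) = π^(-(g-3))`,
  `v(θ) = π^(-(g-2)/2) < π^(-(g-3))` (`(g-2)/2 < g - 3` as `g > 4`), `v(2 r V1) ≤ w π^(-2(g-2)) < 1`
  (`v(V1) ≤ π^(-(g-2))`), `v(2 V1 θ) < 1` similarly.
  So `v(V^2 + V) = π^(-(g-3)) > 1`, so `v(V) > 1`, `v(V)^2 = v(V^2 + V) = π^(-(g-3))`.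
-/

set_option autoImplicit false

namespace LIF

/-- solution of a quadratic equation with a large right-hand side -/
private theorem CrossV_quad {E : Type*} [Field E] {Γ : Type*} [LinearOrderedCommGroupWithZero Γ]
    (v : Valuation E Γ) {z b c : E} (h : z ^ 2 + z * b = c) (hb : v b ≤ 1) (hc : 1 < v c) :
    1 < v z ∧ v z ^ 2 = v c := by
  have h1 : 1 < v z := by
    by_contra hz
    rw [not_lt] at hz
    have h2 : v (z ^ 2) ≤ 1 := by
      rw [map_pow]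
      exact pow_le_one₀ zero_le hz
    have h3 : v (z * b) ≤ 1 := by
      rw [map_mul]
      exact mul_le_one₀ hz zero_le hb
    have h4 := v.map_add_le h2 h3
    rw [h] at h4
    exact absurd hc (not_lt.mpr h4)
  refine ⟨h1, ?_⟩
  have h2 : v (z * b) < v (z ^ 2) := by
    rw [map_mul, map_pow, pow_two]
    calc v z * v b ≤ v z * 1 := mul_le_mul_right hb _
      _ < v z * v z := mul_lt_mul_of_pos_left h1 (zero_lt_one.trans h1)
  rw [← h, v.map_add_eq_of_lt_left h2, map_pow]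

private theorem CrossV_nat {E : Type*} [Field E] {Γ : Type*} [LinearOrderedCommGroupWithZero Γ]
    (v : Valuation E Γ) (n : ℕ) : v (n : E) ≤ 1 := by
  induction n with
  | zero => simp
  | succ n ih =>
    rw [Nat.cast_succ]
    exact v.map_add_le ih (by simp)

private theorem CrossV_aux {E : Type*} [Field E] [CharZero E] {Γ : Type*}
    [LinearOrderedCommGroupWithZero Γ] (v : Valuation E Γ) (h2 : v (2 : E) < 1) {h p : ℕ}
    (hh : 3 ≤ h) (hp : p % 2 = 1) {y δ U : E} (hy : v y ^ (2 * h + 2) = v (2 : E))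
    (hδ : v δ ^ (2 * h + 1) = v (2 : E))
    (hk : v (y ^ (2 * h + 2) - δ ^ (2 * h + 1)) ≤ v (2 : E) * v y)
    (hU : U ^ 2 = (1 - 4 * (p : E) / y ^ 2) * (1 - 4 * (p : E) / (y + δ) ^ 2)) :
    v ((U - 1) / 2 - δ / (y * (y + δ)) - ((δ / y)⁻¹) ^ h) ^ 2 * v (δ / y) ^ (2 * h - 1) = 1 := by
  have h20 : (2 : E) ≠ 0 := two_ne_zero
  have hw0 : v (2 : E) ≠ 0 := v.ne_zero_iff.mpr h20
  have hwp : 0 < v (2 : E) := zero_lt_iff.mpr hw0
  have hvy0 : v y ≠ 0 := by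
    intro h0
    rw [h0, zero_pow (by omega)] at hy
    exact hw0 hy.symm
  have hvδ0 : v δ ≠ 0 := by
    intro h0
    rw [h0, zero_pow (by omega)] at hδ
    exact hw0 hδ.symm
  have hy0 : y ≠ 0 := v.ne_zero_iff.mp hvy0
  have hδ0 : δ ≠ 0 := v.ne_zero_iff.mp hvδ0
  obtain ⟨t, ht⟩ : ∃ t, t = v y / v δ := ⟨_, rfl⟩
  have htd : v y = t * v δ := by rw [ht, div_mul_cancel₀ _ hvδ0]
  have ht0 : t ≠ 0 := by rw [ht]; exact div_ne_zero hvy0 hvδ0
  have htp : 0 < t := zero_lt_iff.mpr ht0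
  have hwt : v (2 : E) * t ^ ((2 * h + 2) * (2 * h + 1)) = 1 := by
    have e1 : t ^ ((2 * h + 2) * (2 * h + 1)) * v (2 : E) ^ (2 * h + 2) =
        v (2 : E) ^ (2 * h + 1) := by
      calc t ^ ((2 * h + 2) * (2 * h + 1)) * v (2 : E) ^ (2 * h + 2)
          = (t * v δ) ^ ((2 * h + 2) * (2 * h + 1)) := by
            rw [← hδ, ← pow_mul, mul_comm (2 * h + 1) (2 * h + 2), mul_pow]
        _ = (v y ^ (2 * h + 2)) ^ (2 * h + 1) := by rw [← htd, pow_mul]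
        _ = v (2 : E) ^ (2 * h + 1) := by rw [hy]
    have e2 : v (2 : E) ^ (2 * h + 1) * (v (2 : E) * t ^ ((2 * h + 2) * (2 * h + 1))) =
        v (2 : E) ^ (2 * h + 1) * 1 := by
      rw [mul_one, ← mul_assoc, ← pow_succ, mul_comm]
      exact e1
    exact mul_left_cancel₀ (pow_ne_zero _ hw0) e2
  have ht1 : 1 < t := by
    have e1 : 1 < t ^ ((2 * h + 2) * (2 * h + 1)) := by
      by_contra hc
      rw [not_lt] at hc
      have e2 : v (2 : E) * t ^ ((2 * h + 2) * (2 * h + 1)) < 1 :=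
        mul_lt_one_of_nonneg_of_lt_one_left zero_le h2 hc
      rw [hwt] at e2
      exact lt_irrefl _ e2
    exact (one_lt_pow_iff_of_nonneg zero_le (by positivity)).mp e1
  have hsm : ∀ n : ℕ, n < (2 * h + 2) * (2 * h + 1) → v (2 : E) * t ^ n < 1 := by
    intro n hn
    rw [← hwt]
    exact mul_lt_mul_of_pos_left (pow_lt_pow_right₀ ht1 hn) hwp
  have hN : 8 * h < (2 * h + 2) * (2 * h + 1) := by nlinarith
  have hvy : v y * t ^ (2 * h + 1) = 1 := by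
    have e1 : (v y * t ^ (2 * h + 1)) ^ (2 * h + 2) = 1 ^ (2 * h + 2) := by
      rw [mul_pow, hy, ← pow_mul, mul_comm (2 * h + 1) (2 * h + 2), hwt, one_pow]
    exact (pow_left_inj₀ zero_le zero_le (by omega)).mp e1
  have hvδ : v δ * t ^ (2 * h + 2) = 1 := by
    rw [← hvy, htd, pow_succ t (2 * h + 1)]
    rw [mul_comm (t ^ (2 * h + 1)) t, ← mul_assoc, mul_comm (v δ) t]
  -- `v (y + δ) = v y`
  have hlt : v δ < v y := by
    rw [htd]
    calc v δ = 1 * v δ := (one_mul _).symm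
      _ < t * v δ := mul_lt_mul_of_pos_right ht1 (zero_lt_iff.mpr hvδ0)
  have hvs : v (y + δ) = v y := v.map_add_eq_of_lt_left hlt
  have hs0 : y + δ ≠ 0 := by
    rw [← v.ne_zero_iff, hvs]
    exact hvy0
  -- `Π`
  obtain ⟨P, hP⟩ : ∃ P, P = y / δ := ⟨_, rfl⟩
  have hPi : (δ / y)⁻¹ = P := by rw [hP, inv_div]
  have hP0 : P ≠ 0 := by rw [hP]; exact div_ne_zero hy0 hδ0
  have hvP : v P = t := by rw [hP, map_div₀, ht]
  have hPd : δ / y = P⁻¹ := by rw [hP, inv_div]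
  obtain ⟨r, hr⟩ : ∃ r, r = δ / (y * (y + δ)) := ⟨_, rfl⟩
  have hvr : v r = t ^ (2 * h) := by
    rw [hr, map_div₀, map_mul, hvs, div_eq_iff (mul_ne_zero hvy0 hvy0)]
    apply mul_right_cancel₀ (pow_ne_zero (2 * h + 2) ht0)
    rw [hvδ]
    have e1 : t ^ (2 * h) * (v y * v y) * t ^ (2 * h + 2) =
        (v y * t ^ (2 * h + 1)) * (v y * t ^ (2 * h + 1)) := by
      rw [pow_succ t (2 * h + 1), pow_succ t (2 * h)]
      simp only [mul_assoc, mul_comm, mul_left_comm]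
    rw [e1, hvy, one_mul]
  -- step (1)
  obtain ⟨κ, hκ⟩ : ∃ κ, κ = y ^ (2 * h + 2) / δ ^ (2 * h + 1) := ⟨_, rfl⟩
  have hκ1 : v (κ - 1) ≤ v y := by
    have e1 : κ - 1 = (y ^ (2 * h + 2) - δ ^ (2 * h + 1)) / δ ^ (2 * h + 1) := by
      rw [hκ, sub_div, div_self (pow_ne_zero _ hδ0)]
    rw [e1, map_div₀, map_pow, hδ, div_le_iff₀ hwp, mul_comm (v y)]
    exact hk
  have hty2 : v y ≤ (t ^ 2)⁻¹ := by
    rw [le_inv_comm₀ (zero_lt_iff.mpr hvy0) (zero_lt_iff.mpr (pow_ne_zero 2 ht0))]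
    have e1 : (v y)⁻¹ = t ^ (2 * h + 1) := by
      rw [inv_eq_of_mul_eq_one_right hvy]
    rw [e1]
    exact pow_le_pow_right₀ ht1.le (by omega)
  have ht2 : (t ^ 2)⁻¹ < 1 := inv_lt_one_of_one_lt₀ (one_lt_pow₀ ht1 (by norm_num))
  have hvy1 : v y < 1 := lt_of_le_of_lt hty2 ht2
  have hvκ : v κ = 1 := by
    have e1 : κ = 1 + (κ - 1) := by ring
    rw [e1, v.map_add_eq_of_lt_left, map_one]
    rw [map_one]
    exact lt_of_le_of_lt hκ1 hvy1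
  have hκ0 : κ ≠ 0 := by
    rw [← v.ne_zero_iff, hvκ]
    exact one_ne_zero
  have hvPi : v P⁻¹ = t⁻¹ := by rw [map_inv₀, hvP]
  have hti1 : t⁻¹ < 1 := inv_lt_one_of_one_lt₀ ht1
  have hv1P : v (1 + P⁻¹) = 1 := by
    rw [v.map_add_eq_of_lt_left, map_one]
    rw [map_one, hvPi]
    exact hti1
  have h1P0 : 1 + P⁻¹ ≠ 0 := by
    rw [← v.ne_zero_iff, hv1P]
    exact one_ne_zero
  obtain ⟨X, hX⟩ : ∃ X, X = (1 - κ + (P⁻¹) ^ 2 * κ) / (κ * (1 + P⁻¹)) := ⟨_, rfl⟩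
  have hvX : v X ≤ (t ^ 2)⁻¹ := by
    rw [hX, map_div₀, map_mul v κ, hvκ, hv1P, one_mul, div_one]
    apply v.map_add_le
    · rw [← v.map_neg, neg_sub]
      exact hκ1.trans hty2
    · rw [map_mul, map_pow, hvPi, hvκ, mul_one, inv_pow]
  have hrκ : r * (κ * (1 + P⁻¹)) = P ^ (2 * h) := by
    rw [hr, hκ, hP, inv_div, div_pow, pow_add y (2 * h) 2, pow_add δ (2 * h) 1]
    field_simp
  have hrX : r = P ^ (2 * h) * X + P ^ (2 * h) - P ^ (2 * h - 1) := by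
    have e1 : P ^ (2 * h - 1) = P ^ (2 * h) * P⁻¹ := by
      rw [eq_mul_inv_iff_mul_eq₀ hP0, ← pow_succ]
      congr 1
      omega
    have e2 : r = P ^ (2 * h) / (κ * (1 + P⁻¹)) := by
      rw [eq_div_iff (mul_ne_zero hκ0 h1P0)]
      exact hrκ
    have e3 : P ^ (2 * h) * X + P ^ (2 * h) - P ^ (2 * h) * P⁻¹ =
        P ^ (2 * h) * (((1 - κ + (P⁻¹) ^ 2 * κ) + (1 - P⁻¹) * (κ * (1 + P⁻¹))) /
          (κ * (1 + P⁻¹))) := by
      rw [add_div, mul_div_cancel_right₀ _ (mul_ne_zero hκ0 h1P0), hX]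
      ring
    have e4 : (1 - κ + (P⁻¹) ^ 2 * κ) + (1 - P⁻¹) * (κ * (1 + P⁻¹)) = 1 := by ring
    rw [e1, e3, e4, e2]
    ring
  have hvrθ : v (r - (P ^ h) ^ 2) = t ^ (2 * h - 1) := by
    have e1 : r - (P ^ h) ^ 2 = P ^ (2 * h) * X + -(P ^ (2 * h - 1)) := by
      rw [hrX, ← pow_mul, mul_comm h 2]
      ring
    have e2 : v (P ^ (2 * h) * X) < v (-(P ^ (2 * h - 1))) := by
      rw [map_mul, v.map_neg, map_pow, map_pow, hvP]
      calc t ^ (2 * h) * v X ≤ t ^ (2 * h) * (t ^ 2)⁻¹ := mul_le_mul_right hvX _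
        _ = t ^ (2 * h - 2) := by
            rw [← div_eq_mul_inv, div_eq_iff (pow_ne_zero 2 ht0), ← pow_add]
            congr 1
            omega
        _ < t ^ (2 * h - 1) := pow_lt_pow_right₀ ht1 (by omega)
    rw [e1, v.map_add_eq_of_lt_right e2, v.map_neg, map_pow, hvP]
  -- step (2)
  obtain ⟨V0, hV0⟩ : ∃ V0, V0 = (U - 1) / 2 := ⟨_, rfl⟩
  obtain ⟨V1, hV1⟩ : ∃ V1, V1 = V0 - r := ⟨_, rfl⟩
  obtain ⟨ε, hε⟩ : ∃ ε, ε = -(((p : E) + 1) * r ^ 2) - 2 * (p : E) * ((1 / y) * (1 / (y + δ)))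
      + 4 * (p : E) ^ 2 * ((1 / y) * (1 / (y + δ))) ^ 2 := ⟨_, rfl⟩
  have hV0q : V0 ^ 2 + V0 = -(p : E) * ((1 / y) ^ 2 + (1 / (y + δ)) ^ 2) +
      4 * (p : E) ^ 2 * ((1 / y) * (1 / (y + δ))) ^ 2 := by
    have e1 : V0 ^ 2 + V0 = (U ^ 2 - 1) / 4 := by
      rw [hV0]
      ring
    rw [e1, hU]
    field_simp
    ring
  have hrs : r = 1 / y - 1 / (y + δ) := by
    rw [hr]
    field_simp
    ring
  have hV1q : V1 ^ 2 + V1 * (1 + 2 * r) = -r + ε := by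
    have e1 : V1 ^ 2 + V1 * (1 + 2 * r) = (V0 ^ 2 + V0) - r - r ^ 2 := by
      rw [hV1]
      ring
    have e2 : (1 / y) ^ 2 + (1 / (y + δ)) ^ 2 = r ^ 2 + 2 * ((1 / y) * (1 / (y + δ))) := by
      rw [hrs]
      ring
    rw [e1, hV0q, e2, hε]
    ring
  have hvss : v ((1 / y) * (1 / (y + δ))) = t ^ (2 * (2 * h + 1)) := by
    have e1 : (v y)⁻¹ = t ^ (2 * h + 1) := by
      rw [inv_eq_of_mul_eq_one_right hvy]
    rw [map_mul, one_div, one_div, map_inv₀, map_inv₀, hvs, e1, ← pow_add]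
    congr 1
    omega
  have hvp1 : v ((p : E) + 1) ≤ v (2 : E) := by
    obtain ⟨q, hq⟩ : ∃ q, p + 1 = 2 * q := ⟨(p + 1) / 2, by omega⟩
    have e1 : (p : E) + 1 = 2 * (q : E) := by
      have := congrArg (Nat.cast (R := E)) hq
      push_cast at this
      exact this
    rw [e1, map_mul]
    calc v (2 : E) * v (q : E) ≤ v (2 : E) * 1 := mul_le_mul_right (CrossV_nat v q) _
      _ = v (2 : E) := mul_one _
  have hvp : v (p : E) ≤ 1 := CrossV_nat v p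
  have hvε : v ε < 1 := by
    rw [hε]
    apply v.map_add_lt
    · rw [sub_eq_add_neg]
      apply v.map_add_lt
      · rw [v.map_neg, map_mul, map_pow, hvr, ← pow_mul]
        exact lt_of_le_of_lt (mul_le_mul_left hvp1 _) (hsm _ (by omega))
      · rw [v.map_neg, map_mul, map_mul, hvss]
        calc v (2 : E) * v (p : E) * t ^ (2 * (2 * h + 1))
            ≤ v (2 : E) * 1 * t ^ (2 * (2 * h + 1)) :=
              mul_le_mul_left (mul_le_mul_right hvp _) _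
          _ = v (2 : E) * t ^ (2 * (2 * h + 1)) := by rw [mul_one]
          _ < 1 := hsm _ (by omega)
    · have e1 : 4 * (p : E) ^ 2 * ((1 / y) * (1 / (y + δ))) ^ 2 =
          (p : E) ^ 2 * (2 * ((1 / y) * (1 / (y + δ)))) ^ 2 := by ring
      have e2 : v (2 : E) * t ^ (2 * (2 * h + 1)) < 1 := hsm _ (by omega)
      rw [e1, map_mul, map_pow, map_pow, map_mul, hvss, mul_comm]
      exact mul_lt_one_of_nonneg_of_lt_one_left zero_le (pow_lt_one₀ zero_le e2 (by norm_num))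
        (pow_le_one₀ zero_le hvp)
  have hv2r : v (2 * r) < 1 := by
    rw [map_mul, hvr]
    exact hsm _ (by omega)
  have hv12r : v (1 + 2 * r) = 1 := by
    rw [v.map_add_eq_of_lt_left, map_one]
    rw [map_one]
    exact hv2r
  have ht2h : 1 < t ^ (2 * h) := one_lt_pow₀ ht1 (by omega)
  have hvc : v (-r + ε) = t ^ (2 * h) := by
    rw [v.map_add_eq_of_lt_left, v.map_neg, hvr]
    rw [v.map_neg, hvr]
    exact hvε.trans ht2h
  obtain ⟨hV1a, hV1b⟩ := CrossV_quad v hV1q hv12r.le (by rw [hvc]; exact ht2h)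
  have hV1le : v V1 ≤ t ^ (2 * h) := by
    rw [← hvc, ← hV1b, pow_two]
    calc v V1 = v V1 * 1 := (mul_one _).symm
      _ ≤ v V1 * v V1 := mul_le_mul_right hV1a.le _
  -- step (3)
  obtain ⟨V, hV⟩ : ∃ V, V = V1 - P ^ h := ⟨_, rfl⟩
  have hVq : V ^ 2 + V * 1 = -(r - (P ^ h) ^ 2) + (-(P ^ h) + (ε + (-(2 * r * V1) +
      -(2 * V1 * P ^ h)))) := by
    have e1 : V ^ 2 + V * 1 = (V1 ^ 2 + V1 * (1 + 2 * r)) - 2 * r * V1 - 2 * V1 * P ^ h +
        (P ^ h) ^ 2 - P ^ h := by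
      rw [hV]
      ring
    rw [e1, hV1q]
    ring
  have hbig : 1 < t ^ (2 * h - 1) := one_lt_pow₀ ht1 (by omega)
  have hrest : v (-(P ^ h) + (ε + (-(2 * r * V1) + -(2 * V1 * P ^ h)))) < t ^ (2 * h - 1) := by
    apply v.map_add_lt
    · rw [v.map_neg, map_pow, hvP]
      exact pow_lt_pow_right₀ ht1 (by omega)
    · refine lt_trans ?_ hbig
      apply v.map_add_lt hvε
      apply v.map_add_lt
      · rw [v.map_neg, map_mul, map_mul, hvr]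
        calc v (2 : E) * t ^ (2 * h) * v V1 ≤ v (2 : E) * t ^ (2 * h) * t ^ (2 * h) :=
              mul_le_mul_right hV1le _
          _ = v (2 : E) * t ^ (4 * h) := by
              rw [mul_assoc, ← pow_add]
              congr 2
              omega
          _ < 1 := hsm _ (by omega)
      · rw [v.map_neg, map_mul, map_mul, map_pow, hvP]
        calc v (2 : E) * v V1 * t ^ h ≤ v (2 : E) * t ^ (2 * h) * t ^ h :=
              mul_le_mul_left (mul_le_mul_right hV1le _) _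
          _ = v (2 : E) * t ^ (3 * h) := by
              rw [mul_assoc, ← pow_add]
              congr 2
              omega
          _ < 1 := hsm _ (by omega)
  have hvc2 : v (-(r - (P ^ h) ^ 2) + (-(P ^ h) + (ε + (-(2 * r * V1) +
      -(2 * V1 * P ^ h))))) = t ^ (2 * h - 1) := by
    rw [v.map_add_eq_of_lt_left, v.map_neg, hvrθ]
    rw [v.map_neg, hvrθ]
    exact hrest
  obtain ⟨-, hVb⟩ := CrossV_quad v hVq (by rw [map_one]) (by rw [hvc2]; exact hbig)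
  have hfin : (U - 1) / 2 - δ / (y * (y + δ)) - ((δ / y)⁻¹) ^ h = V := by
    rw [hPi, ← hV0, ← hr, ← hV1, ← hV]
  rw [hfin, hVb, hvc2, hPd, hvPi, ← mul_pow, mul_inv_cancel₀ ht0, one_pow]

theorem cross_val {E : Type*} [Field E] [CharZero E] (A : ValuationSubring E)
    (h2 : A.valuation (2 : E) < 1) {g p : ℕ} (hg : 8 ≤ g) (ge : Even g) (hp : p % 2 = 1)
    {y δ U : E} (hy : A.valuation y ^ g = A.valuation (2 : E))
    (hδ : A.valuation δ ^ (g - 1) = A.valuation (2 : E))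
    (hk : A.valuation (y ^ g - δ ^ (g - 1)) ≤ A.valuation (2 : E) * A.valuation y)
    (hU : U ^ 2 = (1 - 4 * (p : E) / y ^ 2) * (1 - 4 * (p : E) / (y + δ) ^ 2)) :
    A.valuation ((U - 1) / 2 - δ / (y * (y + δ)) - ((δ / y)⁻¹) ^ ((g - 2) / 2)) ^ 2 *
      A.valuation (δ / y) ^ (g - 3) = 1 := by
  obtain ⟨h, rfl⟩ : ∃ h, g = 2 * h + 2 := by
    obtain ⟨m, hm⟩ := ge
    exact ⟨m - 1, by omega⟩
  have e1 : 2 * h + 2 - 1 = 2 * h + 1 := by omega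
  have e2 : (2 * h + 2 - 2) / 2 = h := by omega
  have e3 : 2 * h + 2 - 3 = 2 * h - 1 := by omega
  rw [e1] at hδ hk
  rw [e2, e3]
  exact CrossV_aux A.valuation h2 (by omega) hp hy hδ hk hU

end LIF
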