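import Pool.Agent.helper1.XLI.Defs
import Pool.Agent.helper1.LI.Km
import Pool.Agent.helper1.LI.ChiMp

/-!
[XLI-GamG] From `γ` to the polynomial and back.  `g = 2^k`, `K = AlgebraicClosure (ZMod p)`.

* `gamX_good`: `GamX p k γ` ⇒ `Good p g (minpoly γ)`: monic, irreducible, degree `2g`;
  `h0(1) = ∏_{i<2g} (1 - γ^(p^i)) = (1 - γ)^((p^(2g)-1)/(p-1))` (`minpoly_map`), so
  `h0(1)^((p-1)/2) = eta p (2g) (1 - γ) = -1` and `quadraticChar (h0(1)) = -1`
  (`quadraticChar_eq_pow_of_char_ne_two'`).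
* `HX_gamX`: `h ∈ HX p k`, `γ` a root of `h` ⇒ `GamX p k γ` and `minpoly γ = h`.  `h` is monic
  irreducible, so it is the minimal polynomial.  `¬ IsSquare (h.eval 1)` gives
  `(h.eval 1)^((p-1)/2) = -1` (`ZMod.euler_criterion`, `h.eval 1 ≠ 0` as `0` is a square), so
  `eta p (2g) (1 - γ) = -1` as above.  `Z = ∏_{d odd < g} (γ^(p^d) - γ)`: `∏ eta = eta (Z)`
  (`Finset.prod_pow`).  `Z ≠ 0` (otherwise `h ∣ ∏ (X^(p^d) - X) - 0^2`).  `Z^(p^(2g)) = Z`, so
  `Z^((p^(2g)-1)/2) = ±1`; if it is `1` then `Z = w^2` with `w ∈ Km p (2g)`: (choose `w ∈ K` with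
  `w^2 = Z`; `w^(p^(2g)-1) = Z^((p^(2g)-1)/2) = 1`, so `w ∈ Km p (2g)`), and `Km p (2g)` is the field
  `F_p(γ)` (it has `p^(2g)` elements, `card_Km`, and contains the `p^(2g)` elements `s(γ)`,
  `deg s < 2g`), so `w = s(γ)` and `h ∣ ∏ (X^(p^d) - X) - s^2`: contradiction.
* `gamX_HX`: `GamX p k γ` ⇒ `minpoly γ ∈ HX p k`: `h(1)^((p-1)/2) = -1` so `h(1)` is not a square; if
  `h ∣ ∏ (X^(p^d) - X) - s^2` then `Z = s(γ)^2`, `eta (Z) = s(γ)^(p^(2g)-1) ∈ {0, 1}`, but it is `-1`.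
* `HX_card`: the set `HX p k` is finite (monic polynomials of a given degree over a finite field:
  `Mon p (2g)`), and `γ ↦ minpoly γ` maps the filtered set of `count_gam` to `HX p k` with fibres of at
  most `2g` elements (roots of `h`), so `N ≤ 2 * 2^k * ncard`.
-/

set_option autoImplicit false

namespace LIF

open Polynomial

variable {p : ℕ} [Fact p.Prime] {k : ℕ}

/-- Euler criterion with the exponent `(p - 1) / 2` -/
theorem GamG_euler (p2 : p ≠ 2) {a : ZMod p} : a ^ ((p - 1) / 2) = -1 ↔ ¬ IsSquare a := by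
  have hp : p.Prime := Fact.out
  have h2 : p % 2 = 1 := hp.eq_two_or_odd.resolve_left p2
  have h2' := hp.two_le
  have he : (p - 1) / 2 = p / 2 := by omega
  haveI : Fact (2 < p) := ⟨by omega⟩
  have hne : (-1 : ZMod p) ≠ 1 := ZMod.neg_one_ne_one
  rw [he]
  constructor
  · intro h hsq
    have ha : a ≠ 0 := by
      rintro rfl
      rw [zero_pow (by omega)] at h
      have h3 : (1 : ZMod p) = 0 := by linear_combination h
      exact one_ne_zero h3
    rw [(ZMod.euler_criterion p ha).1 hsq] at h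
    exact hne h.symm
  · intro h
    have ha : a ≠ 0 := by
      rintro rfl
      exact h ⟨0, by simp⟩
    rcases ZMod.pow_div_two_eq_neg_one_or_one p ha with h1 | h1
    · exact absurd ((ZMod.euler_criterion p ha).2 h1) h
    · exact h1

theorem GamG_ne (p2 : p ≠ 2) : (1 : AlgebraicClosure (ZMod p)) ≠ -1 := by
  have hp : p.Prime := Fact.out
  have h2 : p % 2 = 1 := hp.eq_two_or_odd.resolve_left p2
  have h2' := hp.two_le
  haveI : Fact (2 < p) := ⟨by omega⟩
  intro h
  apply (ZMod.neg_one_ne_one (n := p))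
  apply (algebraMap (ZMod p) (AlgebraicClosure (ZMod p))).injective
  rw [map_neg, map_one]
  exact h.symm

theorem GamG_exp (p2 : p ≠ 2) (m : ℕ) :
    (∑ i ∈ Finset.range m, p ^ i) * ((p - 1) / 2) = (p ^ m - 1) / 2 := by
  have hp : p.Prime := Fact.out
  have h2 : p % 2 = 1 := hp.eq_two_or_odd.resolve_left p2
  have hgeom : (∑ i ∈ Finset.range m, p ^ i) * (p - 1) = p ^ m - 1 := by
    rw [Nat.geomSum_eq hp.two_le, Nat.div_mul_cancel (Nat.sub_one_dvd_pow_sub_one p m)]
  obtain ⟨t, ht⟩ : ∃ t, p - 1 = 2 * t := ⟨(p - 1) / 2, by omega⟩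
  rw [ht] at hgeom ⊢
  rw [← hgeom, Nat.mul_div_cancel_left _ (by norm_num : 0 < 2),
    show (∑ i ∈ Finset.range m, p ^ i) * (2 * t) = 2 * ((∑ i ∈ Finset.range m, p ^ i) * t) by ring,
    Nat.mul_div_cancel_left _ (by norm_num : 0 < 2)]

/-- the value at `1` of the minimal polynomial -/
theorem GamG_norm (p2 : p ≠ 2) {γ : AlgebraicClosure (ZMod p)} {n : ℕ}
    (hn : (minpoly (ZMod p) γ).natDegree = n) :
    algebraMap (ZMod p) (AlgebraicClosure (ZMod p))
      (((minpoly (ZMod p) γ).eval 1) ^ ((p - 1) / 2)) = eta p n (1 - γ) := by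
  have h1 : algebraMap (ZMod p) (AlgebraicClosure (ZMod p)) ((minpoly (ZMod p) γ).eval 1) =
      (1 - γ) ^ (∑ i ∈ Finset.range n, p ^ i) := by
    have h2 : algebraMap (ZMod p) (AlgebraicClosure (ZMod p)) ((minpoly (ZMod p) γ).eval 1) =
        ((minpoly (ZMod p) γ).map
          (algebraMap (ZMod p) (AlgebraicClosure (ZMod p)))).eval 1 := by
      rw [eval_map, ← map_one (algebraMap (ZMod p) (AlgebraicClosure (ZMod p))), eval₂_at_apply]
    rw [h2, minpoly_map, hn, eval_prod, ← Finset.prod_pow_eq_pow_sum]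
    refine Finset.prod_congr rfl fun i _ => ?_
    rw [eval_sub, eval_X, eval_C, ← Km_phi_apply i (1 - γ), map_sub, map_one, Km_phi_apply]
  rw [map_pow, h1, ← pow_mul, GamG_exp p2]
  rfl

theorem GamG_one (p2 : p ≠ 2) {γ : AlgebraicClosure (ZMod p)} {n : ℕ}
    (hn : (minpoly (ZMod p) γ).natDegree = n) :
    eta p n (1 - γ) = -1 ↔ ¬ IsSquare ((minpoly (ZMod p) γ).eval 1) := by
  rw [← GamG_norm p2 hn, ← GamG_euler p2]
  constructor
  · intro h
    apply (algebraMap (ZMod p) (AlgebraicClosure (ZMod p))).injective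
    rw [h, map_neg, map_one]
  · intro h
    rw [h, map_neg, map_one]

/-- the product polynomial -/
noncomputable def GamG_P (p g : ℕ) : (ZMod p)[X] :=
  ∏ d ∈ (Finset.range g).filter (fun d => d % 2 = 1), (X ^ (p ^ d) - X)

theorem GamG_aeval (g : ℕ) (γ : AlgebraicClosure (ZMod p)) :
    aeval γ (GamG_P p g) = ∏ d ∈ odds g, (γ ^ (p ^ d) - γ) := by
  unfold GamG_P
  rw [map_prod]
  refine Finset.prod_congr rfl fun d _ => ?_
  rw [map_sub, map_pow, aeval_X]

theorem GamG_eta (g n : ℕ) (γ : AlgebraicClosure (ZMod p)) :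
    ∏ d ∈ odds g, eta p n (γ ^ (p ^ d) - γ) = eta p n (aeval γ (GamG_P p g)) := by
  rw [GamG_aeval]
  unfold eta
  rw [Finset.prod_pow]

theorem GamG_fix {γ : AlgebraicClosure (ZMod p)} {n : ℕ} (h : γ ^ (p ^ n) = γ)
    (s : (ZMod p)[X]) : (aeval γ s) ^ (p ^ n) = aeval γ s := by
  rw [← Km_phi_apply, ← aeval_algHom_apply, Km_phi_apply, h]

theorem GamG_even (p2 : p ≠ 2) (n : ℕ) : 2 * ((p ^ n - 1) / 2) = p ^ n - 1 := by
  have hp : p.Prime := Fact.out
  have h2 : p % 2 = 1 := hp.eq_two_or_odd.resolve_left p2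
  have h3 : p ^ n % 2 = 1 := by
    simp [Nat.pow_mod, h2]
  omega

theorem GamG_pow_sub {x : AlgebraicClosure (ZMod p)} {n : ℕ} (hx : x ≠ 0)
    (h : x ^ (p ^ n) = x) : x ^ (p ^ n - 1) = 1 := by
  have hp : p.Prime := Fact.out
  have h1 : x ^ (p ^ n - 1) * x = 1 * x := by
    rw [← pow_succ, Nat.sub_add_cancel (Nat.one_le_pow _ _ hp.pos), h, one_mul]
  exact mul_right_cancel₀ hx h1

/-- the fixed field of the `n`-th power of Frobenius is generated by `γ` -/
theorem GamG_gen {γ : AlgebraicClosure (ZMod p)} {n : ℕ} (hn1 : 1 ≤ n)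
    (hn : (minpoly (ZMod p) γ).natDegree = n) {w : AlgebraicClosure (ZMod p)}
    (hw : w ^ (p ^ n) = w) : ∃ s : (ZMod p)[X], aeval γ s = w := by
  have hγ : γ ^ (p ^ n) = γ := by
    rw [← hn]
    exact Km_pow_deg γ
  have hfd := IntermediateField.adjoin.finiteDimensional (Km_int γ)
  have hfin : Finite (IntermediateField.adjoin (ZMod p) {γ}) := Module.finite_of_finite (ZMod p)
  have hmem : w ∈ IntermediateField.adjoin (ZMod p) {γ} := by
    have hsub : ((IntermediateField.adjoin (ZMod p) {γ} : Set (AlgebraicClosure (ZMod p)))) ⊆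
        (Km p n : Set (AlgebraicClosure (ZMod p))) := by
      intro y hy
      exact Finset.mem_coe.2 ((mem_Km hn1).2 (Km_fix_adjoin hγ hy))
    have hcard : (Km p n : Set (AlgebraicClosure (ZMod p))).ncard ≤
        ((IntermediateField.adjoin (ZMod p) {γ} : Set (AlgebraicClosure (ZMod p)))).ncard := by
      rw [Set.ncard_coe_finset, card_Km hn1, ← Nat.card_coe_set_eq]
      have h1 := Km_card_adjoin γ
      rw [hn] at h1
      exact h1.ge
    have heq := Set.eq_of_subset_of_ncard_le hsub hcard (Finset.finite_toSet _)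
    have hw' : w ∈ (Km p n : Set (AlgebraicClosure (ZMod p))) :=
      Finset.mem_coe.2 ((mem_Km hn1).2 hw)
    rw [← heq] at hw'
    exact hw'
  have hmem2 : w ∈ (IntermediateField.adjoin (ZMod p) {γ}).toSubalgebra := hmem
  rw [IntermediateField.adjoin_simple_toSubalgebra_of_isAlgebraic (Km_int γ).isAlgebraic,
    Algebra.adjoin_singleton_eq_range_aeval] at hmem2
  obtain ⟨s, hs⟩ := hmem2
  exact ⟨s, hs⟩

/-- squares modulo the minimal polynomial -/
theorem GamG_sq (p2 : p ≠ 2) {γ : AlgebraicClosure (ZMod p)} {n : ℕ} (hn1 : 1 ≤ n)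
    (hn : (minpoly (ZMod p) γ).natDegree = n) (P : (ZMod p)[X]) :
    eta p n (aeval γ P) = -1 ↔ ∀ s : (ZMod p)[X], ¬ minpoly (ZMod p) γ ∣ P - s ^ 2 := by
  have hp : p.Prime := Fact.out
  have hγ : γ ^ (p ^ n) = γ := by
    rw [← hn]
    exact Km_pow_deg γ
  have heven := GamG_even p2 n
  have hpn : 2 ≤ p ^ n := hp.two_le.trans (Nat.le_self_pow (by omega) p)
  have hP := GamG_fix hγ P
  have key : (∃ s : (ZMod p)[X], minpoly (ZMod p) γ ∣ P - s ^ 2) ↔
      ∃ w : AlgebraicClosure (ZMod p), w ^ (p ^ n) = w ∧ w ^ 2 = aeval γ P := by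
    constructor
    · rintro ⟨s, hs⟩
      refine ⟨aeval γ s, GamG_fix hγ s, ?_⟩
      have h1 := (minpoly.dvd_iff (x := γ)).1 hs
      rw [map_sub, map_pow, sub_eq_zero] at h1
      exact h1.symm
    · rintro ⟨w, hw1, hw2⟩
      obtain ⟨s, rfl⟩ := GamG_gen hn1 hn hw1
      refine ⟨s, minpoly.dvd _ _ ?_⟩
      rw [map_sub, map_pow, hw2, sub_self]
  rw [← not_exists, key]
  constructor
  · rintro h ⟨w, hw1, hw2⟩
    rw [← hw2] at h
    unfold eta at h
    rw [← pow_mul, heven] at h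
    by_cases hw0 : w = 0
    · rw [hw0, zero_pow (by omega)] at h
      have h3 : (1 : AlgebraicClosure (ZMod p)) = 0 := by linear_combination h
      exact one_ne_zero h3
    · rw [GamG_pow_sub hw0 hw1] at h
      exact GamG_ne p2 h
  · intro h
    have hP0 : aeval γ P ≠ 0 := by
      intro h0
      exact h ⟨0, zero_pow (by omega), by rw [h0]; ring⟩
    have h1 : (eta p n (aeval γ P)) ^ 2 = 1 := by
      unfold eta
      rw [← pow_mul, mul_comm, heven, GamG_pow_sub hP0 hP]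
    rcases (sq_eq_one_iff (a := eta p n (aeval γ P))).1 h1 with h2 | h2
    · exfalso
      obtain ⟨w, hw⟩ := IsAlgClosed.exists_pow_nat_eq (aeval γ P) (n := 2) (by norm_num)
      apply h
      refine ⟨w, ?_, hw⟩
      have h3 : w ^ (p ^ n - 1) = 1 := by
        rw [← heven, pow_mul, hw]
        exact h2
      have h4 : p ^ n = (p ^ n - 1) + 1 := by omega
      rw [h4, pow_succ, h3, one_mul]
    · exact h2

theorem gamX_good (p2 : p ≠ 2) {γ : AlgebraicClosure (ZMod p)} (h : GamX p k γ) :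
    Good p (2 ^ k) (minpoly (ZMod p) γ) := by
  have hsq := (GamG_one p2 h.deg).1 h.one
  refine ⟨p2, Nat.one_le_two_pow, minpoly.monic (Km_int γ), minpoly.irreducible (Km_int γ),
    h.deg, ?_⟩
  exact quadraticChar_neg_one_iff_not_isSquare.2 hsq

theorem HX_gamX (p2 : p ≠ 2) {h : (ZMod p)[X]} (hh : h ∈ HX p k)
    {γ : AlgebraicClosure (ZMod p)} (hγ : aeval γ h = 0) :
    GamX p k γ ∧ minpoly (ZMod p) γ = h := by
  obtain ⟨h1, h2, h3, h4, h5⟩ := hh
  have hmin : minpoly (ZMod p) γ = h := (minpoly.eq_of_irreducible_of_monic h2 hγ h1).symm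
  have hn1 : 1 ≤ 2 * 2 ^ k := by
    have := Nat.one_le_two_pow (n := k)
    omega
  refine ⟨⟨?_, ?_, ?_⟩, hmin⟩
  · rw [hmin, h3]
  · apply (GamG_one p2 (by rw [hmin, h3])).2
    rw [hmin]
    exact h4
  · rw [GamG_eta]
    apply (GamG_sq p2 hn1 (by rw [hmin, h3]) _).2
    rw [hmin]
    exact h5

theorem gamX_HX (p2 : p ≠ 2) {γ : AlgebraicClosure (ZMod p)} (h : GamX p k γ) :
    minpoly (ZMod p) γ ∈ HX p k := by
  have hn1 : 1 ≤ 2 * 2 ^ k := by
    have := Nat.one_le_two_pow (n := k)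
    omega
  refine ⟨minpoly.monic (Km_int γ), minpoly.irreducible (Km_int γ), h.deg,
    (GamG_one p2 h.deg).1 h.one, ?_⟩
  have h1 := h.prod
  rw [GamG_eta] at h1
  exact (GamG_sq p2 hn1 h.deg _).1 h1

open scoped Classical in
theorem HX_card (p2 : p ≠ 2) :
    (HX p k).Finite ∧ ((Km p (2 * 2 ^ k)).filter (fun x => GamX p k x)).card ≤
      2 * 2 ^ k * (HX p k).ncard := by
  have hn1 : 1 ≤ 2 * 2 ^ k := by
    have := Nat.one_le_two_pow (n := k)
    omega
  have himage : HX p k = (((Km p (2 * 2 ^ k)).filter (fun x => GamX p k x)).image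
      (fun x => minpoly (ZMod p) x) : Set (ZMod p)[X]) := by
    ext h
    rw [Finset.coe_image, Set.mem_image]
    constructor
    · intro hh
      have hdeg : h.degree ≠ 0 := by
        rw [degree_eq_natDegree hh.1.ne_zero, hh.2.2.1]
        norm_cast
        omega
      obtain ⟨γ, hγ⟩ := IsAlgClosed.exists_aeval_eq_zero (AlgebraicClosure (ZMod p)) h hdeg
      obtain ⟨hG, hmin⟩ := HX_gamX p2 hh hγ
      refine ⟨γ, ?_, hmin⟩
      rw [Finset.mem_coe, Finset.mem_filter]
      refine ⟨(mem_Km_iff_dvd hn1).2 ?_, hG⟩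
      rw [hG.deg]
    · rintro ⟨γ, hγ, rfl⟩
      rw [Finset.mem_coe, Finset.mem_filter] at hγ
      exact gamX_HX p2 hγ.2
  refine ⟨?_, ?_⟩
  · rw [himage]
    exact Finset.finite_toSet _
  · rw [himage, Set.ncard_coe_finset]
    apply Finset.card_le_mul_card_image
    intro h hh
    obtain ⟨γ, hγ, hγh⟩ := Finset.mem_image.1 hh
    have hG := (Finset.mem_filter.1 hγ).2
    have hne : h.map (algebraMap (ZMod p) (AlgebraicClosure (ZMod p))) ≠ 0 := by
      rw [Polynomial.map_ne_zero_iff (algebraMap (ZMod p) (AlgebraicClosure (ZMod p))).injective,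
        ← hγh]
      exact minpoly.ne_zero (Km_int γ)
    have h1 : (((Km p (2 * 2 ^ k)).filter (fun x => GamX p k x)).filter
        (fun x => minpoly (ZMod p) x = h)) ⊆
        (h.map (algebraMap (ZMod p) (AlgebraicClosure (ZMod p)))).roots.toFinset := by
      intro x hx
      have hx2 := (Finset.mem_filter.1 hx).2
      rw [Multiset.mem_toFinset, mem_roots hne, IsRoot.def, eval_map_algebraMap, ← hx2]
      exact minpoly.aeval _ _
    refine (Finset.card_le_card h1).trans ((Multiset.toFinset_card_le _).trans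
      ((card_roots' _).trans ?_))
    rw [natDegree_map, ← hγh, hG.deg]

end LIF
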