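import Pool.Agent.helper1.XLI.SumM
import Pool.Agent.helper1.XLI.GamG
import Pool.Agent.helper1.GLI.Data

/-!
[XLI-DataX] The hypotheses `GoodX` for the L-polynomials, the angles and the counting formula
(assembly).
-/

set_option autoImplicit false

namespace LIF

open Polynomial

theorem data_x {p : ℕ} [Fact p.Prime] (p2 : p ≠ 2) {k : ℕ} (hk : 3 ≤ k)
    {γ : AlgebraicClosure (ZMod p)} (hG : GamX p k γ) {h0 : (ZMod p)[X]}
    (hmin : minpoly (ZMod p) γ = h0) :
    GoodX p k (Lp (2 ^ k) (Dp h0)) ∧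
    ∃ θ : Fin (2 ^ k) → ℝ,
    (∀ m : ℕ, 1 ≤ m →
      (Nat.card {z : GaloisField p m × GaloisField p m // z.2 ^ 2 = aeval z.1 (Dp h0)} : ℝ) =
        (p : ℝ) ^ m - ∑ i, 2 * (Real.sqrt p) ^ m * Real.cos (m * θ i)) ∧
    (Lp (2 ^ k) (Dp h0)).map (Int.castRingHom ℂ) =
        ∏ i, ((X - C ((Real.sqrt p : ℂ) * Complex.exp (θ i * Complex.I))) *
          (X - C ((p : ℂ) / ((Real.sqrt p : ℂ) * Complex.exp (θ i * Complex.I))))) := by
  have hg : Good p (2 ^ k) h0 := by
    rw [← hmin]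
    exact gamX_good p2 hG
  have hγ : aeval γ h0 = 0 := by
    rw [← hmin]
    exact minpoly.aeval _ _
  have hprod := hG.prod
  set g := 2 ^ k with hgdef
  have g8 : 8 ≤ g := by
    rw [hgdef]
    calc 8 = 2 ^ 3 := by norm_num
      _ ≤ 2 ^ k := Nat.pow_le_pow_right (by norm_num) hk
  have g4 : 4 ∣ g := by
    obtain ⟨m, rfl⟩ := Nat.exists_eq_add_of_le hk
    exact ⟨2 ^ (1 + m), by rw [hgdef, show 3 + m = 2 + (1 + m) by omega, pow_add]; norm_num⟩
  have ge : Even g := by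
    obtain ⟨t, ht⟩ := g4
    exact ⟨2 * t, by omega⟩
  have g2 : 2 ≤ g := by omega
  set f := Lp g (Dp h0) with hf
  have hirr := Lp_irreducible hg
  obtain ⟨θ, hmono, hrange, hfac⟩ := angles (p := p) g2 (f := f) (Lp_monic _)
    (Lp_natDegree _) hirr (rh hg)
  have hp := (Fact.out : p.Prime)
  have hc : ∀ j ≤ 2 * g, f.coeff j = Sd (Dp h0) (2 * g - j) := by
    intro j hj
    rw [hf, Lp_coeff _ hj]
  have hsq : (Real.sqrt p : ℂ) ≠ 0 := by
    have hp0 : (0 : ℝ) < p := by exact_mod_cast hp.pos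
    exact_mod_cast (Real.sqrt_pos.2 hp0).ne'
  have hS2g : Sd (Dp h0) (2 * g) = (p : ℤ) ^ g := by
    have h1 := Data_const (p := p) (f := f)
      (α := fun i => (Real.sqrt p : ℂ) * Complex.exp (θ i * Complex.I))
      (fun i => mul_ne_zero hsq (Complex.exp_ne_zero _)) hfac
    rw [hc 0 (by omega)] at h1
    simpa using h1
  have hfe : ∀ d ≤ g, Sd (Dp h0) (2 * g - d) = (p : ℤ) ^ (g - d) * Sd (Dp h0) d := by
    intro d hd
    have h2 := Sd_fe hg (d := d) (by omega)
    rw [hS2g] at h2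
    have h3 : (p : ℤ) ^ d * Sd (Dp h0) (2 * g - d) =
        (p : ℤ) ^ d * ((p : ℤ) ^ (g - d) * Sd (Dp h0) d) := by
      rw [← mul_assoc, ← pow_add, Nat.add_sub_cancel' hd]
      exact h2.symm
    have hp0 : (p : ℤ) ^ d ≠ 0 := pow_ne_zero _ (by exact_mod_cast hp.ne_zero)
    exact mul_left_cancel₀ hp0 h3
  refine ⟨?_, θ, ?_, hfac⟩
  · refine ⟨⟨by omega, ?_, Lp_monic _, Lp_natDegree _, hirr, ?_⟩, hk, ?_, ?_, ?_⟩
    · have := hp.odd_of_ne_two p2
      exact Nat.odd_iff.1 this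
    · intro d hd
      rw [hc d (by omega), hc (2 * g - d) (by omega), hfe d hd]
      congr 2
      omega
    · intro j h1 h2
      rw [hc j (by omega)]
      exact even_iff_two_dvd.1 (Sd_even hg (by omega) (by omega))
    · rw [hc g (by omega), show 2 * g - g = g by omega]
      exact Sd_mid hg ge hfe
    · have e : ∑ d ∈ oddsB g, f.coeff (2 * g - d) = ∑ d ∈ odds g, Sd (Dp h0) d := by
        refine Finset.sum_congr rfl fun d hd => ?_
        have h1 := Finset.mem_range.1 (Finset.mem_filter.1 hd).1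
        rw [hc _ (by omega)]
        congr 1
        omega
      rw [e]
      exact sum_odds_mod4 hg g4 hγ hprod
  · intro m hm
    have h1 := card_points hg.p2 (Dp h0) hm
    have h2 := am_eq_roots hg hm
    rw [angles_sum θ hfac m] at h2
    have h3 : ((am (Dp h0) m : ℤ) : ℝ) =
        - ∑ i, 2 * (Real.sqrt p) ^ m * Real.cos (m * θ i) := by
      exact_mod_cast h2
    have h5 : (Nat.card {z : GaloisField p m × GaloisField p m //
        z.2 ^ 2 = aeval z.1 (Dp h0)} : ℝ) = (p : ℝ) ^ m + (am (Dp h0) m : ℤ) := by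
      have h6 : ((Nat.card {z : GaloisField p m × GaloisField p m //
        z.2 ^ 2 = aeval z.1 (Dp h0)} : ℤ) : ℝ) = (p : ℝ) ^ m + (am (Dp h0) m : ℤ) := by
        rw [h1]; push_cast; ring
      rw [← h6]; push_cast; rfl
    rw [h5, h3]; ring

end LIF
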