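import Pool.Agent.helper1.GLI.Defs
import Pool.Agent.helper1.GLI.DefsC

/-!
helper1: project XLI (MP_0ec205_nt): grand linear independence over EVERY finite field of odd
characteristic.

`p` an odd prime, `g = 2^k`, `k ≥ 3`, `h0` monic irreducible of degree `2g` over `F_p` with `h0(1)` a
non-square, `γ` a root of `h0`, such that `∏_{d odd < g} (γ^(p^d) - γ)` is a non-square in
`F_p(γ) = F_(p^(2g))`.  The curve is `y² = (1 - x) h0(x)`.
-/

set_option autoImplicit false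

namespace LIF

open Polynomial

/-- (for the integral polynomial `f`, the reversed L-polynomial): monic of degree `2g`, irreducible,
functional equation -/
structure BaseF (p k : ℕ) (f : ℤ[X]) : Prop where
  k1 : 1 ≤ k
  podd : p % 2 = 1
  mon : f.Monic
  deg : f.natDegree = 2 * 2 ^ k
  irr : Irreducible (f.map (Int.castRingHom ℚ))
  /-- functional equation `S_(2g-d) = p^(g-d) S_d` -/
  fe : ∀ d ≤ 2 ^ k, f.coeff d = (p : ℤ) ^ (2 ^ k - d) * f.coeff (2 * 2 ^ k - d)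

/-- the hypotheses on the reversed L-polynomial `f`, `S_d = f.coeff (2g - d)` -/
structure GoodX (p k : ℕ) (f : ℤ[X]) : Prop extends BaseF p k f where
  k3 : 3 ≤ k
  /-- `S_d` is even, `0 < d < 2g` -/
  even : ∀ j, 1 ≤ j → j < 2 * 2 ^ k → (2 : ℤ) ∣ f.coeff j
  /-- `4 ∣ S_g` -/
  midc : (4 : ℤ) ∣ f.coeff (2 ^ k)
  /-- `∑_{d odd < g} S_d ≡ 2 (mod 4)` -/
  sum4 : (4 : ℤ) ∣ (∑ d ∈ oddsB (2 ^ k), f.coeff (2 * 2 ^ k - d)) - 2

/-- the congruences satisfied by the real polynomial `R` -/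
structure XCond (k : ℕ) (R : ℤ[X]) : Prop where
  mon : R.Monic
  deg : R.natDegree = 2 ^ k
  c0 : R.coeff 0 % 4 = 2
  c1 : R.coeff 1 % 4 = 2
  c2 : ∀ i, 1 ≤ i → i < 2 ^ k → (2 : ℤ) ∣ R.coeff i

/-- the `2`-adic valuations of the roots `a_i, p/a_i` of `f` (`A` a valuation ring above `2`),
`y_i = a_i + p/a_i` -/
structure TwoX {E : Type*} [Field E] (p k : ℕ) (A : ValuationSubring E) (a : Fin (2 ^ k) → E) :
    Prop where
  h2 : A.valuation (2 : E) < 1
  vy : ∀ i, A.valuation (a i + (p : E) / a i) ^ (2 ^ k) = A.valuation (2 : E)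
  al : ∀ i, A.valuation (a i - 1) ^ (2 * 2 ^ k) = A.valuation (2 : E)
  al' : ∀ i, A.valuation ((p : E) / a i - 1) ^ (2 * 2 ^ k) = A.valuation (2 : E)
  di : ∀ i j, j ≠ i → A.valuation ((a j + (p : E) / a j) - (a i + (p : E) / a i)) ^ (2 ^ k - 1) =
    A.valuation (2 : E)
  /-- `y_i^g ≡ (y_j - y_i)^(g-1)` modulo `2 y_i` -/
  ka : ∀ i j, j ≠ i → A.valuation ((a i + (p : E) / a i) ^ (2 ^ k) -
      ((a j + (p : E) / a j) - (a i + (p : E) / a i)) ^ (2 ^ k - 1)) ≤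
    A.valuation (2 : E) * A.valuation (a i + (p : E) / a i)

/-- `(X^(p^d) - X) / (X^p - X)`, `d ≥ 1` -/
noncomputable def EP (p d : ℕ) [Fact p.Prime] : (ZMod p)[X] :=
  ∑ j ∈ Finset.range ((p ^ d - 1) / (p - 1)), X ^ ((p - 1) * j)

/-- the product of the `EP p d` over the odd `d < g` -/
noncomputable def DP (p g : ℕ) [Fact p.Prime] : (ZMod p)[X] :=
  ∏ d ∈ odds g, EP p d

/-- hypotheses on a polynomial `D` for the general Weil bound: an irreducible factor of odd degree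
occurs exactly once -/
structure OddF (p : ℕ) [Fact p.Prime] (D : (ZMod p)[X]) : Prop where
  c0 : D.coeff 0 ≠ 0
  ex : ∃ P D' : (ZMod p)[X], P.Monic ∧ Irreducible P ∧ Odd P.natDegree ∧ D = P * D' ∧ ¬ P ∣ D'

/-- the element `γ` -/
structure GamX (p k : ℕ) [Fact p.Prime] (γ : AlgebraicClosure (ZMod p)) : Prop where
  deg : (minpoly (ZMod p) γ).natDegree = 2 * 2 ^ k
  one : eta p (2 * 2 ^ k) (1 - γ) = -1
  prod : ∏ d ∈ odds (2 ^ k), eta p (2 * 2 ^ k) (γ ^ (p ^ d) - γ) = -1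

/-- the reversed polynomial `X^(n-1) + S_1 X^(n-2) + ... + S_(n-1)` -/
noncomputable def LpX {p : ℕ} [Fact p.Prime] (n : ℕ) (D : (ZMod p)[X]) : ℤ[X] :=
  ∑ d ∈ Finset.range n, C (Sd D d) * X ^ (n - 1 - d)

/-- the set of the polynomials `h`: monic, irreducible, of degree `2^(k+1)`, `h(1)` not a square,
and `∏_{d odd < 2^k} (X^(p^d) - X)` not a square modulo `h` -/
def HX (p k : ℕ) : Set (ZMod p)[X] :=
  {h | h.Monic ∧ Irreducible h ∧ h.natDegree = 2 * 2 ^ k ∧ ¬ IsSquare (h.eval 1) ∧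
    ∀ s : (ZMod p)[X],
      ¬ h ∣ (∏ d ∈ (Finset.range (2 ^ k)).filter (fun d => d % 2 = 1),
        (X ^ (p ^ d) - X)) - s ^ 2}

end LIF
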