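import Pool.Agent.helper1.XLI.Defs
import Pool.Agent.helper1.LI.Km

/-!
[XLI-EPp] The polynomials `EP p d = (X^(p^d) - X)/(X^p - X)` and `DP p g = ∏_{d odd < g} EP p d`.

* `EP_mul`: `EP p d * (X^p - X) = X^(p^d) - X` for `d ≥ 1`: geometric sum, with
  `N = (p^d - 1)/(p - 1)`: `(∑_{j<N} Y^j)(Y - 1) = Y^N - 1`, `Y = X^(p-1)`, `(p-1) N = p^d - 1`
  (`Nat.sub_one_dvd...`/`Nat.geomSum`; `nat_sub_dvd_pow_sub_pow`), multiply by `X`.
* `EP_monic_deg`: monic of degree `p^d - p`; `DP_monic`; `DP_coeff_zero`: the constant coefficient of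
  `EP` (`N ≥ 1`) and of `DP` is `1`.
* `DP_degree`: `deg DP = ∑_{d odd < g} (p^d - p)`, and `(p^2 - 1) ∑_{d odd < g} p^d = p (p^g - 1)` for
  even `g` (induction `g → g + 2`), so `deg DP * (p^2 - 1) ≤ p * p^g`.
* `DP_oddF`: `g ≥ 4` even.  Put `e = g - 1 ≥ 3`, odd.  There is `ξ ∈ K = AlgebraicClosure (ZMod p)` of
  degree exactly `e` (e.g. because `∑_{d odd ≤ e - 2} p^d < p^e`: some element of `Km p e` is in none of
  the `Km p d`, `d` odd `< e`; its degree divides `e` (`mem_Km_iff_dvd`), so it is odd and not `< e`).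
  `P = minpoly ξ`, monic irreducible of degree `e`, odd.  `ξ^(p^e) = ξ`, `ξ^p ≠ ξ`, so `EP p e (ξ) = 0`
  and `P ∣ EP p e`, a simple root: `X^(p^e) - X` is separable.  For odd `d < e`: `e ∤ d`, so
  `ξ^(p^d) ≠ ξ` and `P ∤ EP p d`.  So `P` divides `DP p g` exactly once.  `P ≠ X - 1` (degree), so the
  same holds for `(1 - X) * DP p g`.  The constant coefficients are `1`.
* `DP_ne_zero`: `g = 2^k`, `x ∈ Km p (2g)`, `d` odd: `EP p d (x) ≠ 0`.  If `x^p ≠ x`: otherwise
  `x^(p^d) = x`, so the degree of `x` divides `d` and `2g = 2^(k+1)`, so it is `1`, `x^p = x`.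
  If `x^p = x`, `x ≠ 0`: `x^(p-1) = 1`, `EP p d (x) = N = 1` in `F_p` (`N = 1 + p + ... + p^(d-1)`); if
  `x = 0`: `EP p d (0) = 1`.
* `DP_eta`: `4 ∣ g`, `x ∈ Km p (2g)`, `x^p ≠ x`: `∏_{d odd < g} (x^(p^d) - x) = DP(x) (x^p - x)^(g/2)`
  (`g/2` odd numbers below `g`), `η_(2g)` is multiplicative (`eta` is a power), `η(x^p - x) = ±1`
  (`y ≠ 0`, `y^(p^(2g)) = y`) and `g/2` is even.
-/

set_option autoImplicit false

namespace LIF

open Polynomial

variable {p : ℕ} [Fact p.Prime]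

private theorem EPp_one_lt : 1 < p := (Fact.out : p.Prime).one_lt

private theorem EPp_N_mul (d : ℕ) : (p - 1) * ((p ^ d - 1) / (p - 1)) = p ^ d - 1 := by
  apply Nat.mul_div_cancel'
  simpa using Nat.sub_dvd_pow_sub_pow p 1 d

private theorem EPp_N_pos {d : ℕ} (hd : 1 ≤ d) : 1 ≤ (p ^ d - 1) / (p - 1) := by
  have h1 : 1 < p := EPp_one_lt
  have h2 : p ^ 1 ≤ p ^ d := Nat.pow_le_pow_right (by omega) hd
  rw [pow_one] at h2
  rw [Nat.le_div_iff_mul_le (by omega)]
  omega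

theorem EP_mul {d : ℕ} (hd : 1 ≤ d) : EP p d * (X ^ p - X) = X ^ (p ^ d) - X := by
  have h1 : 1 < p := EPp_one_lt
  have hpd : 1 ≤ p ^ d := Nat.one_le_pow _ _ (by omega)
  have e1 : EP p d = ∑ j ∈ Finset.range ((p ^ d - 1) / (p - 1)), (X ^ (p - 1) : (ZMod p)[X]) ^ j := by
    unfold EP
    exact Finset.sum_congr rfl fun j _ => pow_mul _ _ _
  have e2 : (X ^ p - X : (ZMod p)[X]) = (X ^ (p - 1) - 1) * X := by
    rw [sub_mul, one_mul, ← pow_succ, Nat.sub_add_cancel (by omega)]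
  rw [e1, e2, ← mul_assoc, geom_sum_mul, ← pow_mul, EPp_N_mul, sub_mul, one_mul, ← pow_succ,
    Nat.sub_add_cancel hpd]

private theorem EPp_monic_X {n : ℕ} (hn : 1 < n) : (X ^ n - X : (ZMod p)[X]).Monic := by
  apply monic_X_pow_sub
  rw [degree_X]
  exact_mod_cast hn

private theorem EPp_deg_X {n : ℕ} (hn : 1 < n) : (X ^ n - X : (ZMod p)[X]).natDegree = n :=
  FiniteField.X_pow_card_sub_X_natDegree_eq _ hn

private theorem EPp_one_lt_pow {d : ℕ} (hd : 1 ≤ d) : 1 < p ^ d :=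
  Nat.one_lt_pow (by omega) EPp_one_lt

private theorem EPp_monic {d : ℕ} (hd : 1 ≤ d) : (EP p d).Monic := by
  have h1 : 1 < p := EPp_one_lt
  apply Monic.of_mul_monic_right (EPp_monic_X h1)
  rw [EP_mul hd]
  exact EPp_monic_X (EPp_one_lt_pow hd)

private theorem EPp_deg {d : ℕ} (hd : 1 ≤ d) : (EP p d).natDegree ≤ p ^ d := by
  have h1 : 1 < p := EPp_one_lt
  have h2 : (EP p d * (X ^ p - X)).natDegree =
      (EP p d).natDegree + (X ^ p - X : (ZMod p)[X]).natDegree :=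
    (EPp_monic hd).natDegree_mul (EPp_monic_X h1)
  rw [EP_mul hd, EPp_deg_X (EPp_one_lt_pow hd), EPp_deg_X h1] at h2
  omega

private theorem EPp_odds {g d : ℕ} (hd : d ∈ odds g) : d < g ∧ d % 2 = 1 ∧ 1 ≤ d := by
  unfold odds at hd
  rw [Finset.mem_filter, Finset.mem_range] at hd
  exact ⟨hd.1, hd.2, by omega⟩

private theorem EPp_odds_iff {g d : ℕ} : d ∈ odds g ↔ d < g ∧ d % 2 = 1 := by
  unfold odds
  rw [Finset.mem_filter, Finset.mem_range]

theorem DP_monic (g : ℕ) : (DP p g).Monic :=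
  monic_prod_of_monic _ _ fun _ hd => EPp_monic (EPp_odds hd).2.2

private theorem EPp_coeff {d : ℕ} (hd : 1 ≤ d) : (EP p d).coeff 0 = 1 := by
  have h1 : 1 < p := EPp_one_lt
  have hN := EPp_N_pos (p := p) hd
  rw [coeff_zero_eq_eval_zero]
  unfold EP
  rw [eval_finsetSum, Finset.sum_eq_single 0]
  · simp
  · intro j _ hj
    rw [eval_pow, eval_X]
    apply zero_pow
    exact Nat.mul_ne_zero (by omega) hj
  · intro h
    exact absurd (Finset.mem_range.2 hN) h

theorem DP_coeff_zero (g : ℕ) : (DP p g).coeff 0 = 1 := by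
  unfold DP
  rw [coeff_zero_eq_eval_zero, eval_prod]
  apply Finset.prod_eq_one
  intro d hd
  rw [← coeff_zero_eq_eval_zero]
  exact EPp_coeff (EPp_odds hd).2.2

private theorem EPp_sum_succ (f : ℕ → ℕ) (m : ℕ) :
    ∑ d ∈ odds (2 * (m + 1)), f d = ∑ d ∈ odds (2 * m), f d + f (2 * m + 1) := by
  unfold odds
  have e : 2 * (m + 1) = 2 * m + 1 + 1 := by ring
  rw [e, Finset.sum_filter, Finset.sum_filter, Finset.sum_range_succ, Finset.sum_range_succ]
  have h1 : ¬ (2 * m % 2 = 1) := by omega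
  have h2 : (2 * m + 1) % 2 = 1 := by omega
  rw [if_neg h1, if_pos h2, add_zero]

private theorem EPp_sum (m : ℕ) :
    (∑ d ∈ odds (2 * m), p ^ d) * (p ^ 2 - 1) + p = p * p ^ (2 * m) := by
  have h1 : 1 < p := EPp_one_lt
  have h2 : 1 ≤ p ^ 2 := Nat.one_le_pow _ _ (by omega)
  induction m with
  | zero =>
    have : odds (2 * 0) = ∅ := by
      unfold odds
      simp
    rw [this]
    simp
  | succ m ih =>
    rw [EPp_sum_succ, add_mul, add_assoc, add_comm (p ^ (2 * m + 1) * _) p, ← add_assoc, ih]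
    have e1 : p ^ (2 * m + 1) * (p ^ 2 - 1) + p ^ (2 * m + 1) = p ^ (2 * m + 1) * p ^ 2 := by
      rw [← Nat.mul_succ, Nat.succ_eq_add_one, Nat.sub_add_cancel h2]
    have e2 : p * p ^ (2 * m) = p ^ (2 * m + 1) := by ring
    rw [e2, add_comm, e1]
    ring

theorem DP_degree {g : ℕ} (ge : Even g) : (DP p g).natDegree * (p ^ 2 - 1) ≤ p * p ^ g := by
  obtain ⟨m, hm⟩ := ge
  have hg : g = 2 * m := by omega
  subst hg
  have h1 : (DP p (2 * m)).natDegree ≤ ∑ d ∈ odds (2 * m), p ^ d := by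
    unfold DP
    rw [natDegree_prod_of_monic _ _ fun _ hd => EPp_monic (EPp_odds hd).2.2]
    exact Finset.sum_le_sum fun d hd => EPp_deg (EPp_odds hd).2.2
  calc (DP p (2 * m)).natDegree * (p ^ 2 - 1)
      ≤ (∑ d ∈ odds (2 * m), p ^ d) * (p ^ 2 - 1) := Nat.mul_le_mul_right _ h1
    _ ≤ (∑ d ∈ odds (2 * m), p ^ d) * (p ^ 2 - 1) + p := Nat.le_add_right _ _
    _ = p * p ^ (2 * m) := EPp_sum m

/-- an element of degree exactly `2 m + 1` -/
private theorem EPp_exists (m : ℕ) : ∃ ξ : AlgebraicClosure (ZMod p),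
    (minpoly (ZMod p) ξ).natDegree = 2 * m + 1 := by
  classical
  by_contra hcon
  push Not at hcon
  have h1 : 1 < p := EPp_one_lt
  have hsub : Km p (2 * m + 1) ⊆ (odds (2 * m)).biUnion fun d => Km p d := by
    intro x hx
    have h2 := (mem_Km_iff_dvd (by omega)).1 hx
    have h3 := Km_deg_pos x
    have h4 := hcon x
    have h5 := Nat.le_of_dvd (by omega) h2
    have h6 : (minpoly (ZMod p) x).natDegree % 2 = 1 := by
      by_contra h7
      have h8 : 2 ∣ (minpoly (ZMod p) x).natDegree := by omega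
      have h9 := h8.trans h2
      omega
    rw [Finset.mem_biUnion]
    refine ⟨(minpoly (ZMod p) x).natDegree, EPp_odds_iff.2 ⟨by omega, h6⟩, ?_⟩
    exact (mem_Km_iff_dvd h3).2 dvd_rfl
  have hc := Finset.card_le_card hsub
  rw [card_Km (by omega)] at hc
  have hc2 : ((odds (2 * m)).biUnion fun d => Km p d).card ≤ ∑ d ∈ odds (2 * m), p ^ d := by
    refine Finset.card_biUnion_le.trans ?_
    exact Finset.sum_le_sum fun d hd => (card_Km (EPp_odds hd).2.2).le
  have hs := EPp_sum (p := p) m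
  have hp2 : 1 ≤ p ^ 2 - 1 := by
    have : 1 < p ^ 2 := EPp_one_lt_pow (by omega)
    omega
  have h3 : ∑ d ∈ odds (2 * m), p ^ d ≤ (∑ d ∈ odds (2 * m), p ^ d) * (p ^ 2 - 1) :=
    Nat.le_mul_of_pos_right _ hp2
  have e2 : p * p ^ (2 * m) = p ^ (2 * m + 1) := by ring
  rw [e2] at hs
  omega

private theorem EPp_aeval {d : ℕ} (hd : 1 ≤ d) (x : AlgebraicClosure (ZMod p)) :
    aeval x (EP p d) * (x ^ p - x) = x ^ (p ^ d) - x := by
  have h := congrArg (aeval x) (EP_mul (p := p) hd)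
  simpa using h

private theorem EPp_fix_one {x : AlgebraicClosure (ZMod p)}
    (h : (minpoly (ZMod p) x).natDegree = 1) : x ^ p = x := by
  have := Km_pow_deg x
  rwa [h, pow_one] at this

theorem DP_oddF (p2 : p ≠ 2) {g : ℕ} (ge : Even g) (hg : 4 ≤ g) :
    OddF p (DP p g) ∧ OddF p ((1 - X) * DP p g) := by
  classical
  have h1 : 1 < p := EPp_one_lt
  obtain ⟨m, hm⟩ := ge
  obtain ⟨ξ, hξ⟩ := EPp_exists (p := p) (m - 1)
  have he : 2 * (m - 1) + 1 = g - 1 := by omega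
  rw [he] at hξ
  have hint := Km_int ξ
  have hPm : (minpoly (ZMod p) ξ).Monic := minpoly.monic hint
  have hPi : Irreducible (minpoly (ZMod p) ξ) := minpoly.irreducible hint
  have hPp : Prime (minpoly (ZMod p) ξ) := hPi.prime
  have hne : ξ ^ p ≠ ξ := by
    intro h
    have := Km_deg_le (p := p) (d := 1) le_rfl (by rw [pow_one]; exact h)
    omega
  have hfix : ξ ^ (p ^ (g - 1)) = ξ := by
    have := Km_pow_deg ξ
    rwa [hξ] at this
  have hdiv : minpoly (ZMod p) ξ ∣ EP p (g - 1) := by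
    apply minpoly.dvd
    have h2 := EPp_aeval (p := p) (d := g - 1) (by omega) ξ
    rw [hfix, sub_self] at h2
    rcases mul_eq_zero.1 h2 with h3 | h3
    · exact h3
    · exact absurd (sub_eq_zero.1 h3) hne
  obtain ⟨D', hD'⟩ := hdiv
  have hD'2 : ¬ minpoly (ZMod p) ξ ∣ D' := by
    intro h
    obtain ⟨E, hE⟩ := h
    have hsep : (X ^ (p ^ (g - 1)) - X : (ZMod p)[X]).Separable :=
      galois_poly_separable p (p ^ (g - 1)) (dvd_pow_self p (by omega))
    have hsq := hsep.squarefree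
    have h2 : minpoly (ZMod p) ξ * minpoly (ZMod p) ξ ∣ (X ^ (p ^ (g - 1)) - X : (ZMod p)[X]) := by
      refine ⟨E * (X ^ p - X), ?_⟩
      rw [← EP_mul (by omega), hD', hE]
      ring
    exact hPi.not_isUnit (hsq _ h2)
  have hnd : ∀ d ∈ (odds g).erase (g - 1), ¬ minpoly (ZMod p) ξ ∣ EP p d := by
    intro d hd h
    rw [Finset.mem_erase] at hd
    obtain ⟨hd1, hd2⟩ := hd
    obtain ⟨hd3, hd4, hd5⟩ := EPp_odds hd2
    have h2 : aeval ξ (EP p d) = 0 := by
      obtain ⟨E, hE⟩ := h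
      rw [hE, map_mul, minpoly.aeval, zero_mul]
    have h3 := EPp_aeval (p := p) hd5 ξ
    rw [h2, zero_mul] at h3
    have h4 := (mem_Km_iff_dvd hd5).1 ((mem_Km hd5).2 (sub_eq_zero.1 h3.symm))
    rw [hξ] at h4
    have := Nat.le_of_dvd (by omega) h4
    omega
  have hmem : g - 1 ∈ odds g := EPp_odds_iff.2 ⟨by omega, by omega⟩
  have hprod : DP p g = minpoly (ZMod p) ξ * (D' * ∏ d ∈ (odds g).erase (g - 1), EP p d) := by
    unfold DP
    rw [← Finset.mul_prod_erase _ _ hmem, hD', mul_assoc]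
  have hnot : ¬ minpoly (ZMod p) ξ ∣ D' * ∏ d ∈ (odds g).erase (g - 1), EP p d := by
    intro h
    rcases hPp.dvd_or_dvd h with h2 | h2
    · exact hD'2 h2
    · obtain ⟨d, hd, h3⟩ := (Prime.dvd_finsetProd_iff hPp _).1 h2
      exact hnd d hd h3
  have hodd : Odd (minpoly (ZMod p) ξ).natDegree := by
    rw [hξ]
    exact ⟨m - 1, he.symm⟩
  refine ⟨⟨?_, _, _, hPm, hPi, hodd, hprod, hnot⟩, ⟨?_, minpoly (ZMod p) ξ,
    (1 - X) * (D' * ∏ d ∈ (odds g).erase (g - 1), EP p d), hPm, hPi, hodd, ?_, ?_⟩⟩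
  · rw [DP_coeff_zero]
    exact one_ne_zero
  · rw [mul_coeff_zero, DP_coeff_zero]
    simp
  · rw [hprod]
    ring
  · intro h
    rcases hPp.dvd_or_dvd h with h2 | h2
    · have h3 : (1 - X : (ZMod p)[X]) ≠ 0 := by
        intro h4
        have h5 := congrArg (fun q : (ZMod p)[X] => q.coeff 0) h4
        simp at h5
      have h4 := natDegree_le_of_dvd h2 h3
      have h5 : (1 - X : (ZMod p)[X]).natDegree ≤ 1 := by
        refine (natDegree_sub_le _ _).trans ?_
        simp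
      omega
    · exact hnot h2

theorem DP_ne_zero (p2 : p ≠ 2) {k : ℕ} {x : AlgebraicClosure (ZMod p)}
    (hx : x ∈ Km p (2 * 2 ^ k)) : aeval x (DP p (2 ^ k)) ≠ 0 := by
  have h1 : 1 < p := EPp_one_lt
  have hk0 : 1 ≤ 2 * 2 ^ k := by
    have := Nat.one_le_two_pow (n := k)
    omega
  unfold DP
  rw [map_prod, Finset.prod_ne_zero_iff]
  intro d hd h0
  obtain ⟨hd1, hd2, hd3⟩ := EPp_odds hd
  by_cases hxp : x ^ p = x
  · have hN := EPp_N_mul (p := p) d
    have hNc : (((p ^ d - 1) / (p - 1) : ℕ) : AlgebraicClosure (ZMod p)) = 1 := by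
      have h2 := congrArg (fun n : ℕ => (n : AlgebraicClosure (ZMod p))) hN
      simp only [Nat.cast_mul] at h2
      rw [Nat.cast_sub (by omega), Nat.cast_sub (Nat.one_le_pow _ _ (by omega))] at h2
      rw [Nat.cast_pow, CharP.cast_eq_zero, zero_pow (by omega)] at h2
      simp only [Nat.cast_one, zero_sub, neg_mul, one_mul, neg_inj] at h2
      exact h2
    by_cases hx0 : x = 0
    · subst hx0
      have h3 : aeval (0 : AlgebraicClosure (ZMod p)) (EP p d) = 1 := by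
        rw [← coeff_zero_eq_aeval_zero', EPp_coeff hd3, map_one]
      rw [h3] at h0
      exact one_ne_zero h0
    · have hx1 : x ^ (p - 1) = 1 := by
        have h3 : x ^ (p - 1) * x = 1 * x := by
          rw [← pow_succ, Nat.sub_add_cancel (by omega), hxp, one_mul]
        exact mul_right_cancel₀ hx0 h3
      unfold EP at h0
      rw [map_sum] at h0
      have h3 : ∀ j ∈ Finset.range ((p ^ d - 1) / (p - 1)),
          aeval x (X ^ ((p - 1) * j) : (ZMod p)[X]) = 1 := by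
        intro j _
        rw [map_pow, aeval_X, pow_mul, hx1, one_pow]
      rw [Finset.sum_congr rfl h3, Finset.sum_const, Finset.card_range, nsmul_eq_mul, mul_one,
        hNc] at h0
      exact one_ne_zero h0
  · have h3 := EPp_aeval (p := p) hd3 x
    rw [h0, zero_mul] at h3
    have h4 := (mem_Km_iff_dvd hd3).1 ((mem_Km hd3).2 (sub_eq_zero.1 h3.symm))
    have h5 := (mem_Km_iff_dvd hk0).1 hx
    have h6 : 2 * 2 ^ k = 2 ^ (k + 1) := by ring
    rw [h6] at h5
    have hco : Nat.Coprime d (2 ^ (k + 1)) := by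
      apply Nat.Coprime.pow_right
      exact Odd.coprime_two_right (Nat.odd_iff.2 hd2)
    have h7 := Nat.dvd_gcd h4 h5
    rw [hco.gcd_eq_one] at h7
    exact hxp (EPp_fix_one (Nat.dvd_one.1 h7))

private theorem EPp_card (m : ℕ) : (odds (2 * m)).card = m := by
  have h := EPp_sum_succ (fun _ => 1)
  induction m with
  | zero =>
    unfold odds
    simp
  | succ m ih =>
    have h2 := h m
    simp only [Finset.sum_const, smul_eq_mul, mul_one] at h2
    omega

theorem DP_eta (p2 : p ≠ 2) {k : ℕ} (hk : 2 ≤ k) {x : AlgebraicClosure (ZMod p)}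
    (hx : x ∈ Km p (2 * 2 ^ k)) (hxp : x ^ p ≠ x) :
    ∏ d ∈ odds (2 ^ k), eta p (2 * 2 ^ k) (x ^ (p ^ d) - x) =
      eta p (2 * 2 ^ k) (aeval x (DP p (2 ^ k))) := by
  have h1 : 1 < p := EPp_one_lt
  have hk0 : 1 ≤ 2 * 2 ^ k := by
    have := Nat.one_le_two_pow (n := k)
    omega
  have hfix := (mem_Km hk0).1 hx
  set y : AlgebraicClosure (ZMod p) := x ^ p - x with hy
  have hy0 : y ≠ 0 := sub_ne_zero.2 hxp
  have hyf : y ^ (p ^ (2 * 2 ^ k)) = y := by
    rw [hy, sub_pow_char_pow, ← pow_mul, mul_comm, pow_mul, hfix]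
  have hy1 : y ^ (p ^ (2 * 2 ^ k) - 1) = 1 := by
    have hpos : 1 ≤ p ^ (2 * 2 ^ k) := Nat.one_le_pow _ _ (by omega)
    have h3 : y ^ (p ^ (2 * 2 ^ k) - 1) * y = 1 * y := by
      rw [← pow_succ, Nat.sub_add_cancel hpos, hyf, one_mul]
    exact mul_right_cancel₀ hy0 h3
  have hpo : p % 2 = 1 := by
    rcases (Fact.out : p.Prime).eq_two_or_odd with h | h
    · exact absurd h p2
    · exact h
  have hev : 2 ∣ p ^ (2 * 2 ^ k) - 1 := by
    have h3 : p ^ (2 * 2 ^ k) % 2 = 1 := by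
      rw [Nat.pow_mod, hpo, one_pow, Nat.one_mod]
    omega
  have heta2 : eta p (2 * 2 ^ k) y ^ 2 = 1 := by
    unfold eta
    rw [← pow_mul, Nat.div_mul_cancel hev, hy1]
  have hmul : ∀ a b : AlgebraicClosure (ZMod p),
      eta p (2 * 2 ^ k) (a * b) = eta p (2 * 2 ^ k) a * eta p (2 * 2 ^ k) b := by
    intro a b
    unfold eta
    exact mul_pow _ _ _
  have h3 : ∀ d ∈ odds (2 ^ k), eta p (2 * 2 ^ k) (x ^ (p ^ d) - x) =
      eta p (2 * 2 ^ k) (aeval x (EP p d)) * eta p (2 * 2 ^ k) y := by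
    intro d hd
    rw [← EPp_aeval (EPp_odds hd).2.2 x, hmul]
  rw [Finset.prod_congr rfl h3, Finset.prod_mul_distrib, Finset.prod_const]
  obtain ⟨j, rfl⟩ := Nat.exists_eq_add_of_le hk
  have hcard : (odds (2 ^ (2 + j))).card = 2 * 2 ^ j := by
    have e : 2 ^ (2 + j) = 2 * (2 * 2 ^ j) := by ring
    rw [e, EPp_card]
  rw [hcard, pow_mul, heta2, one_pow, mul_one]
  unfold DP
  rw [map_prod]
  unfold eta
  rw [Finset.prod_pow]

end LIF
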