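import Pool.Agent.helper1.XLI.XDeg
import Pool.Agent.helper1.XLI.CrossV

/-!
proofs: helper59

[XLI-Flip] All sign flips (imports the stubs `XDeg`, `CrossV`).

`g = 2^k ≥ 8`, `y_i = a_i + p/a_i`, `v` the valuation of `A`, `TwoX`.  For `j ≠ i` there is `σ` with
`σ a_i = a_i`, `σ a_j = p/a_j`.

Proof.  `M = ℚ(y_i, y_j)`, `L = ℚ(a_i, y_j)` (`IntermediateField.adjoin ℚ {...}`); `y_i ∈ L`, so `M ≤ L`.
(1) `a_i ∉ M`, `a_j ∉ M` (`notin_M`): otherwise `x = a_i - 1 ∈ M`, `x ≠ 0`, `v(x)^(g(g-1)) = v(2)^m`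
  (`valm`) and `v(x)^(2g) = v(2)` give `v(2)^(g-1) = v(x)^(2g(g-1)) = v(2)^(2m)`, so `g - 1 = 2m`, but
  `g - 1` is odd.  Same for `a_j` (`TwoX.al` for both).
(2) `cross` : `(a_i - p/a_i) (a_j - p/a_j) ∉ M`.  Suppose it is in `M`.  `y_i y_j ∈ M`, so
  `U = (a_i - p/a_i)(a_j - p/a_j)/(y_i y_j) ∈ M` and
  `U^2 = (y_i^2 - 4p)(y_j^2 - 4p)/(y_i y_j)^2 = (1 - 4p/y_i^2)(1 - 4p/y_j^2)`.  Apply `cross_val` with
  `y = y_i`, `δ = y_j - y_i`: `V = (U-1)/2 - δ/(y (y+δ)) - ((δ/y)⁻¹)^((g-2)/2) ∈ M` has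
  `v(V)^2 v(Π)^(g-3) = 1`, `Π = δ/y`.  `v(Π)^(g(g-1)) = v(2)` (from `vy`, `di`), and `v(V)^(g(g-1)) = v(2)^m`
  (`valm`, `V ≠ 0`).  So `v(2)^(2m + g - 3) = 1`, `2m + g - 3 = 0`, but `g` is even: contradiction.
(3) If `a_j ∉ L`: the minimal polynomial of `a_j` over `L` divides `X^2 - y_j X + p` and is not of degree
  `1`, so it is `X^2 - y_j X + p`, `p/a_j` is a conjugate of `a_j` over `L`, and an automorphism over `L`
  with `a_j ↦ p/a_j` is the required `σ` (`isConjRoot_iff_exists_algEquiv` over `L`, see the proof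
  of `deg_trans` in `GLI/Deg.lean` and of `two_trans` in `GLI/Two.lean`).
(4) If `a_j ∈ L`: we show that `η = (a_i - p/a_i)(a_j - p/a_j)` is fixed by every `τ ∈ Gal(E/M)`, so
  `η ∈ M` (`E/M` is Galois), contradicting (2).  `τ y_i = y_i` so `τ a_i ∈ {a_i, p/a_i}`, the same for
  `a_j`.  If `τ a_i = a_i` then `τ` fixes `L ∋ a_j`, so `τ η = η`.  If `τ a_i = p/a_i`: if also
  `τ a_j = p/a_j` then `τ η = η`.  If `τ a_j = a_j`, then every `τ' ∈ Gal(E/M)` fixes `a_j`: if
  `τ' a_i = a_i` then `τ'` fixes `L`; if `τ' a_i = p/a_i` then `τ⁻¹ τ'` fixes `a_i` and `M`, so `L`, so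
  `a_j`, so `τ' a_j = τ a_j = a_j`.  So `a_j ∈ M`, contradicting (1).
-/

set_option autoImplicit false

namespace LIF

open Polynomial

variable {p k : ℕ} {f : ℤ[X]} {E : Type*} [Field E] [CharZero E] [Algebra ℚ E]
  [IsAlgClosed E] [Algebra.IsAlgebraic ℚ E] [Normal ℚ E]

omit [IsAlgClosed E] [Algebra.IsAlgebraic ℚ E] in
private theorem Flip_conj {E : Type*} [Field E] [CharZero E] [Algebra ℚ E] [Normal ℚ E] (p : ℕ) {b : E}
    (hb : b ≠ 0) (L : IntermediateField ℚ E) (hy : b + (p : E) / b ∈ L) (hbL : b ∉ L) :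
    ∃ ρ : E ≃ₐ[ℚ] E, (∀ x ∈ L, ρ x = x) ∧ ρ b = (p : E) / b := by
  haveI : Normal L E := Normal.tower_top_of_normal ℚ L E
  have hint : IsIntegral L b := Normal.isIntegral inferInstance b
  let y : L := ⟨b + (p : E) / b, hy⟩
  have hyE : algebraMap L E y = b + (p : E) / b := rfl
  let q : L[X] := X ^ 2 - C y * X + C (p : L)
  have hdeg : q.natDegree = 2 := by
    change (X ^ 2 - C y * X + C (p : L)).natDegree = 2
    compute_degree!
  have hmon : q.Monic := by
    change (X ^ 2 - C y * X + C (p : L)).Monic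
    monicity!
  have hev : ∀ x : E, aeval x q = x ^ 2 - (b + (p : E) / b) * x + p := by
    intro x
    change aeval x (X ^ 2 - C y * X + C (p : L)) = _
    rw [map_add, map_sub, map_mul, map_pow, aeval_X, aeval_C, aeval_C, hyE, map_natCast]
  have h1 : aeval b q = 0 := by
    rw [hev]
    field_simp
    ring
  have h2 : aeval ((p : E) / b) q = 0 := by
    rw [hev]
    field_simp
    ring
  have h3 : 2 ≤ (minpoly L b).natDegree := by
    rw [minpoly.two_le_natDegree_iff hint]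
    rintro ⟨z, hz⟩
    apply hbL
    rw [← hz]
    exact z.2
  have h4 : q = minpoly L b := by
    apply Polynomial.eq_of_monic_of_dvd_of_natDegree_le (minpoly.monic hint) hmon
      (minpoly.dvd L b h1)
    rw [hdeg]
    exact h3
  obtain ⟨σ, hσ⟩ := (isConjRoot_of_aeval_eq_zero (K := L) hint (y := (p : E) / b)
    (by rw [← h4]; exact h2)).exists_algEquiv
  refine ⟨σ.symm.restrictScalars ℚ, fun x hx => ?_, ?_⟩
  · exact σ.symm.commutes (⟨x, hx⟩ : L)
  · change σ.symm b = (p : E) / b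
    exact (AlgEquiv.symm_apply_eq σ).2 hσ.symm

omit [IsAlgClosed E] [Algebra.IsAlgebraic ℚ E] [Normal ℚ E] in
private theorem Flip_fix {S : Set E} {τ : E ≃ₐ[ℚ] E} (h : ∀ x ∈ S, τ x = x) :
    ∀ z ∈ IntermediateField.adjoin ℚ S, τ z = z := by
  intro z hz
  induction hz using IntermediateField.adjoin_induction with
  | mem x hx => exact h x hx
  | algebraMap x => exact τ.commutes x
  | add x y _ _ hx hy => rw [map_add, hx, hy]
  | inv x _ hx => rw [map_inv₀, hx]
  | mul x y _ _ hx hy => rw [map_mul, hx, hy]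

omit [IsAlgClosed E] in
private theorem Flip_fixed (M : IntermediateField ℚ E) {x : E}
    (h : ∀ τ : E ≃ₐ[ℚ] E, (∀ z ∈ M, τ z = z) → τ x = x) : x ∈ M := by
  haveI : IsGalois ℚ E := IsGalois.mk
  haveI : IsGalois M E := inferInstance
  obtain ⟨z, hz⟩ := (InfiniteGalois.mem_range_algebraMap_iff_fixed (k := M) x).2
    (fun φ => h (φ.restrictScalars ℚ) (fun z hz => φ.commutes (⟨z, hz⟩ : M)))
  rw [← hz]
  exact z.2

omit [CharZero E] [Algebra ℚ E] [IsAlgClosed E] [Algebra.IsAlgebraic ℚ E] [Normal ℚ E] in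
private theorem Flip_two {x y : E} (hx : x ≠ 0) (hy : y ≠ 0)
    (hxy : x + (p : E) / x = y + (p : E) / y) : x = y ∨ x = (p : E) / y := by
  have h1 : (x - y) * (x - (p : E) / y) = 0 := by
    have h2 : x * (x + (p : E) / x) = x ^ 2 + p := by field_simp
    have h3 : y * ((p : E) / y) = p := by field_simp
    rw [hxy] at h2
    linear_combination -h2 + h3
  rcases mul_eq_zero.1 h1 with h | h
  · exact Or.inl (sub_eq_zero.1 h)
  · exact Or.inr (sub_eq_zero.1 h)

private theorem Flip_v2 (A : ValuationSubring E) (ht2 : A.valuation (2 : E) < 1) {m n : ℤ}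
    (h : A.valuation (2 : E) ^ m = A.valuation (2 : E) ^ n) : m = n := by
  have h0 : A.valuation (2 : E) ≠ 0 := (Valuation.ne_zero_iff _).2 two_ne_zero
  exact zpow_right_injective₀ (zero_lt_iff.2 h0) ht2.ne h

private theorem Flip_odd (h : GoodX p k f) {a : Fin (2 ^ k) → E} (hs : Spl p f a)
    (A : ValuationSubring E) (ht : TwoX p k A a) {i j : Fin (2 ^ k)} (hij : j ≠ i) {x : E}
    (hx : x ∈ IntermediateField.adjoin ℚ {a i + (p : E) / a i, a j + (p : E) / a j})
    (hv : A.valuation x ^ (2 * 2 ^ k) = A.valuation (2 : E)) : False := by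
  have h0 : A.valuation (2 : E) ≠ 0 := (Valuation.ne_zero_iff _).2 two_ne_zero
  have hx0 : x ≠ 0 := by
    rintro rfl
    rw [map_zero, zero_pow (by positivity)] at hv
    exact h0 hv.symm
  obtain ⟨m, hm⟩ := valm h hs A ht hij hx hx0
  have h1 : A.valuation (2 : E) ^ ((2 ^ k - 1 : ℕ) : ℤ) = A.valuation (2 : E) ^ (2 * m) := by
    rw [zpow_natCast]
    conv_lhs => rw [← hv]
    rw [mul_comm 2 m, zpow_mul, ← hm, ← pow_mul]
    have e : (2 : ℤ) = ((2 : ℕ) : ℤ) := rfl
    rw [e, zpow_natCast, ← pow_mul]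
    congr 1
    ring
  have h2 := Flip_v2 A ht.h2 h1
  have hk := h.k3
  obtain ⟨l, rfl⟩ : ∃ l, k = l + 1 := ⟨k - 1, by omega⟩
  have h3 : 2 ^ (l + 1) = 2 * 2 ^ l := by ring
  have h4 : 0 < 2 ^ l := by positivity
  rw [h3] at h2
  omega

theorem notin_M (h : GoodX p k f) {a : Fin (2 ^ k) → E} (hs : Spl p f a)
    (A : ValuationSubring E) (ht : TwoX p k A a) {i j : Fin (2 ^ k)} (hij : j ≠ i) :
    a i ∉ IntermediateField.adjoin ℚ {a i + (p : E) / a i, a j + (p : E) / a j} ∧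
    a j ∉ IntermediateField.adjoin ℚ {a i + (p : E) / a i, a j + (p : E) / a j} := by
  have h1 : (1 : E) ∈ IntermediateField.adjoin ℚ {a i + (p : E) / a i, a j + (p : E) / a j} :=
    one_mem _
  exact ⟨fun hc => Flip_odd h hs A ht hij (sub_mem hc h1) (ht.al i),
    fun hc => Flip_odd h hs A ht hij (sub_mem hc h1) (ht.al j)⟩

theorem cross (h : GoodX p k f) {a : Fin (2 ^ k) → E} (hs : Spl p f a)
    (A : ValuationSubring E) (ht : TwoX p k A a) {i j : Fin (2 ^ k)} (hij : j ≠ i) :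
    (a i - (p : E) / a i) * (a j - (p : E) / a j) ∉
      IntermediateField.adjoin ℚ {a i + (p : E) / a i, a j + (p : E) / a j} := by
  intro hη
  have h0 : A.valuation (2 : E) ≠ 0 := (Valuation.ne_zero_iff _).2 two_ne_zero
  have hk := h.k3
  have hg8 : 8 ≤ 2 ^ k := by
    calc 8 = 2 ^ 3 := by norm_num
      _ ≤ 2 ^ k := Nat.pow_le_pow_right (by norm_num) hk
  obtain ⟨ha, -⟩ := roots_injB h.toBaseF hs
  obtain ⟨M, hM⟩ : ∃ M, M = IntermediateField.adjoin ℚ
      {a i + (p : E) / a i, a j + (p : E) / a j} := ⟨_, rfl⟩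
  obtain ⟨y, hy⟩ : ∃ y, y = a i + (p : E) / a i := ⟨_, rfl⟩
  obtain ⟨z, hz⟩ : ∃ z, z = a j + (p : E) / a j := ⟨_, rfl⟩
  have hvy : A.valuation y ^ (2 ^ k) = A.valuation (2 : E) := by rw [hy]; exact ht.vy i
  have hvz : A.valuation z ^ (2 ^ k) = A.valuation (2 : E) := by rw [hz]; exact ht.vy j
  have hvd : A.valuation (z - y) ^ (2 ^ k - 1) = A.valuation (2 : E) := by
    rw [hy, hz]; exact ht.di i j hij
  have hka : A.valuation (y ^ (2 ^ k) - (z - y) ^ (2 ^ k - 1)) ≤
      A.valuation (2 : E) * A.valuation y := by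
    rw [hy, hz]; exact ht.ka i j hij
  have hy0 : y ≠ 0 := by
    rintro hc
    rw [hc, map_zero, zero_pow (by positivity)] at hvy
    exact h0 hvy.symm
  have hz0 : z ≠ 0 := by
    rintro hc
    rw [hc, map_zero, zero_pow (by positivity)] at hvz
    exact h0 hvz.symm
  have hyM : y ∈ M := by
    rw [hM, hy]
    exact IntermediateField.subset_adjoin ℚ _ (by simp)
  have hzM : z ∈ M := by
    rw [hM, hz]
    exact IntermediateField.subset_adjoin ℚ _ (by simp)
  rw [← hM] at hη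
  obtain ⟨U, hU⟩ : ∃ U, U = (a i - (p : E) / a i) * (a j - (p : E) / a j) / (y * z) := ⟨_, rfl⟩
  have hUM : U ∈ M := by
    rw [hU]
    exact div_mem hη (mul_mem hyM hzM)
  have hai := ha i
  have haj := ha j
  have hsq : ∀ x : E, x ≠ 0 → (x - (p : E) / x) ^ 2 = (x + (p : E) / x) ^ 2 - 4 * p := by
    intro x hx
    field_simp
    ring
  have hU2 : U ^ 2 = (1 - 4 * (p : E) / y ^ 2) * (1 - 4 * (p : E) / (y + (z - y)) ^ 2) := by
    rw [hU, div_pow, mul_pow, hsq _ hai, hsq _ haj, ← hy, ← hz, add_sub_cancel]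
    field_simp
  have hge : Even (2 ^ k) := by
    obtain ⟨l, rfl⟩ : ∃ l, k = l + 1 := ⟨k - 1, by omega⟩
    exact ⟨2 ^ l, by ring⟩
  have hcv := cross_val A ht.h2 hg8 hge h.podd hvy hvd hka hU2
  obtain ⟨V, hV⟩ : ∃ V, V = (U - 1) / 2 - (z - y) / (y * (y + (z - y))) -
      (((z - y) / y)⁻¹) ^ ((2 ^ k - 2) / 2) := ⟨_, rfl⟩
  rw [← hV] at hcv
  have hVM : V ∈ M := by
    have h1 : (1 : E) ∈ M := one_mem _
    have h2 : (2 : E) ∈ M := by
      have := natCast_mem M 2
      simpa using this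
    have h3 : z - y ∈ M := sub_mem hzM hyM
    rw [hV]
    exact sub_mem (sub_mem (div_mem (sub_mem hUM h1) h2)
      (div_mem h3 (mul_mem hyM (add_mem hyM h3)))) (pow_mem (inv_mem (div_mem h3 hyM)) _)
  have hV0 : V ≠ 0 := by
    rintro hc
    rw [hc, map_zero, zero_pow two_ne_zero, zero_mul] at hcv
    exact zero_ne_one hcv
  rw [hM] at hVM
  obtain ⟨m, hm⟩ := valm h hs A ht hij hVM hV0
  have hvP : A.valuation ((z - y) / y) ^ (2 ^ k * (2 ^ k - 1)) = A.valuation (2 : E) := by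
    rw [map_div₀, div_pow]
    have e1 : A.valuation (z - y) ^ (2 ^ k * (2 ^ k - 1)) = A.valuation (2 : E) ^ (2 ^ k) := by
      rw [mul_comm, pow_mul, hvd]
    have e2 : A.valuation y ^ (2 ^ k * (2 ^ k - 1)) = A.valuation (2 : E) ^ (2 ^ k - 1) := by
      rw [pow_mul, hvy]
    rw [e1, e2]
    have e3 : A.valuation (2 : E) ^ (2 ^ k) =
        A.valuation (2 : E) * A.valuation (2 : E) ^ (2 ^ k - 1) := by
      rw [← pow_succ']
      congr 1
      omega
    rw [e3, mul_div_assoc, div_self (pow_ne_zero _ h0), mul_one]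
  have h1 : A.valuation (2 : E) ^ (2 * m + ((2 ^ k - 3 : ℕ) : ℤ)) = A.valuation (2 : E) ^ (0 : ℤ) := by
    rw [zpow_zero, zpow_add₀ h0, zpow_natCast, mul_comm 2 m, zpow_mul, ← hm]
    have e : (2 : ℤ) = ((2 : ℕ) : ℤ) := rfl
    rw [e, zpow_natCast]
    have e4 : A.valuation (2 : E) ^ (2 ^ k - 3) =
        A.valuation ((z - y) / y) ^ ((2 ^ k - 3) * (2 ^ k * (2 ^ k - 1))) := by
      rw [mul_comm, pow_mul, hvP]
    rw [e4]
    calc (A.valuation V ^ (2 ^ k * (2 ^ k - 1))) ^ 2 *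
          A.valuation ((z - y) / y) ^ ((2 ^ k - 3) * (2 ^ k * (2 ^ k - 1))) =
        (A.valuation V ^ 2 * A.valuation ((z - y) / y) ^ (2 ^ k - 3)) ^
          (2 ^ k * (2 ^ k - 1)) := by
          rw [mul_pow, ← pow_mul, ← pow_mul, ← pow_mul]
          congr 2
          ring
      _ = 1 := by rw [hcv, one_pow]
  have h2 := Flip_v2 A ht.h2 h1
  obtain ⟨l, hl⟩ := hge
  omega

theorem flip (h : GoodX p k f) {a : Fin (2 ^ k) → E} (hs : Spl p f a)
    (A : ValuationSubring E) (ht : TwoX p k A a) {i j : Fin (2 ^ k)} (hij : j ≠ i) :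
    ∃ σ : E ≃ₐ[ℚ] E, σ (a i) = a i ∧ σ (a j) = (p : E) / a j := by
  obtain ⟨ha, -⟩ := roots_injB h.toBaseF hs
  have hp0 : (p : E) ≠ 0 := by
    rw [Nat.cast_ne_zero]
    rintro rfl
    have := h.podd
    omega
  have hyL : a j + (p : E) / a j ∈ IntermediateField.adjoin ℚ {a i, a j + (p : E) / a j} :=
    IntermediateField.subset_adjoin ℚ _ (by simp)
  have haL : a i ∈ IntermediateField.adjoin ℚ {a i, a j + (p : E) / a j} :=
    IntermediateField.subset_adjoin ℚ _ (by simp)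
  by_cases hL : a j ∈ IntermediateField.adjoin ℚ {a i, a j + (p : E) / a j}
  · exfalso
    obtain ⟨hn1, hn2⟩ := notin_M h hs A ht hij
    have hcr := cross h hs A ht hij
    apply hcr
    have hyi : a i + (p : E) / a i ∈ IntermediateField.adjoin ℚ
        {a i + (p : E) / a i, a j + (p : E) / a j} :=
      IntermediateField.subset_adjoin ℚ _ (by simp)
    have hyj : a j + (p : E) / a j ∈ IntermediateField.adjoin ℚ
        {a i + (p : E) / a i, a j + (p : E) / a j} :=
      IntermediateField.subset_adjoin ℚ _ (by simp)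
    have hfixL : ∀ τ : E ≃ₐ[ℚ] E, τ (a i) = a i → τ (a j + (p : E) / a j) = a j + (p : E) / a j →
        τ (a j) = a j := by
      intro τ h1 h2
      refine Flip_fix (τ := τ) (S := {a i, a j + (p : E) / a j}) ?_ _ hL
      rintro x (rfl | rfl)
      · exact h1
      · exact h2
    have htwo : ∀ (τ : E ≃ₐ[ℚ] E) (l : Fin (2 ^ k)), τ (a l + (p : E) / a l) = a l + (p : E) / a l →
        τ (a l) = a l ∨ τ (a l) = (p : E) / a l := by
      intro τ l h1
      rw [map_add, map_div₀, map_natCast] at h1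
      exact Flip_two ((map_ne_zero τ).2 (ha l)) (ha l) h1
    apply Flip_fixed
    intro τ hτ
    have t1 := hτ _ hyi
    have t2 := hτ _ hyj
    rcases htwo τ i t1 with c1 | c1
    · have c2 := hfixL τ c1 t2
      rw [map_mul, map_sub, map_sub, map_div₀, map_div₀, map_natCast, c1, c2]
    · rcases htwo τ j t2 with c2 | c2
      · exfalso
        apply hn2
        apply Flip_fixed
        intro τ' hτ'
        have s1 := hτ' _ hyi
        have s2 := hτ' _ hyj
        rcases htwo τ' i s1 with d1 | d1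
        · exact hfixL τ' d1 s2
        · have e1 : (τ'.trans τ.symm) (a i) = a i := by
            rw [AlgEquiv.trans_apply, d1, ← c1, AlgEquiv.symm_apply_apply]
          have e2 : (τ'.trans τ.symm) (a j + (p : E) / a j) = a j + (p : E) / a j := by
            rw [AlgEquiv.trans_apply, s2, AlgEquiv.symm_apply_eq, t2]
          have e3 := hfixL _ e1 e2
          rw [AlgEquiv.trans_apply, AlgEquiv.symm_apply_eq, c2] at e3
          exact e3
      · have hai := ha i
        have haj := ha j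
        rw [map_mul, map_sub, map_sub, map_div₀, map_div₀, map_natCast, c1, c2]
        field_simp
        ring
  · obtain ⟨ρ, h1, h2⟩ := Flip_conj p (ha j) _ hyL hL
    exact ⟨ρ, h1 _ haL, h2⟩

end LIF
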