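import Pool.Agent.helper1.GLI.LinV

/-!
[XLI-LinG] Valuation independence, general form (adapt `GLI/LinV.lean` by helper39).

`E` a field of characteristic zero, `v(2) < 1`; `n, m ≥ 1` coprime, `v(u)^n = v(2)`,
`v(w)^m = v(2)`.  For nonzero rational `c` with `v(c) = v(2)^μ` (`rat_val`), `a < n`, `b < m`:
`v(c u^a w^b)^(n m) = v(2)^(n m μ + m a + n b)`.  If two such exponents are equal then modulo `m`:
`n b ≡ n b'`, so `b = b'`; then `n (μ - μ') = a' - a`, `|a - a'| < n`, so `a = a'`.  So in a sum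
`∑ c_(a,b) u^a w^b` the nonzero terms have pairwise different valuations, and the valuation of the
sum is the valuation of one of the terms.
* `ling_zero`: if the sum is `0` then `c = 0`.
* `ling_val`: if `c ≠ 0` there is an integer `j` with `v(sum)^(n m) = v(2)^j`.
-/

set_option autoImplicit false

namespace LIF

variable {E : Type*} [Field E] [CharZero E] (A : ValuationSubring E)

private theorem LinG_ne : A.valuation (2 : E) ≠ 0 := by
  rw [Valuation.ne_zero_iff]
  exact two_ne_zero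

/-- The arithmetic of the exponents. -/
private theorem LinG_arith {n m μ μ' a a' b b' : ℤ} (hm : 0 < m)
    (hnm : IsCoprime n m) (ha : 0 ≤ a) (ha2 : a < n) (ha' : 0 ≤ a') (ha2' : a' < n) (hb : 0 ≤ b)
    (hb2 : b < m) (hb' : 0 ≤ b') (hb2' : b' < m)
    (h : μ * (n * m) + a * m + b * n = μ' * (n * m) + a' * m + b' * n) :
    a = a' ∧ b = b' := by
  have hdvd : m ∣ (b - b') := by
    have h1 : m ∣ n * (b - b') :=
      ⟨-(n * (μ - μ') + (a - a')), by linear_combination h⟩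
    exact hnm.symm.dvd_of_dvd_mul_left h1
  have hbb : b - b' = 0 := by
    apply Int.eq_zero_of_abs_lt_dvd hdvd
    rw [abs_lt]
    constructor <;> linarith
  have hb3 : b = b' := by linarith
  refine ⟨?_, hb3⟩
  subst hb3
  have h1 : m * (n * (μ - μ') + (a - a')) = 0 := by
    linear_combination h
  have h2 : n * (μ - μ') + (a - a') = 0 := by
    rcases mul_eq_zero.1 h1 with h3 | h3
    · exact absurd h3 hm.ne'
    · exact h3
  have h3 : n ∣ (a - a') := ⟨-(μ - μ'), by linear_combination h2⟩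
  have h4 : a - a' = 0 := by
    apply Int.eq_zero_of_abs_lt_dvd h3
    rw [abs_lt]
    constructor <;> linarith
  linarith

/-- The valuations of the terms, raised to a power. -/
private theorem LinG_term {n m : ℕ} {u w : E}
    (hu : A.valuation u ^ n = A.valuation (2 : E))
    (hw : A.valuation w ^ m = A.valuation (2 : E)) {c : E} {μ : ℤ}
    (hc : A.valuation c = A.valuation (2 : E) ^ μ) (a b : ℕ) :
    A.valuation (c * (u ^ a * w ^ b)) ^ (n * m) =
      A.valuation (2 : E) ^ (μ * (n * m) + a * m + b * n : ℤ) := by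
  have h0 := LinG_ne A
  have e1 : (A.valuation (2 : E) ^ μ) ^ (n * m) =
      A.valuation (2 : E) ^ (μ * (n * m)) := by
    rw [← zpow_natCast (A.valuation (2 : E) ^ μ), ← zpow_mul]
    congr 1
  have e2 : (A.valuation u ^ a) ^ (n * m) = A.valuation (2 : E) ^ ((a : ℤ) * m) := by
    have h1 : (A.valuation u ^ a) ^ (n * m) = (A.valuation u ^ n) ^ (a * m) := by
      rw [← pow_mul, ← pow_mul]
      congr 1
      ring
    rw [h1, hu, ← zpow_natCast]
    congr 1
  have e3 : (A.valuation w ^ b) ^ (n * m) = A.valuation (2 : E) ^ ((b : ℤ) * n) := by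
    have h1 : (A.valuation w ^ b) ^ (n * m) = (A.valuation w ^ m) ^ (b * n) := by
      rw [← pow_mul, ← pow_mul]
      congr 1
      ring
    rw [h1, hw, ← zpow_natCast]
    congr 1
  rw [map_mul, map_mul, map_pow, map_pow, mul_pow, mul_pow, hc, e1, e2, e3, zpow_add₀ h0,
    zpow_add₀ h0]
  exact (mul_assoc _ _ _).symm

/-- Different terms have different valuations. -/
private theorem LinG_inj (h2 : A.valuation (2 : E) < 1) {n m : ℕ} (hm : 1 ≤ m)
    (hnm : Nat.Coprime n m) {u w : E} (hu : A.valuation u ^ n = A.valuation (2 : E))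
    (hw : A.valuation w ^ m = A.valuation (2 : E))
    {c c' : ℚ} (hc : c ≠ 0) (hc' : c' ≠ 0) {x y : Fin n × Fin m}
    (h : A.valuation ((c : E) * (u ^ (x.1 : ℕ) * w ^ (x.2 : ℕ))) =
      A.valuation ((c' : E) * (u ^ (y.1 : ℕ) * w ^ (y.2 : ℕ)))) : x = y := by
  obtain ⟨μ, hμ⟩ := rat_val A h2 hc
  obtain ⟨μ', hμ'⟩ := rat_val A h2 hc'
  have h3 := LinG_term A hu hw hμ (x.1 : ℕ) (x.2 : ℕ)
  have h4 := LinG_term A hu hw hμ' (y.1 : ℕ) (y.2 : ℕ)
  rw [h, h4] at h3
  have h5 := zpow_right_injective₀ (zero_lt_iff.2 (LinG_ne A)) h2.ne h3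
  have hcop : IsCoprime (n : ℤ) (m : ℤ) := Nat.isCoprime_iff_coprime.2 hnm
  obtain ⟨h6, h7⟩ := LinG_arith (by exact_mod_cast hm) hcop
    (by positivity) (by exact_mod_cast y.1.2) (by positivity) (by exact_mod_cast x.1.2)
    (by positivity) (by exact_mod_cast y.2.2) (by positivity) (by exact_mod_cast x.2.2) h5
  apply Prod.ext
  · apply Fin.ext
    exact_mod_cast h6.symm
  · apply Fin.ext
    exact_mod_cast h7.symm

/-- There is a dominating term. -/
private theorem LinG_max (h2 : A.valuation (2 : E) < 1) {n m : ℕ} (hn : 1 ≤ n) (hm : 1 ≤ m)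
    (hnm : Nat.Coprime n m) {u w : E} (hu : A.valuation u ^ n = A.valuation (2 : E))
    (hw : A.valuation w ^ m = A.valuation (2 : E)) {c : Fin n × Fin m → ℚ} (hc : c ≠ 0) :
    ∃ j, c j ≠ 0 ∧ 0 < A.valuation ((c j : E) * (u ^ (j.1 : ℕ) * w ^ (j.2 : ℕ))) ∧
      ∀ i, i ≠ j → A.valuation ((c i : E) * (u ^ (i.1 : ℕ) * w ^ (i.2 : ℕ))) <
        A.valuation ((c j : E) * (u ^ (j.1 : ℕ) * w ^ (j.2 : ℕ))) := by
  classical
  have h0 := LinG_ne A
  have hu0 : A.valuation u ≠ 0 := by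
    intro h
    rw [h, zero_pow (by omega)] at hu
    exact h0 hu.symm
  have hw0 : A.valuation w ≠ 0 := by
    intro h
    rw [h, zero_pow (by omega)] at hw
    exact h0 hw.symm
  obtain ⟨x0, hx0⟩ : ∃ x, c x ≠ 0 := by
    by_contra hcon
    push Not at hcon
    exact hc (funext hcon)
  have hne : (Finset.univ.filter fun x => c x ≠ 0).Nonempty :=
    ⟨x0, Finset.mem_filter.2 ⟨Finset.mem_univ _, hx0⟩⟩
  obtain ⟨j, hj, hmax⟩ := Finset.exists_max_image (Finset.univ.filter fun x => c x ≠ 0)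
    (fun x => A.valuation ((c x : E) * (u ^ (x.1 : ℕ) * w ^ (x.2 : ℕ)))) hne
  have hcj : c j ≠ 0 := (Finset.mem_filter.1 hj).2
  have hpos : 0 < A.valuation ((c j : E) * (u ^ (j.1 : ℕ) * w ^ (j.2 : ℕ))) := by
    rw [zero_lt_iff, map_mul, map_mul, map_pow, map_pow]
    refine mul_ne_zero ?_ (mul_ne_zero (pow_ne_zero _ hu0) (pow_ne_zero _ hw0))
    rw [Valuation.ne_zero_iff]
    exact_mod_cast hcj
  refine ⟨j, hcj, hpos, fun i hij => ?_⟩
  by_cases hci : c i = 0
  · rw [hci, Rat.cast_zero, zero_mul, map_zero]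
    exact hpos
  · refine lt_of_le_of_ne (hmax i (Finset.mem_filter.2 ⟨Finset.mem_univ _, hci⟩)) ?_
    intro h
    exact hij (LinG_inj A h2 hm hnm hu hw hci hcj h)

theorem ling_zero (h2 : A.valuation (2 : E) < 1) {n m : ℕ} (hn : 1 ≤ n) (hm : 1 ≤ m)
    (hnm : Nat.Coprime n m) {u w : E} (hu : A.valuation u ^ n = A.valuation (2 : E))
    (hw : A.valuation w ^ m = A.valuation (2 : E)) (c : Fin n × Fin m → ℚ)
    (h : ∑ x, (c x : E) * (u ^ (x.1 : ℕ) * w ^ (x.2 : ℕ)) = 0) : c = 0 := by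
  classical
  by_contra hc
  obtain ⟨j, -, hpos, hj⟩ := LinG_max A h2 hn hm hnm hu hw hc
  have h1 := Valuation.map_sum_eq_of_lt A.valuation (s := Finset.univ)
    (f := fun x : Fin n × Fin m =>
      (c x : E) * (u ^ (x.1 : ℕ) * w ^ (x.2 : ℕ))) (Finset.mem_univ j) (fun i hi => by
      rw [Finset.mem_sdiff, Finset.mem_singleton] at hi
      exact hj i hi.2)
  rw [h, map_zero] at h1
  exact hpos.ne h1

theorem ling_val (h2 : A.valuation (2 : E) < 1) {n m : ℕ} (hn : 1 ≤ n) (hm : 1 ≤ m)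
    (hnm : Nat.Coprime n m) {u w : E} (hu : A.valuation u ^ n = A.valuation (2 : E))
    (hw : A.valuation w ^ m = A.valuation (2 : E)) (c : Fin n × Fin m → ℚ) (hc : c ≠ 0) :
    ∃ j : ℤ, A.valuation (∑ x, (c x : E) * (u ^ (x.1 : ℕ) * w ^ (x.2 : ℕ))) ^ (n * m) =
      A.valuation (2 : E) ^ j := by
  classical
  obtain ⟨j, hcj, hpos, hj⟩ := LinG_max A h2 hn hm hnm hu hw hc
  have h1 := Valuation.map_sum_eq_of_lt A.valuation (s := Finset.univ)
    (f := fun x : Fin n × Fin m =>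
      (c x : E) * (u ^ (x.1 : ℕ) * w ^ (x.2 : ℕ))) (Finset.mem_univ j) (fun i hi => by
      rw [Finset.mem_sdiff, Finset.mem_singleton] at hi
      exact hj i hi.2)
  obtain ⟨μ, hμ⟩ := rat_val A h2 hcj
  exact ⟨μ * (n * m) + (j.1 : ℕ) * m + (j.2 : ℕ) * n, by
    rw [h1]
    exact LinG_term A hu hw hμ (j.1 : ℕ) (j.2 : ℕ)⟩

end LIF
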