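import Pool.Agent.helper1.XLI.Defs
import Pool.Agent.helper1.GLI.Mod4

/-!
[XLI-SdM] `S_d ≡ 1 + t_d (mod 4)`, `t_d = η_(2g)(γ^(p^d) - γ) = ±1`, for `1 ≤ d < 2g`, every odd `p`
(checked numerically for `p = 3, 5`).

Adapt `GLI/Mod4.lean` (by helper68; it treats `p % 4 = 3`, `γ^(p^g) = -γ`, where all `t_d = -1`).

Proof.  `S_d = ∑_{h ∈ Mon p d} ch1 h * chh h0 h` (`chi_eq`).  `T = (Mon p d).filter (h.eval 1 ≠ 0)`;
on `T` both factors are `±1`, the other terms vanish; `Mod4_sum`: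
`S_d ≡ card T + ∏_{h ∈ T} ch1 h * chh h0 h - 1 (mod 4)`.
* `card T = p^(d-1) (p - 1)`; the number of `h ∈ T` with `ch1 h = -1` is half of it (`∑_T ch1 = 0`), so
  `∏_T ch1 h = (-1)^(card T / 2)`.
* `t_j := η_(2g)(γ^(p^j) - γ) = ±1` for `1 ≤ j < 2g` (`γ^(p^j) ≠ γ` as `γ` has degree `2g`, `gam_deg`;
  `y ≠ 0`, `y^(p^(2g)) = y`).  `P_d := ∏_{h ∈ Mon p d} chh h0 h = ∏_{j=1}^{d} t_j` (as in `Mod4_P`: Carlitz
  `prod_Mon_aeval`, `chh_pow`, `γ^(p^d) - γ^(p^i) = (γ^(p^(d-i)) - γ)^(p^i)`, `p^i` odd).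
* the `h ∈ Mon p d` with `h.eval 1 = 0` are `(X - 1) h'`, `h' ∈ Mon p (d-1)`, and
  `chh h0 (X - 1) = -1`, so their product is `(-1)^(p^(d-1)) P_(d-1) = - P_(d-1)`.  So
  `∏_T chh h0 h = P_d / (- P_(d-1)) = - t_d`.
* total: `S_d ≡ card T - (-1)^(card T/2) t_d - 1 (mod 4)`.  If `card T ≡ 0 (mod 4)`:
  `- t_d - 1 ≡ 1 + t_d (mod 4)` (`2 (1 + t_d) ≡ 0 mod 4`).  If `card T ≡ 2`: `2 + t_d - 1 = 1 + t_d`.
-/

set_option autoImplicit false

namespace LIF

open Polynomial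

theorem SdM_two {p : ℕ} [Fact p.Prime] (hp : p ≠ 2) : (2 : AlgebraicClosure (ZMod p)) ≠ 0 := by
  intro h7
  have h8 : ((2 : ℕ) : AlgebraicClosure (ZMod p)) = 0 := by exact_mod_cast h7
  rw [CharP.cast_eq_zero_iff (AlgebraicClosure (ZMod p)) p] at h8
  exact hp ((Nat.prime_dvd_prime_iff_eq (Fact.out : p.Prime) Nat.prime_two).1 h8)

theorem eta_diff_pm {p : ℕ} [Fact p.Prime] {g : ℕ} {h0 : (ZMod p)[X]} (hg : Good p g h0)
    {γ : AlgebraicClosure (ZMod p)} (hγ : aeval γ h0 = 0) {d : ℕ} (hd1 : 1 ≤ d)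
    (hd2 : d < 2 * g) :
    eta p (2 * g) (γ ^ (p ^ d) - γ) = 1 ∨ eta p (2 * g) (γ ^ (p ^ d) - γ) = -1 := by
  have hg1 := hg.g1
  have hm : 1 ≤ 2 * g := by omega
  have hx : γ ∈ Km p (2 * g) := by
    rw [mem_Km_iff_dvd hm, gam_deg hg hγ]
  have hx2 : γ ^ (p ^ (2 * g)) = γ := (mem_Km hm).1 hx
  have hy0 : γ ^ (p ^ d) - γ ≠ 0 := by
    intro h
    have h1 := Km_deg_le hd1 (sub_eq_zero.1 h)
    rw [gam_deg hg hγ] at h1
    omega
  obtain ⟨y, hy⟩ : ∃ y, y = γ ^ (p ^ d) - γ := ⟨_, rfl⟩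
  rw [← hy] at hy0 ⊢
  have hyp : y ^ (p ^ (2 * g)) = y := by
    rw [hy, sub_pow_char_pow, ← pow_mul, mul_comm, pow_mul, hx2]
  have hodd : Odd (p ^ (2 * g)) := (Par_odd hg.p2).pow
  have h1 : y ^ (p ^ (2 * g) - 1) = 1 := by
    have h2 : y * y ^ (p ^ (2 * g) - 1) = y * 1 := by
      rw [mul_one, ← pow_succ', Nat.sub_add_cancel (Nat.one_le_pow _ _ (Fact.out : p.Prime).pos),
        hyp]
    exact mul_left_cancel₀ hy0 h2
  have h2 : eta p (2 * g) y ^ 2 = 1 := by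
    unfold eta
    rw [← pow_mul]
    have h3 : (p ^ (2 * g) - 1) / 2 * 2 = p ^ (2 * g) - 1 := by
      obtain ⟨r, hr⟩ := hodd
      omega
    rw [h3, h1]
  have h4 : (eta p (2 * g) y - 1) * (eta p (2 * g) y + 1) = 0 := by linear_combination h2
  rcases mul_eq_zero.1 h4 with h5 | h5
  · left; linear_combination h5
  · right; linear_combination h5

/-- the product over `Mon p (e+1)` is `t_(e+1)` times the product over `Mon p e` -/
theorem SdM_P {p : ℕ} [Fact p.Prime] {g : ℕ} {h0 : (ZMod p)[X]} (hg : Good p g h0)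
    {γ : AlgebraicClosure (ZMod p)} (hγ : aeval γ h0 = 0) {d : ℕ} (hd2 : d < 2 * g) :
    ((∏ h ∈ Mon p d, chh h0 h : ℤ) : AlgebraicClosure (ZMod p)) =
      ∏ i ∈ Finset.range d, eta p (2 * g) (γ ^ (p ^ (i + 1)) - γ) := by
  have hodd : ∀ i : ℕ, Odd (p ^ i) := fun i => (Par_odd hg.p2).pow
  rw [Int.cast_prod, Finset.prod_congr rfl (fun h _ => chh_pow hg hγ h)]
  have h2 : ∏ h ∈ Mon p d, eta p (2 * g) (aeval γ h) =
      eta p (2 * g) (∏ h ∈ Mon p d, aeval γ h) := by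
    unfold eta
    rw [Finset.prod_pow]
  rw [h2, prod_Mon_aeval (by rw [gam_deg hg hγ]; exact hd2.le)]
  have h3 : eta p (2 * g) (∏ i ∈ Finset.range d, (γ ^ (p ^ d) - γ ^ (p ^ i))) =
      ∏ i ∈ Finset.range d, eta p (2 * g) (γ ^ (p ^ d) - γ ^ (p ^ i)) := by
    unfold eta
    rw [Finset.prod_pow]
  rw [h3, ← Finset.prod_range_reflect]
  apply Finset.prod_congr rfl
  intro i hi
  rw [Finset.mem_range] at hi
  obtain ⟨j, hj⟩ : ∃ j, j = d - 1 - i := ⟨_, rfl⟩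
  have hij : i + 1 = d - j := by omega
  have hjd : j ≤ d := by omega
  have hjd' : j < d := by omega
  rw [← hj, hij]
  have h4 : γ ^ (p ^ d) - γ ^ (p ^ j) = (γ ^ (p ^ (d - j)) - γ) ^ (p ^ j) := by
    rw [sub_pow_char_pow, ← pow_mul, ← pow_add, Nat.sub_add_cancel hjd]
  have h5 : eta p (2 * g) ((γ ^ (p ^ (d - j)) - γ) ^ (p ^ j)) =
      (eta p (2 * g) (γ ^ (p ^ (d - j)) - γ)) ^ (p ^ j) := by
    unfold eta
    rw [← pow_mul, ← pow_mul, mul_comm]
  rw [h4, h5]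
  rcases eta_diff_pm hg hγ (d := d - j) (by omega) (by omega) with h6 | h6
  · rw [h6, one_pow]
  · rw [h6]
    exact (hodd j).neg_one_pow

/-- integral form -/
theorem SdM_ratio {p : ℕ} [Fact p.Prime] {g : ℕ} {h0 : (ZMod p)[X]} (hg : Good p g h0)
    {γ : AlgebraicClosure (ZMod p)} (hγ : aeval γ h0 = 0) {e : ℕ} (hd2 : e + 1 < 2 * g)
    {t : ℤ} (ht : t = 1 ∨ t = -1)
    (hte : (t : AlgebraicClosure (ZMod p)) = eta p (2 * g) (γ ^ (p ^ (e + 1)) - γ)) :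
    (∏ h ∈ Mon p (e + 1), chh h0 h) = (∏ h ∈ Mon p e, chh h0 h) * t := by
  have h1 := SdM_P hg hγ hd2
  have h2 := SdM_P hg hγ (d := e) (by omega)
  rw [Finset.prod_range_succ, ← h2, ← hte] at h1
  have h6 := SdM_two (p := p) hg.p2
  rcases Mod4_prod_pm _ _ (fun h hh => Mod4_chh_pm hg hd2 (h := h) hh) with h3 | h3 <;>
    rcases Mod4_prod_pm _ _ (fun h hh => Mod4_chh_pm hg (d := e) (by omega) (h := h) hh)
      with h4 | h4 <;> rcases ht with h5 | h5 <;> rw [h3, h4, h5] at h1 ⊢ <;>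
      first
      | (norm_num; done)
      | (exfalso
         apply h6
         push_cast at h1
         first
         | linear_combination h1
         | linear_combination -h1)

theorem Sd_mod4 {p : ℕ} [Fact p.Prime] {g : ℕ} {h0 : (ZMod p)[X]} (hg : Good p g h0)
    {γ : AlgebraicClosure (ZMod p)} (hγ : aeval γ h0 = 0) {d : ℕ} (hd1 : 1 ≤ d)
    (hd2 : d < 2 * g) {t : ℤ} (ht : t = 1 ∨ t = -1)
    (hte : (t : AlgebraicClosure (ZMod p)) = eta p (2 * g) (γ ^ (p ^ d) - γ)) :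
    (4 : ℤ) ∣ Sd (Dp h0) d - (1 + t) := by
  classical
  obtain ⟨e, rfl⟩ : ∃ e, d = e + 1 := ⟨d - 1, by omega⟩
  obtain ⟨T, hT⟩ : ∃ T, T = (Mon p (e + 1)).filter (fun h : (ZMod p)[X] => h.eval 1 ≠ 0) := ⟨_, rfl⟩
  have hodd : ∀ i : ℕ, Odd (p ^ i) := fun i => (Par_odd hg.p2).pow
  -- the cardinality
  have hc : (T.card : ℤ) % 2 = 0 := by
    have h1 := Par_card (p := p) (d := e + 1) (by omega)
    rw [← hT, Nat.add_sub_cancel] at h1
    obtain ⟨r, hr⟩ := hodd e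
    obtain ⟨r', hr'⟩ := hodd (e + 1)
    omega
  have hch1 : ∀ h ∈ T, ch1 h = 1 ∨ ch1 h = -1 := by
    intro h hh
    rw [hT, Finset.mem_filter] at hh
    rcases ch1_cases h with h6 | h6 | h6
    · exact absurd h6 ((ch1_ne_zero_iff h).2 hh.2)
    · exact Or.inl h6
    · exact Or.inr h6
  have hchh : ∀ h ∈ T, chh h0 h = 1 ∨ chh h0 h = -1 := by
    intro h hh
    rw [hT, Finset.mem_filter] at hh
    exact Mod4_chh_pm hg hd2 hh.1
  have hS : Sd (Dp h0) (e + 1) = ∑ h ∈ T, ch1 h * chh h0 h := by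
    unfold Sd
    rw [hT, Finset.sum_filter]
    apply Finset.sum_congr rfl
    intro h hh
    rw [chi_eq hg (mem_Mon.1 hh).1]
    split_ifs with h1
    · rfl
    · have h3 : ch1 h = 0 := by
        by_contra h4
        exact h1 ((ch1_ne_zero_iff h).1 h4)
      rw [h3, zero_mul]
  -- first product
  have hp1 : (4 : ℤ) ∣ (T.card : ℤ) + (∏ h ∈ T, ch1 h) - 1 := by
    have hphi : ∑ c : ZMod p, quadraticChar (ZMod p) c = 0 :=
      quadraticChar_sum_zero (by rw [ZMod.ringChar_zmod_n]; exact hg.p2)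
    have h1 : ∑ h ∈ T, ch1 h = 0 := by
      have h2 := sum_Mon_ch (p := p) (φ := fun c => quadraticChar (ZMod p) c) hphi
        (d := e + 1) (by omega)
      rw [← h2, hT, Finset.sum_filter]
      apply Finset.sum_congr rfl
      intro h _
      split_ifs with h3
      · rfl
      · rw [not_not] at h3
        rw [h3, quadraticChar_zero]
    have h2 := Mod4_sum T ch1 hch1
    rw [h1] at h2
    omega
  -- second product
  have hp2 : ∏ h ∈ T, chh h0 h = -t := by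
    have h1 := SdM_ratio hg hγ hd2 ht hte
    have h3 : ∏ h ∈ (Mon p (e + 1)).filter (fun h : (ZMod p)[X] => h.eval 1 = 0), chh h0 h =
        ∏ h ∈ Mon p e, chh h0 ((X - 1) * h) := by
      have h4 := sum_Mon_root (p := p) (M := Additive ℤ) (fun h => Additive.ofMul (chh h0 h)) e
      rw [← ofMul_prod, ← ofMul_prod] at h4
      exact Additive.ofMul.injective h4
    have h5 : ∏ h ∈ Mon p e, chh h0 ((X - 1) * h) = -(∏ h ∈ Mon p e, chh h0 h) := by
      have h6 : ∀ h ∈ Mon p e, chh h0 ((X - 1) * h) = (-1) * chh h0 h := by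
        intro h _
        rw [chh_mul hg, chh_X_sub_one hg]
      rw [Finset.prod_congr rfl h6, Finset.prod_mul_distrib, Finset.prod_const, card_Mon,
        (hodd e).neg_one_pow]
      ring
    have h7 := Finset.prod_filter_mul_prod_filter_not (Mon p (e + 1))
      (fun h : (ZMod p)[X] => h.eval 1 = 0) (fun h => chh h0 h)
    rw [h3, h5, h1] at h7
    have h8 : -(∏ h ∈ Mon p e, chh h0 h) * ∏ h ∈ T, chh h0 h =
        (∏ h ∈ Mon p e, chh h0 h) * t := by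
      rw [hT]
      exact h7
    have h9 : (∏ h ∈ Mon p e, chh h0 h) ≠ 0 := by
      rcases Mod4_prod_pm _ _ (fun h hh => Mod4_chh_pm hg (d := e) (by omega) (h := h) hh)
        with h4 | h4 <;> rw [h4] <;> norm_num
    have h10 : (∏ h ∈ Mon p e, chh h0 h) * (∏ h ∈ T, chh h0 h) =
        (∏ h ∈ Mon p e, chh h0 h) * (-t) := by linarith
    exact mul_left_cancel₀ h9 h10
  have h1 := Mod4_sum T (fun h => ch1 h * chh h0 h) (by
    intro h hh
    rcases hch1 h hh with h3 | h3 <;> rcases hchh h hh with h4 | h4 <;>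
      simp only [h3, h4] <;> norm_num)
  rw [Finset.prod_mul_distrib, hp2, ← hS] at h1
  rcases ht with h5 | h5 <;> rcases Mod4_prod_pm T ch1 hch1 with h3 | h3 <;>
    rw [h3] at h1 hp1 <;> rw [h5] at h1 ⊢ <;> omega

end LIF
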