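import Pool.Agent.helper1.XLI.Defs
import Pool.Agent.helper1.LI.StD
import Pool.Agent.helper1.LI.StE

/-!
proofs: helper59

[XLI-StX] Stepanov's bound for polynomials `D` of arbitrary degree with a simple root (adapt
`LI/StA.lean`, `LI/StD.lean`, `LI/StE.lean`, which treat odd degree; the modules `StB`, `StC` can be
used as they are).

* `StX_simple`: `OddF p D` implies that there is `ξ` in `K = AlgebraicClosure (ZMod p)` with
  `rootMultiplicity ξ (D.map (algebraMap _ K)) = 1`: take a root `ξ` of the irreducible factor `P`; `P`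
  is separable (perfect field) and `D'(ξ) ≠ 0` as `P` is the minimal polynomial of `ξ` and
  `P ∤ D'`.
* `StX_key`: `K` a field, `q` odd, `D : K[X]` of degree `n ≤ q` with a root `ξ` of odd multiplicity,
  `c0 = D(0) ≠ 0`, `X^q ∣ D^q - C c0`, `r, s` of degree `< (q-n)/2`, `X^q ∣ r + s D^((q-1)/2)` ⇒
  `r = s = 0`.  As in `StA_key`: `r^2 D = c0 s^2` by comparing degrees (`2 ((q-n)/2 - 1) + n < q`); if
  `r ≠ 0` (so `s ≠ 0`) the multiplicity of `ξ` is odd on the left and even on the right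
  (`rootMultiplicity_mul`, `rootMultiplicity_pow`); so `r = 0`, `s = 0`.
* then `st_nonzero`, `st_bound`, `am_bound` with the same proofs.  For even `n` take `B = (q-n)/2`,
  `2B = q - n - 1`; and e.g. `J = (r + 4n + 11)/2`; for large `r = p^m` (depending on `n`) the dimension
  count is fine.  Only the existence of some constant `C` (depending on `D`) is needed.
-/

set_option autoImplicit false

namespace LIF

open Polynomial

theorem StX_key {K : Type*} [Field K] {q n : ℕ} {D : K[X]} (hn : D.natDegree = n)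
    {ξ : K} (hodd : Odd (D.rootMultiplicity ξ)) (hq : Odd q) (hnq : n ≤ q) (h0 : D.coeff 0 ≠ 0)
    (hDq : X ^ q ∣ D ^ q - C (D.coeff 0)) {r s : K[X]}
    (hr : r.degree < (((q - n) / 2 : ℕ) : WithBot ℕ))
    (hs : s.degree < (((q - n) / 2 : ℕ) : WithBot ℕ))
    (h : X ^ q ∣ r + s * D ^ ((q - 1) / 2)) : r = 0 ∧ s = 0 := by
  have hD : D ≠ 0 := by
    rintro rfl
    simp at h0
  obtain ⟨e, he⟩ := hq
  have he2 : (q - 1) / 2 = e := by omega
  rw [he2] at h
  have h1 : X ^ q ∣ r ^ 2 * D - C (D.coeff 0) * s ^ 2 := by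
    have h2 : r ^ 2 * D - C (D.coeff 0) * s ^ 2 =
        (r + s * D ^ e) * ((r - s * D ^ e) * D) + s ^ 2 * (D ^ q - C (D.coeff 0)) := by
      rw [he]
      ring
    rw [h2]
    exact dvd_add (Dvd.dvd.mul_right h _) (Dvd.dvd.mul_left hDq _)
  have hdr : (r ^ 2 * D).degree < (q : WithBot ℕ) := by
    by_cases hr0 : r = 0
    · rw [hr0, zero_pow two_ne_zero, zero_mul, degree_zero]
      exact WithBot.bot_lt_coe _
    · rw [degree_eq_natDegree (mul_ne_zero (pow_ne_zero _ hr0) hD),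
        natDegree_mul (pow_ne_zero _ hr0) hD, natDegree_pow, hn]
      rw [degree_eq_natDegree hr0] at hr
      have h3 : r.natDegree < (q - n) / 2 := by exact_mod_cast hr
      have h4 : 2 * r.natDegree + n < q := by omega
      exact_mod_cast h4
  have hC : C (D.coeff 0) ≠ 0 := C_ne_zero.2 h0
  have hds : (C (D.coeff 0) * s ^ 2).degree < (q : WithBot ℕ) := by
    by_cases hs0 : s = 0
    · rw [hs0, zero_pow two_ne_zero, mul_zero, degree_zero]
      exact WithBot.bot_lt_coe _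
    · rw [degree_eq_natDegree (mul_ne_zero hC (pow_ne_zero _ hs0)),
        natDegree_C_mul h0, natDegree_pow]
      rw [degree_eq_natDegree hs0] at hs
      have h3 : s.natDegree < (q - n) / 2 := by exact_mod_cast hs
      have h4 : 2 * s.natDegree < q := by omega
      exact_mod_cast h4
  have hz : r ^ 2 * D - C (D.coeff 0) * s ^ 2 = 0 := by
    refine eq_zero_of_dvd_of_degree_lt h1 ?_
    rw [degree_X_pow]
    exact lt_of_le_of_lt (degree_sub_le _ _) (max_lt hdr hds)
  have heq := sub_eq_zero.1 hz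
  have hr0 : r = 0 := by
    by_contra hr0
    have hL : r ^ 2 * D ≠ 0 := mul_ne_zero (pow_ne_zero _ hr0) hD
    have hs0 : s ≠ 0 := by
      rintro rfl
      rw [zero_pow two_ne_zero, mul_zero] at heq
      exact hL heq
    have hs2 : s ^ 2 ≠ 0 := pow_ne_zero _ hs0
    have hr2 : r ^ 2 ≠ 0 := pow_ne_zero _ hr0
    have h5 := congrArg (rootMultiplicity ξ) heq
    rw [rootMultiplicity_mul hL, rootMultiplicity_mul (mul_ne_zero hC hs2), rootMultiplicity_C,
      sq, sq, rootMultiplicity_mul (by rw [← sq]; exact hr2),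
      rootMultiplicity_mul (by rw [← sq]; exact hs2)] at h5
    obtain ⟨m, hm⟩ := hodd
    omega
  refine ⟨hr0, ?_⟩
  rw [hr0, zero_pow two_ne_zero, zero_mul] at heq
  rcases mul_eq_zero.1 heq.symm with h7 | h7
  · exact absurd h7 hC
  · exact pow_eq_zero_iff (two_ne_zero) |>.1 h7

theorem StX_nonzero {K : Type*} [Field K] {q n J : ℕ} {D : K[X]} (hn : D.natDegree = n)
    {ξ : K} (hodd : Odd (D.rootMultiplicity ξ)) (hq : Odd q) (hnq : n ≤ q) (h0 : D.coeff 0 ≠ 0)
    (hDq : X ^ q ∣ D ^ q - C (D.coeff 0)) (r s : Fin J → K[X])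
    (hr : ∀ j, (r j).degree < (((q - n) / 2 : ℕ) : WithBot ℕ))
    (hs : ∀ j, (s j).degree < (((q - n) / 2 : ℕ) : WithBot ℕ))
    (h : ∑ j, (r j + s j * D ^ ((q - 1) / 2)) * X ^ (q * (j : ℕ)) = 0) :
    ∀ j, r j = 0 ∧ s j = 0 := by
  intro j
  obtain ⟨m, hm⟩ : ∃ m, m = (j : ℕ) := ⟨_, rfl⟩
  induction m using Nat.strong_induction_on generalizing j with
  | _ m ih =>
    have hlt : ∀ i : Fin J, i < j → r i = 0 ∧ s i = 0 := fun i hi =>
      ih i (by rw [hm]; exact hi) i rfl
    apply StX_key hn hodd hq hnq h0 hDq (hr j) (hs j)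
    have h1 : X ^ (q * (j : ℕ) + q) ∣
        (r j + s j * D ^ ((q - 1) / 2)) * X ^ (q * (j : ℕ)) := by
      have h2 : (r j + s j * D ^ ((q - 1) / 2)) * X ^ (q * (j : ℕ)) =
          - ∑ i ∈ Finset.univ.erase j,
            (r i + s i * D ^ ((q - 1) / 2)) * X ^ (q * (i : ℕ)) := by
        rw [← Finset.add_sum_erase _ _ (Finset.mem_univ j)] at h
        exact eq_neg_of_add_eq_zero_left h
      rw [h2, dvd_neg]
      refine Finset.dvd_sum fun i hi => ?_
      rcases lt_or_gt_of_ne (Finset.ne_of_mem_erase hi) with h3 | h3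
      · obtain ⟨h4, h5⟩ := hlt i h3
        rw [h4, h5]
        simp
      · refine Dvd.dvd.mul_left (pow_dvd_pow _ ?_) _
        have h4 : (j : ℕ) + 1 ≤ i := h3
        calc q * (j : ℕ) + q = q * ((j : ℕ) + 1) := by ring
          _ ≤ q * i := Nat.mul_le_mul_left _ h4
    rw [pow_add, mul_comm (X ^ (q * (j : ℕ))) (X ^ q)] at h1
    exact (mul_dvd_mul_iff_right (pow_ne_zero _ X_ne_zero)).1 h1

open scoped Classical in
theorem StX_bound {p : ℕ} [Fact p.Prime] (p2 : p ≠ 2) {D : (ZMod p)[X]}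
    {ξ : AlgebraicClosure (ZMod p)} (hn1 : 1 ≤ D.natDegree)
    (hodd : Odd ((D.map (algebraMap (ZMod p) (AlgebraicClosure (ZMod p)))).rootMultiplicity ξ))
    (h0 : D.coeff 0 ≠ 0) {m : ℕ} (hm1 : 1 ≤ m)
    (hm : D.natDegree + 4 ≤ p ^ m) (c : AlgebraicClosure (ZMod p)) :
    2 * ((Km p (2 * m)).filter
      (fun x => (aeval x D) ^ ((p ^ (2 * m) - 1) / 2) = c)).card ≤
      p ^ (2 * m) + (5 * D.natDegree + 10) * p ^ m + 2 * D.natDegree := by
  classical
  have hpp : p.Prime := Fact.out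
  have hpo : Odd p := hpp.odd_of_ne_two p2
  have : CharP (AlgebraicClosure (ZMod p)) p :=
    charP_of_injective_algebraMap (algebraMap (ZMod p) (AlgebraicClosure (ZMod p))).injective p
  set n := D.natDegree with hn
  set Z := (Km p (2 * m)).filter (fun x => (aeval x D) ^ ((p ^ (2 * m) - 1) / 2) = c) with hZ
  set D' : (AlgebraicClosure (ZMod p))[X] := D.map (algebraMap (ZMod p) (AlgebraicClosure (ZMod p))) with hD'
  have hnD' : D'.natDegree = n := natDegree_map _
  obtain ⟨r, hr⟩ : ∃ r, r = p ^ m := ⟨_, rfl⟩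
  have hqr : p ^ (2 * m) = r * r := by rw [two_mul, pow_add, hr]
  have hro : Odd r := by rw [hr]; exact hpo.pow
  rw [← hr] at hm ⊢
  have hqo : Odd (p ^ (2 * m)) := hpo.pow
  have hr0 : 0 < r := by omega
  have hrr : r ≤ r * r := Nat.le_mul_of_pos_left r (by omega)
  have hnq : n ≤ p ^ (2 * m) := by rw [hqr]; omega
  obtain ⟨B, hB⟩ : ∃ B, B = (p ^ (2 * m) - n) / 2 := ⟨_, rfl⟩
  obtain ⟨J, hJ⟩ : ∃ J, J = (r + 4 * n + 11) / 2 := ⟨_, rfl⟩
  have h2B : 2 * B + n ≤ r * r ∧ r * r ≤ 2 * B + n + 1 := by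
    rw [← hqr]
    omega
  have h2J : r + 4 * n + 10 ≤ 2 * J ∧ 2 * J ≤ r + 4 * n + 11 := by
    omega
  have hdim : ∑ k ∈ Finset.range r, (B + k * (D'.natDegree - 1) + J) < 2 * J * B := by
    rw [hnD']
    have h1 := StD_sum r B n J
    have h2 : r * (2 * B) + r * (2 * J) + (n - 1) * (r * (r - 1)) < (2 * J) * (2 * B) := by
      obtain ⟨n', hn'⟩ : ∃ n', n = n' + 1 := ⟨n - 1, by omega⟩
      obtain ⟨t, ht⟩ : ∃ t, r = n + 4 + t := ⟨r - (n + 4), by omega⟩
      have hr1 : 1 ≤ r := by omega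
      have hn1' : ((n - 1 : ℕ) : ℤ) = n - 1 := by push_cast [hn1]; ring
      have hr1' : ((r - 1 : ℕ) : ℤ) = r - 1 := by push_cast [hr1]; ring
      have g1 : (r : ℤ) * r - n - 1 ≤ 2 * B := by
        have : ((r * r : ℕ) : ℤ) ≤ 2 * B + n + 1 := by exact_mod_cast h2B.2
        push_cast at this
        linarith
      have g2 : (r : ℤ) + 4 * n + 10 ≤ 2 * J := by exact_mod_cast h2J.1
      have hrt : (r : ℤ) = n + 4 + t := by exact_mod_cast ht
      have hn0 : (1 : ℤ) ≤ n := by exact_mod_cast hn1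
      have ht0 : (0 : ℤ) ≤ t := by positivity
      zify
      rw [hn1', hr1']
      have g3 : (0 : ℤ) ≤ (r : ℤ) * r - n - 1 - r := by
        rw [hrt]
        nlinarith [mul_nonneg ht0 ht0, mul_nonneg ht0 (by linarith : (0 : ℤ) ≤ n)]
      have g4 : (4 * (n : ℤ) + 10) * ((r : ℤ) * r - n - 1 - r) ≤
          (2 * (J : ℤ) - r) * (2 * (B : ℤ) - r) :=
        mul_le_mul (by linarith) (by linarith) g3 (by linarith)
      have g5 : (r : ℤ) * r + (n - 1) * (r * (r - 1)) <
          (4 * (n : ℤ) + 10) * ((r : ℤ) * r - n - 1 - r) := by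
        rw [hrt]
        nlinarith [mul_nonneg ht0 ht0, mul_nonneg (mul_nonneg ht0 ht0) (by linarith : (0 : ℤ) ≤ n),
          mul_nonneg ht0 (by linarith : (0 : ℤ) ≤ n), mul_nonneg (by linarith : (0 : ℤ) ≤ n)
          (by linarith : (0 : ℤ) ≤ n), mul_nonneg (mul_nonneg ht0 (by linarith : (0 : ℤ) ≤ n))
          (by linarith : (0 : ℤ) ≤ n), mul_nonneg (mul_nonneg (by linarith : (0 : ℤ) ≤ n)
          (by linarith : (0 : ℤ) ≤ n)) (by linarith : (0 : ℤ) ≤ n)]
      nlinarith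
    have h3 : 2 * (2 * J * B) = (2 * J) * (2 * B) := by ring
    omega
  obtain ⟨rr, ss, hne, hrd, hsd, hx⟩ := st_exists (K := AlgebraicClosure (ZMod p)) (p := p) (M := 2 * m) (D := D')
    (by rw [hnD']; exact hn1) c (l := r) (B := B) (J := J) (by rw [hqr]; exact hrr) hdim
  have hDq : X ^ (p ^ (2 * m)) ∣ D' ^ (p ^ (2 * m)) - C (D'.coeff 0) := by
    have h1 := StD_dvd D (2 * m)
    have h2 := Polynomial.map_dvd (algebraMap (ZMod p) (AlgebraicClosure (ZMod p))) h1
    rw [Polynomial.map_sub, Polynomial.map_pow, Polynomial.map_pow, map_X, map_C] at h2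
    rw [hD', coeff_map]
    exact h2
  set Sm : (AlgebraicClosure (ZMod p))[X] := ∑ j : Fin J, (rr j + ss j * D' ^ ((p ^ (2 * m) - 1) / 2)) *
    X ^ (p ^ (2 * m) * (j : ℕ)) with hSm
  have hSm0 : Sm ≠ 0 := by
    intro h
    have h1 := StX_nonzero (K := AlgebraicClosure (ZMod p)) (q := p ^ (2 * m)) (n := n) (J := J) (D := D') hnD' hodd hqo
      hnq (by
        rw [hD', coeff_map]
        intro h2
        exact h0 ((map_eq_zero _).mp h2)) hDq rr ss (by rw [← hB]; exact hrd)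
      (by rw [← hB]; exact hsd) h
    obtain ⟨j, hj⟩ := hne
    rcases hj with hj | hj
    · exact hj (h1 j).1
    · exact hj (h1 j).2
  have hD'0 : D' ≠ 0 := by
    intro h
    rw [h, natDegree_zero] at hnD'
    omega
  have hR : D' ^ r * Sm ≠ 0 := mul_ne_zero (pow_ne_zero _ hD'0) hSm0
  have hcard : r * Z.card ≤ (D' ^ r * Sm).natDegree := by
    apply StD_card hR
    intro x hxZ k hk
    rw [hZ, Finset.mem_filter] at hxZ
    have h1 : x ^ (p ^ (2 * m)) = x := (mem_Km (by omega)).mp hxZ.1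
    have h2 : (D'.eval x) ^ ((p ^ (2 * m) - 1) / 2) = c := by
      rw [hD', eval_map_algebraMap]
      exact hxZ.2
    exact hx x h1 h2 k hk
  have hdeg : (D' ^ r * Sm).natDegree ≤ r * n + ((B - 1) + ((p ^ (2 * m) - 1) / 2) * n +
      p ^ (2 * m) * (J - 1)) := by
    refine le_trans natDegree_mul_le ?_
    have h1 : (D' ^ r).natDegree ≤ r * n := by
      refine le_trans natDegree_pow_le ?_
      rw [hnD']
    have h2 : Sm.natDegree ≤ (B - 1) + ((p ^ (2 * m) - 1) / 2) * n + p ^ (2 * m) * (J - 1) := by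
      rw [hSm]
      refine natDegree_sum_le_of_forall_le _ _ ?_
      intro j _
      refine le_trans natDegree_mul_le ?_
      have a1 : (X ^ (p ^ (2 * m) * (j : ℕ)) : (AlgebraicClosure (ZMod p))[X]).natDegree ≤ p ^ (2 * m) * (J - 1) := by
        rw [natDegree_X_pow]
        exact Nat.mul_le_mul_left _ (by have := j.2; omega)
      have nd : ∀ w : (AlgebraicClosure (ZMod p))[X], w.degree < (B : WithBot ℕ) → w.natDegree ≤ B - 1 := by
        intro w hw
        by_cases hw0 : w = 0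
        · rw [hw0]; simp
        · have := (natDegree_lt_iff_degree_lt hw0).mpr hw
          omega
      have a2 : (rr j + ss j * D' ^ ((p ^ (2 * m) - 1) / 2)).natDegree ≤
          (B - 1) + ((p ^ (2 * m) - 1) / 2) * n := by
        refine le_trans (natDegree_add_le _ _) (max_le ?_ ?_)
        · exact le_trans (nd _ (hrd j)) (Nat.le_add_right _ _)
        · refine le_trans natDegree_mul_le ?_
          have a3 : (D' ^ ((p ^ (2 * m) - 1) / 2)).natDegree ≤ ((p ^ (2 * m) - 1) / 2) * n := by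
            refine le_trans natDegree_pow_le ?_
            rw [hnD']
          have a4 := nd _ (hsd j)
          omega
      omega
    omega
  -- final arithmetic
  have h2e : 2 * ((p ^ (2 * m) - 1) / 2) + 1 = r * r := by
    obtain ⟨a, ha⟩ := hqo
    omega
  obtain ⟨e, he⟩ : ∃ e, e = (p ^ (2 * m) - 1) / 2 := ⟨_, rfl⟩
  rw [← he] at hdeg h2e
  clear hx
  rw [hqr] at hdeg
  suffices hsuf : 2 * Z.card ≤ r * r + (5 * n + 10) * r + 2 * n by
    rw [← hqr] at hsuf
    exact hsuf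
  have hB1 : 1 ≤ B := by
    have : r * r ≥ n + 4 := by omega
    omega
  have hJ1 : 1 ≤ J := by omega
  obtain ⟨b, rfl⟩ : ∃ b, B = b + 1 := ⟨B - 1, by omega⟩
  obtain ⟨j, rfl⟩ : ∃ j, J = j + 1 := ⟨J - 1, by omega⟩
  simp only [Nat.add_sub_cancel] at hdeg
  have hfin : r * (2 * Z.card) ≤ r * (r * r + (5 * n + 10) * r + 2 * n) := by
    have h1 : r * Z.card ≤ r * n + (b + e * n + r * r * j) := le_trans hcard hdeg
    have hj2 : 2 * j ≤ r + 4 * n + 9 := by omega
    have h2 : r * (2 * Z.card) ≤ 2 * (r * n) + (2 * b + (2 * e) * n + r * r * (2 * j)) := by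
      have : 2 * (r * Z.card) ≤ 2 * (r * n + (b + e * n + r * r * j)) := by omega
      calc r * (2 * Z.card) = 2 * (r * Z.card) := by ring
        _ ≤ 2 * (r * n + (b + e * n + r * r * j)) := this
        _ = _ := by ring
    have h2' : r * r * (2 * j) ≤ r * r * (r + 4 * n + 9) := Nat.mul_le_mul_left _ hj2
    have h3 : 2 * b + (2 * e) * n ≤ r * r + r * r * n := by
      have h4 : 2 * e ≤ r * r := by omega
      have h5 : (2 * e) * n ≤ r * r * n := Nat.mul_le_mul_right _ h4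
      omega
    calc r * (2 * Z.card) ≤ 2 * (r * n) + (2 * b + (2 * e) * n + r * r * (2 * j)) := h2
      _ ≤ 2 * (r * n) + (r * r + r * r * n + r * r * (r + 4 * n + 9)) := by omega
      _ = r * (r * r + (5 * n + 10) * r + 2 * n) := by ring
  exact Nat.le_of_mul_le_mul_left hfin hr0

theorem StX_am {p : ℕ} [Fact p.Prime] (p2 : p ≠ 2) {D : (ZMod p)[X]}
    {ξ : AlgebraicClosure (ZMod p)} (hn1 : 1 ≤ D.natDegree)
    (hodd : Odd ((D.map (algebraMap (ZMod p) (AlgebraicClosure (ZMod p)))).rootMultiplicity ξ))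
    (h0 : D.coeff 0 ≠ 0) {m : ℕ} (hm1 : 1 ≤ m)
    (hm : D.natDegree + 4 ≤ p ^ m) :
    |am D (2 * m)| ≤ (8 * (D.natDegree : ℤ) + 10) * (p : ℤ) ^ m := by
  classical
  have hp : p.Prime := Fact.out
  have hD : D ≠ 0 := by rintro rfl; simp at h0
  set K := AlgebraicClosure (ZMod p) with hK
  have h2 : (2 : K) ≠ 0 := StE_two_ne p2
  have hq : 9 ≤ p ^ (2 * m) := by
    have h3 : 3 ≤ p := by have := hp.two_le; omega
    calc 9 = 3 ^ 2 := by norm_num
      _ ≤ p ^ 2 := Nat.pow_le_pow_left h3 2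
      _ ≤ p ^ (2 * m) := Nat.pow_le_pow_right (by omega) (by omega)
  set e := (p ^ (2 * m) - 1) / 2 with he
  have he1 : 1 ≤ e := by omega
  have hc1 := StX_bound p2 hn1 hodd h0 hm1 hm (1 : K)
  have hc2 := StX_bound p2 hn1 hodd h0 hm1 hm (-1 : K)
  have hc0 := StE_zeros (p := p) hD (m := 2 * m) he1
  rw [← he] at hc1 hc2
  set N1 := ((Km p (2 * m)).filter (fun x => (aeval x D) ^ e = (1 : K))).card with hN1
  set N2 := ((Km p (2 * m)).filter (fun x => (aeval x D) ^ e = (-1 : K))).card with hN2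
  set N0 := ((Km p (2 * m)).filter (fun x => (aeval x D) ^ e = (0 : K))).card with hN0
  have hval : ∀ x ∈ Km p (2 * m), ((chi D (Mp (2 * m) x) : ℤ) : K) = (aeval x D) ^ e :=
    fun x hx => chi_Mp p2 D (by omega) hx
  have h1m : (1 : K) ≠ -1 := by
    intro h
    apply h2
    calc (2 : K) = 1 + 1 := by norm_num
      _ = 1 + -1 := by rw [← h]
      _ = 0 := by ring
  have hind : ∀ x ∈ Km p (2 * m),
      chi D (Mp (2 * m) x) = (if (aeval x D) ^ e = (1 : K) then 1 else 0) -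
        (if (aeval x D) ^ e = (-1 : K) then 1 else 0) ∧
      (1 : ℤ) = (if (aeval x D) ^ e = (1 : K) then 1 else 0) +
        (if (aeval x D) ^ e = (-1 : K) then 1 else 0) +
        (if (aeval x D) ^ e = (0 : K) then 1 else 0) := by
    intro x hx
    have hv := hval x hx
    rcases StE_chi_values D (Mp (2 * m) x) with h | h | h
    · rw [h, Int.cast_zero] at hv
      rw [h, ← hv]
      simp
    · rw [h, Int.cast_one] at hv
      rw [h, ← hv, if_pos rfl, if_neg h1m, if_neg one_ne_zero]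
      simp
    · rw [h, Int.cast_neg, Int.cast_one] at hv
      rw [h, ← hv, if_pos rfl, if_neg h1m.symm, if_neg (neg_ne_zero.2 one_ne_zero)]
      simp
  have ham : am D (2 * m) = (N1 : ℤ) - N2 := by
    unfold am
    rw [Finset.sum_congr rfl (fun x hx => (hind x hx).1), Finset.sum_sub_distrib,
      Finset.sum_boole, Finset.sum_boole]
  have hcard : ((p ^ (2 * m) : ℕ) : ℤ) = (N1 : ℤ) + N2 + N0 := by
    have h3 : ((Km p (2 * m)).card : ℤ) = ∑ x ∈ Km p (2 * m), (1 : ℤ) := by simp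
    rw [← card_Km (p := p) (m := 2 * m) (by omega), h3,
      Finset.sum_congr rfl (fun x hx => (hind x hx).2), Finset.sum_add_distrib,
      Finset.sum_add_distrib, Finset.sum_boole, Finset.sum_boole, Finset.sum_boole]
  have hc1' : (2 : ℤ) * N1 ≤ (p ^ (2 * m) : ℕ) + (5 * D.natDegree + 10) * (p : ℤ) ^ m +
      2 * D.natDegree := by exact_mod_cast hc1
  have hc2' : (2 : ℤ) * N2 ≤ (p ^ (2 * m) : ℕ) + (5 * D.natDegree + 10) * (p : ℤ) ^ m +
      2 * D.natDegree := by exact_mod_cast hc2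
  have hc0' : (N0 : ℤ) ≤ D.natDegree := by exact_mod_cast hc0
  have hr : (1 : ℤ) ≤ (p : ℤ) ^ m := by exact_mod_cast Nat.one_le_pow m p hp.pos
  have hnr : (D.natDegree : ℤ) ≤ D.natDegree * (p : ℤ) ^ m :=
    le_mul_of_one_le_right (by positivity) hr
  rw [ham, abs_le]
  constructor <;> nlinarith

theorem StX_simple {p : ℕ} [Fact p.Prime] {D : (ZMod p)[X]} (hD : OddF p D) :
    ∃ ξ : AlgebraicClosure (ZMod p),
      (D.map (algebraMap (ZMod p) (AlgebraicClosure (ZMod p)))).rootMultiplicity ξ = 1 := by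
  obtain ⟨P, D', hP, hirr, hodd, hPD, hn⟩ := hD.ex
  obtain ⟨ξ, hξ⟩ := IsAlgClosed.exists_aeval_eq_zero (AlgebraicClosure (ZMod p)) P
    (degree_pos_of_irreducible hirr).ne'
  refine ⟨ξ, ?_⟩
  have hD'0 : D' ≠ 0 := by
    rintro rfl
    exact hn (dvd_zero P)
  have hmin : P = minpoly (ZMod p) ξ := minpoly.eq_of_irreducible_of_monic hirr hξ hP
  have hD'ξ : aeval ξ D' ≠ 0 := by
    intro h
    apply hn
    rw [hmin]
    exact minpoly.dvd _ _ h
  have hsep : P.Separable := PerfectField.separable_of_irreducible hirr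
  have hinj := (algebraMap (ZMod p) (AlgebraicClosure (ZMod p))).injective
  have hP0 : P.map (algebraMap (ZMod p) (AlgebraicClosure (ZMod p))) ≠ 0 :=
    (Polynomial.map_ne_zero_iff hinj).2 hP.ne_zero
  have hD0 : D'.map (algebraMap (ZMod p) (AlgebraicClosure (ZMod p))) ≠ 0 :=
    (Polynomial.map_ne_zero_iff hinj).2 hD'0
  rw [hPD, Polynomial.map_mul, rootMultiplicity_mul (mul_ne_zero hP0 hD0)]
  have h1 : (P.map (algebraMap (ZMod p) (AlgebraicClosure (ZMod p)))).rootMultiplicity ξ = 1 := by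
    apply le_antisymm
    · exact rootMultiplicity_le_one_of_separable hsep.map ξ
    · rw [Nat.succ_le_iff, rootMultiplicity_pos hP0, IsRoot.def, eval_map_algebraMap]
      exact hξ
  have h2 : (D'.map (algebraMap (ZMod p) (AlgebraicClosure (ZMod p)))).rootMultiplicity ξ = 0 := by
    apply rootMultiplicity_eq_zero
    rw [IsRoot.def, eval_map_algebraMap]
    exact hD'ξ
  rw [h1, h2]

theorem am_boundX {p : ℕ} [Fact p.Prime] (p2 : p ≠ 2) {D : (ZMod p)[X]} (hD : OddF p D) :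
    ∃ (C : ℝ) (m0 : ℕ), ∀ m, m0 ≤ m → |((am D (2 * m) : ℤ) : ℝ)| ≤ C * (p : ℝ) ^ m := by
  have hpp : p.Prime := Fact.out
  obtain ⟨ξ, hξ⟩ := StX_simple hD
  have hD0 : D ≠ 0 := by
    rintro rfl
    exact hD.c0 (coeff_zero 0)
  have hn1 : 1 ≤ D.natDegree := by
    obtain ⟨P, D', hP, hirr, hodd, hPD, hn⟩ := hD.ex
    have hD'0 : D' ≠ 0 := by
      rintro rfl
      exact hn (dvd_zero P)
    rw [hPD, natDegree_mul hP.ne_zero hD'0]
    have := hodd.pos
    omega
  refine ⟨8 * (D.natDegree : ℝ) + 10, D.natDegree + 4, ?_⟩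
  intro m hm
  have h2 : 1 ≤ m := by omega
  have h3 : D.natDegree + 4 ≤ p ^ m := hm.trans (Nat.lt_pow_self hpp.one_lt).le
  have h4 := StX_am p2 (ξ := ξ) hn1 (by rw [hξ]; exact odd_one) hD.c0 h2 h3
  exact_mod_cast h4

end LIF
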