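import Pool.Agent.helper1.XLI.SdM
import Pool.Agent.helper1.LI.Lone
import Pool.Agent.helper1.LI.Par
import Pool.Agent.helper1.LI.Gauss2
import Pool.Agent.helper1.LI.Roots

/-!
[XLI-SumM] The sums modulo `4` (imports the stub `SdM`).

* `sum_odds_mod4`: `4 ∣ g`, `∏_{d odd < g} η_(2g)(γ^(p^d) - γ) = -1` ⇒ `∑_{d odd < g} S_d ≡ 2 (mod 4)`.
  With `t_d = ±1 ∈ ℤ` (`eta_diff_pm`, `Sd_mod4`): `S_d ≡ 1 + t_d (mod 4)`; the number of odd `d < g` is
  `g/2`, even, and `∏ t_d = -1` (cast to the algebraic closure, `1 ≠ -1` there) means that the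
  number of `d` with `t_d = -1` is odd, so the number `N` of `d` with `t_d = 1` is odd and
  `∑ (1 + t_d) = 2 N ≡ 2 (mod 4)`.
* `Sd_mid`: `4 ∣ S_g` if `g` is even and `S_(2g-d) = p^(g-d) S_d` for `d ≤ g`.  `sum_Sd` (`LI/Lone.lean`):
  `∑_{d ≤ 2g} S_d ≡ 2 (mod 4)`.  `∑_{d ≤ 2g} S_d = S_g + ∑_{d < g} S_d (1 + p^(g-d))`; the term `d = 0` is
  `1 + p^g ≡ 2 (mod 4)` (`g` even, `p` odd), the terms `0 < d < g` are products of two even numbers
  (`Sd_even` in `LI/Par.lean`).  So `S_g ≡ 0 (mod 4)`.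
-/

set_option autoImplicit false

namespace LIF

open Polynomial

theorem SumM_card (n : ℕ) : (odds (2 * n)).card = n := by
  induction n with
  | zero => simp [odds]
  | succ n ih =>
    have h1 : odds (2 * (n + 1)) = insert (2 * n + 1) (odds (2 * n)) := by
      ext d
      simp only [odds, Finset.mem_filter, Finset.mem_range, Finset.mem_insert]
      omega
    rw [h1, Finset.card_insert_of_notMem, ih]
    simp only [odds, Finset.mem_filter, Finset.mem_range]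
    omega

theorem SumM_comb (T : Finset ℕ) (t : ℕ → ℤ) (ht : ∀ d ∈ T, t d = 1 ∨ t d = -1) :
    ∃ N M : ℕ, T.card = N + M ∧ ∏ d ∈ T, t d = (-1) ^ M ∧ ∑ d ∈ T, (1 + t d) = 2 * N := by
  classical
  induction T using Finset.induction_on with
  | empty => exact ⟨0, 0, by simp⟩
  | insert a T ha ih =>
    obtain ⟨N, M, h1, h2, h3⟩ := ih fun d hd => ht d (Finset.mem_insert_of_mem hd)
    rw [Finset.card_insert_of_notMem ha, Finset.prod_insert ha, Finset.sum_insert ha, h1, h2, h3]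
    rcases ht a (Finset.mem_insert_self a T) with h | h
    · refine ⟨N + 1, M, by omega, by rw [h, one_mul], ?_⟩
      rw [h]
      push_cast
      ring
    · refine ⟨N, M + 1, by omega, by rw [h, pow_succ, mul_comm], ?_⟩
      rw [h]
      ring

theorem sum_odds_mod4 {p : ℕ} [Fact p.Prime] {g : ℕ} {h0 : (ZMod p)[X]} (hg : Good p g h0)
    (hg4 : 4 ∣ g) {γ : AlgebraicClosure (ZMod p)} (hγ : aeval γ h0 = 0)
    (hprod : ∏ d ∈ odds g, eta p (2 * g) (γ ^ (p ^ d) - γ) = -1) :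
    (4 : ℤ) ∣ (∑ d ∈ odds g, Sd (Dp h0) d) - 2 := by
  classical
  obtain ⟨m, hm⟩ := hg4
  have hcard : (odds g).card = 2 * m := by
    have := SumM_card (2 * m)
    rw [← mul_assoc] at this
    norm_num at this
    rw [hm]
    exact this
  have hmem : ∀ d ∈ odds g, 1 ≤ d ∧ d < 2 * g := by
    intro d hd
    simp only [odds, Finset.mem_filter, Finset.mem_range] at hd
    omega
  set t : ℕ → ℤ := fun d => if eta p (2 * g) (γ ^ (p ^ d) - γ) = 1 then 1 else -1 with htdef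
  have ht : ∀ d, t d = 1 ∨ t d = -1 := by
    intro d
    simp only [htdef]
    by_cases h : eta p (2 * g) (γ ^ (p ^ d) - γ) = 1
    · rw [if_pos h]; exact Or.inl rfl
    · rw [if_neg h]; exact Or.inr rfl
  have hte : ∀ d ∈ odds g,
      (t d : AlgebraicClosure (ZMod p)) = eta p (2 * g) (γ ^ (p ^ d) - γ) := by
    intro d hd
    obtain ⟨h1, h2⟩ := hmem d hd
    simp only [htdef]
    by_cases h : eta p (2 * g) (γ ^ (p ^ d) - γ) = 1
    · rw [if_pos h, h, Int.cast_one]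
    · rw [if_neg h]
      rcases eta_diff_pm hg hγ h1 h2 with h3 | h3
      · exact absurd h3 h
      · rw [h3, Int.cast_neg, Int.cast_one]
  obtain ⟨N, M, h1, h2, h3⟩ := SumM_comb (odds g) t fun d _ => ht d
  have h4 : ((∏ d ∈ odds g, t d : ℤ) : AlgebraicClosure (ZMod p)) = -1 := by
    rw [Int.cast_prod, Finset.prod_congr rfl hte, hprod]
  have hMo : Odd M := by
    by_contra hM
    rw [Nat.not_odd_iff_even] at hM
    rw [h2, hM.neg_one_pow, Int.cast_one] at h4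
    apply SdM_two (p := p) hg.p2
    calc (2 : AlgebraicClosure (ZMod p)) = 1 + 1 := by norm_num
      _ = 1 + -1 := by rw [← h4]
      _ = 0 := by ring
  have h5 : (4 : ℤ) ∣ ∑ d ∈ odds g, (Sd (Dp h0) d - (1 + t d)) :=
    Finset.dvd_sum fun d hd => Sd_mod4 hg hγ (hmem d hd).1 (hmem d hd).2 (ht d) (hte d hd)
  rw [Finset.sum_sub_distrib, h3] at h5
  obtain ⟨M', hM'⟩ := hMo
  obtain ⟨x, hx⟩ := h5
  obtain ⟨N', hN'⟩ : ∃ N', N = 2 * N' + 1 := ⟨N / 2, by omega⟩
  refine ⟨x + N', ?_⟩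
  have : (N : ℤ) = 2 * N' + 1 := by exact_mod_cast hN'
  rw [this] at hx
  linarith

theorem Sd_mid {p : ℕ} [Fact p.Prime] {g : ℕ} {h0 : (ZMod p)[X]} (hg : Good p g h0)
    (ge : Even g)
    (hfe : ∀ d ≤ g, Sd (Dp h0) (2 * g - d) = (p : ℤ) ^ (g - d) * Sd (Dp h0) d) :
    (4 : ℤ) ∣ Sd (Dp h0) g := by
  have h1 := sum_Sd hg
  have hp : Odd (p : ℤ) := by exact_mod_cast Par_odd hg.p2
  have h2 : ∑ d ∈ Finset.range (2 * g + 1), Sd (Dp h0) d =
      ∑ d ∈ Finset.range g, (1 + (p : ℤ) ^ (g - d)) * Sd (Dp h0) d + Sd (Dp h0) g := by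
    rw [show 2 * g + 1 = g + (g + 1) by ring, Finset.sum_range_add,
      Finset.sum_range_succ' (fun x => Sd (Dp h0) (g + x)), Nat.add_zero, ← add_assoc]
    congr 1
    rw [← Finset.sum_range_reflect (fun x => Sd (Dp h0) (g + (x + 1))), ← Finset.sum_add_distrib]
    refine Finset.sum_congr rfl fun d hd => ?_
    rw [Finset.mem_range] at hd
    rw [show g + (g - 1 - d + 1) = 2 * g - d by omega, hfe d hd.le]
    ring
  have hg1 := hg.g1
  obtain ⟨g', hg'⟩ : ∃ g', g = g' + 1 := ⟨g - 1, by omega⟩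
  have h3 : ∑ d ∈ Finset.range g, (1 + (p : ℤ) ^ (g - d)) * Sd (Dp h0) d =
      ∑ d ∈ Finset.range g', (1 + (p : ℤ) ^ (g - (d + 1))) * Sd (Dp h0) (d + 1) +
        (1 + (p : ℤ) ^ g) := by
    have h5 : Finset.range g = Finset.range (g' + 1) := by rw [hg']
    rw [h5, Finset.sum_range_succ' (fun d => (1 + (p : ℤ) ^ (g - d)) * Sd (Dp h0) d), Roots_S0 0,
      mul_one, Nat.sub_zero]
  have h4 : (4 : ℤ) ∣ ∑ d ∈ Finset.range g',
      (1 + (p : ℤ) ^ (g - (d + 1))) * Sd (Dp h0) (d + 1) := by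
    refine Finset.dvd_sum fun d hd => ?_
    rw [Finset.mem_range] at hd
    obtain ⟨u, hu⟩ := Sd_even hg (d := d + 1) (by omega) (by omega)
    obtain ⟨w, hw⟩ := hp.pow (n := g - (d + 1))
    rw [hu, hw]
    exact ⟨(1 + w) * u, by ring⟩
  have h6 : (1 + (p : ℤ) ^ g) % 4 = 2 := by
    obtain ⟨a, ha⟩ := ge
    obtain ⟨b, hb⟩ := hp.pow (n := a)
    rw [ha, pow_add, hb]
    have h7 : (1 + (2 * b + 1) * (2 * b + 1) : ℤ) = 4 * (b * b + b) + 2 := by ring
    rw [h7]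
    omega
  rw [h2, h3] at h1
  omega

end LIF
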