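import Pool.Agent.helper1.XLI.Defs
import Pool.Agent.helper1.GLI.RVal

/-!
[XLI-XVal] `2`-adic valuations of the roots of `R` (adapt `GLI/RVal.lean` by helper10). Proofs by helper11.

`R` as in `XCond k`, `k ≥ 2`, `g = 2^k`, `R = ∏ (X - y_i)` in `E[X]`, `v` the valuation of `A`, `v(2) < 1`.

* `xval_y`: `v(y_i)^g = v(2)`: `y^g = - R_0 - ∑_{0<j<g} R_j y^j`; `v(R_0) = v(2)`;
  `v(R_j y^j) ≤ v(2) v(y)`.  First `v(y) ≤ 1` (integral), then `v(y) < 1` (`2` divides all the `R_j`),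
  so `v(R_j y^j) < v(2)` for `j ≥ 1`.
* Put `y = y_i`, `δ = y_j - y`, `j ≠ i`.  `R(y + X) = ∑_{m ≥ 1} c_m X^m`,
  `c_m = ∑_{j ≥ m} C(j, m) R_j y^(j-m)`, `c_g = 1`; for `1 ≤ m < g`: `v(c_m) ≤ v(2)` (`2 ∣ R_j` for
  `1 ≤ j < g`, and `2 ∣ C(2^k, m)`: `four_dvd_choose`), and
  `v(c_1 - R_1) ≤ v(2) v(y)`: `c_1 - R_1 = 2 R_2 y + ... + (g-1) R_(g-1) y^(g-2) + g y^(g-1)`.
  So `v(c_1) = v(R_1) = v(2)` (`R_1 = 2 *` odd, `v(y) < 1`).
  `δ ≠ 0` is a root: `δ^(g-1) = - c_1 - ∑_{2 ≤ m < g} c_m δ^(m-1)`.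
* `xval_diff`: `v(δ)^(g-1) = v(2)`: `v(δ) ≤ 1` (integral) so `v(δ)^(g-1) ≤ v(2)`, so `v(δ) < 1`, so
  the terms `m ≥ 2` have valuation `< v(2) = v(c_1)`.
* `xval_ka`: `v(y^g - δ^(g-1)) ≤ v(2) v(y)`: `v(y^g + R_0) ≤ v(2) v(y)` (terms `j ≥ 1`);
  `v(δ^(g-1) + R_1) ≤ v(2) v(y)`: from `c_1 - R_1`, and from the terms `m ≥ 2`, `≤ v(2) v(δ)` and
  `v(δ) < v(y)` (`v(δ)^(g(g-1)) = v(2)^g < v(2)^(g-1) = v(y)^(g(g-1))`); `R_0 - R_1 ≡ 0 (mod 4)`, so
  `v(R_0 - R_1) ≤ v(2)^2 ≤ v(2) v(y)` (`v(2) ≤ v(y)` because `v(y)^g = v(2)` and `v(y) ≤ 1`).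
-/

set_option autoImplicit false

namespace LIF

open Polynomial

section XValR

variable {k : ℕ} {R : ℤ[X]} {E : Type*} [Field E] (A : ValuationSubring E)

theorem XVal_coeff (hR : XCond k R) {j : ℕ} (h1 : 1 ≤ j) (h2 : j < 2 ^ k) :
    A.valuation ((R.coeff j : ℤ) : E) ≤ A.valuation (2 : E) :=
  RVal_dvd2 A (hR.c2 j h1 h2)

theorem XVal_coeff_top (hR : XCond k R) : R.coeff (2 ^ k) = 1 := by
  rw [← hR.deg]
  exact hR.mon

theorem XVal_mod4 (h2 : A.valuation (2 : E) < 1) {c : ℤ} (hc : c % 4 = 2) :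
    A.valuation ((c : ℤ) : E) = A.valuation (2 : E) := by
  obtain ⟨m, hm, hm2⟩ := RVal_mod4_dvd hc
  rw [hm, Int.cast_mul, map_mul, RVal_odd A h2 hm2, mul_one]
  norm_num

theorem XVal_natDegree (hR : XCond k R) :
    (R.map (Int.castRingHom E)).natDegree = 2 ^ k := by
  rw [hR.mon.natDegree_map, hR.deg]

theorem XVal_root {y : Fin (2 ^ k) → E}
    (hy : R.map (Int.castRingHom E) = ∏ i, (X - C (y i))) (i : Fin (2 ^ k)) :
    (R.map (Int.castRingHom E)).eval (y i) = 0 := by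
  rw [hy, eval_prod]
  exact Finset.prod_eq_zero (Finset.mem_univ i) (by simp)

theorem XVal_le_one (hR : XCond k R) {x : E} (hx : (R.map (Int.castRingHom E)).eval x = 0) :
    A.valuation x ≤ 1 := by
  refine val_le_one A ⟨R, hR.mon, ?_⟩
  rw [eval_map] at hx
  exact hx

/-- `x^g + R_0` -/
theorem XVal_xg (hR : XCond k R) {x : E} (hx : (R.map (Int.castRingHom E)).eval x = 0) :
    A.valuation (x ^ (2 ^ k) + ((R.coeff 0 : ℤ) : E)) ≤ A.valuation (2 : E) * A.valuation x := by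
  have hx1 := XVal_le_one A hR hx
  have hg : (2 : ℕ) ^ k = (2 ^ k - 1) + 1 := (Nat.sub_add_cancel Nat.one_le_two_pow).symm
  rw [eval_eq_sum_range, XVal_natDegree hR, Finset.sum_range_succ, hg,
    Finset.sum_range_succ', ← hg] at hx
  simp only [coeff_map, eq_intCast, XVal_coeff_top hR, Int.cast_one, one_mul, pow_zero,
    mul_one] at hx
  have h3 : x ^ (2 ^ k) + ((R.coeff 0 : ℤ) : E) = -(∑ j ∈ Finset.range (2 ^ k - 1),
      ((R.coeff (j + 1) : ℤ) : E) * x ^ (j + 1)) := by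
    linear_combination hx
  rw [h3, Valuation.map_neg]
  refine A.valuation.map_sum_le (fun j hj => ?_)
  rw [Finset.mem_range] at hj
  rw [map_mul, map_pow, pow_succ, ← mul_assoc]
  refine mul_le_mul_left ?_ _
  exact (mul_le_of_le_one_right' (pow_le_one' hx1 _)).trans
    (XVal_coeff A hR (by omega) (by omega))

theorem XVal_pow_le (hR : XCond k R) (h2 : A.valuation (2 : E) < 1) {x : E}
    (hx : (R.map (Int.castRingHom E)).eval x = 0) :
    A.valuation x ^ (2 ^ k) ≤ A.valuation (2 : E) := by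
  have hx1 := XVal_le_one A hR hx
  have h1 := XVal_xg A hR hx
  have h3 : x ^ (2 ^ k) = (x ^ (2 ^ k) + ((R.coeff 0 : ℤ) : E)) - ((R.coeff 0 : ℤ) : E) := by ring
  rw [← map_pow, h3]
  refine (A.valuation.map_sub _ _).trans (max_le ?_ ?_)
  · exact h1.trans (mul_le_of_le_one_right' hx1)
  · exact (XVal_mod4 A h2 hR.c0).le

theorem XVal_lt_one (hR : XCond k R) (h2 : A.valuation (2 : E) < 1) {x : E}
    (hx : (R.map (Int.castRingHom E)).eval x = 0) : A.valuation x < 1 := by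
  by_contra hcon
  rw [not_lt] at hcon
  have h3 : (1 : A.ValueGroup) ≤ A.valuation x ^ (2 ^ k) := one_le_pow_of_one_le' hcon _
  exact absurd (h3.trans (XVal_pow_le A hR h2 hx)) (not_le.2 h2)

theorem XVal_x [CharZero E] (hR : XCond k R) (h2 : A.valuation (2 : E) < 1) {x : E}
    (hx : (R.map (Int.castRingHom E)).eval x = 0) :
    A.valuation x ^ (2 ^ k) = A.valuation (2 : E) := by
  have hx1 := XVal_lt_one A hR h2 hx
  have h20 : 0 < A.valuation (2 : E) := zero_lt_iff.2 (RVal_two_ne A)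
  have h1 : A.valuation (x ^ (2 ^ k) + ((R.coeff 0 : ℤ) : E)) <
      A.valuation ((R.coeff 0 : ℤ) : E) := by
    rw [XVal_mod4 A h2 hR.c0]
    exact (XVal_xg A hR hx).trans_lt (mul_lt_of_lt_one_right h20 hx1)
  have h3 : x ^ (2 ^ k) = -(((R.coeff 0 : ℤ) : E) - (x ^ (2 ^ k) + ((R.coeff 0 : ℤ) : E))) := by
    ring
  rw [← map_pow, h3, Valuation.map_neg, Valuation.map_sub_eq_of_lt_left _ h1,
    XVal_mod4 A h2 hR.c0]

theorem XVal_taylor (hR : XCond k R) (x : E) (m : ℕ) :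
    (taylor x (R.map (Int.castRingHom E))).coeff m =
      ∑ j ∈ Finset.range (2 ^ k + 1),
        ((j.choose m : ℕ) : E) * ((R.coeff j : ℤ) : E) * x ^ (j - m) := by
  rw [taylor_coeff, hasseDeriv_apply, sum_over_range, XVal_natDegree hR, eval_finsetSum]
  · refine Finset.sum_congr rfl (fun j _ => ?_)
    rw [eval_monomial, coeff_map]
    rfl
  · intro n
    simp

theorem XVal_choose {k m : ℕ} (h0 : 0 < m) (hm : m < 2 ^ k) :
    A.valuation ((((2 ^ k).choose m : ℕ) : E)) ≤ A.valuation (2 : E) := by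
  have := RVal_dvd2 (E := E) A (c := (((2 ^ k).choose m : ℕ) : ℤ))
    (by exact_mod_cast Nat.prime_two.dvd_choose_pow h0.ne' hm.ne)
  simpa using this

/-- the coefficients `c_m`, `1 ≤ m < g`, of `R(x + X)` -/
theorem XVal_cm (hR : XCond k R) {x : E}
    (hx : (R.map (Int.castRingHom E)).eval x = 0) {m : ℕ} (hm1 : 1 ≤ m) (hm : m < 2 ^ k) :
    A.valuation ((taylor x (R.map (Int.castRingHom E))).coeff m) ≤ A.valuation (2 : E) := by
  have hx1 := XVal_le_one A hR hx
  rw [XVal_taylor hR]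
  refine A.valuation.map_sum_le (fun j hj => ?_)
  rw [Finset.mem_range] at hj
  rw [map_mul, map_mul, map_pow]
  refine (mul_le_of_le_one_right' (pow_le_one' hx1 _)).trans ?_
  rcases Nat.lt_or_ge j (2 ^ k) with hjg | hjg
  · rcases Nat.lt_or_ge j m with hjm | hjm
    · rw [Nat.choose_eq_zero_of_lt hjm]
      simp
    · have hn : A.valuation ((j.choose m : ℕ) : E) ≤ 1 := by
        simp
      exact (mul_le_of_le_one_left' hn).trans (XVal_coeff A hR (by omega) hjg)
  · have hj' : j = 2 ^ k := by omega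
    subst hj'
    rw [XVal_coeff_top hR]
    simp only [Int.cast_one, map_one, mul_one]
    exact XVal_choose A hm1 hm

/-- the value of `c_1 - R_1` -/
theorem XVal_c1 (hk : 2 ≤ k) (hR : XCond k R) {x : E}
    (hx : (R.map (Int.castRingHom E)).eval x = 0) :
    A.valuation ((taylor x (R.map (Int.castRingHom E))).coeff 1 - ((R.coeff 1 : ℤ) : E)) ≤
      A.valuation (2 : E) * A.valuation x := by
  have hx1 := XVal_le_one A hR hx
  have hge : 4 ≤ 2 ^ k := by
    calc 4 = 2 ^ 2 := by norm_num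
      _ ≤ 2 ^ k := Nat.pow_le_pow_right (by norm_num) hk
  rw [XVal_taylor hR, ← Finset.add_sum_erase _ _ (Finset.mem_range.2
    (show 1 < 2 ^ k + 1 by omega))]
  have hmain : (((Nat.choose 1 1 : ℕ) : E) * ((R.coeff 1 : ℤ) : E) * x ^ (1 - 1)) =
      ((R.coeff 1 : ℤ) : E) := by
    simp
  rw [hmain, add_sub_cancel_left]
  refine A.valuation.map_sum_le (fun j hj => ?_)
  rw [Finset.mem_erase, Finset.mem_range] at hj
  obtain ⟨hj2, hj1⟩ := hj
  rcases Nat.eq_zero_or_pos j with rfl | hj0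
  · simp only [Nat.choose_zero_succ, Nat.cast_zero, zero_mul, map_zero]
    exact zero_le
  · have hpow : x ^ (j - 1) = x ^ (j - 2) * x := by
      rw [← pow_succ]
      congr 1
      omega
    rw [map_mul, hpow, map_mul A.valuation (x ^ (j - 2)) x, map_pow, ← mul_assoc]
    refine mul_le_mul_left ?_ _
    refine (mul_le_of_le_one_right' (pow_le_one' hx1 _)).trans ?_
    rw [map_mul]
    rcases Nat.lt_or_ge j (2 ^ k) with hjg | hjg
    · have hn : A.valuation ((j.choose 1 : ℕ) : E) ≤ 1 := by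
        simp
      exact (mul_le_of_le_one_left' hn).trans (XVal_coeff A hR (by omega) hjg)
    · have hj' : j = 2 ^ k := by omega
      subst hj'
      rw [XVal_coeff_top hR, Int.cast_one, map_one, mul_one]
      exact XVal_choose A (by omega) (by omega)

/-- the equation for a difference `δ ≠ 0` of two roots -/
theorem XVal_delta (hR : XCond k R) {x δ : E}
    (hx : (R.map (Int.castRingHom E)).eval x = 0) (hδ0 : δ ≠ 0) (hδ1 : A.valuation δ ≤ 1)
    (hx' : (R.map (Int.castRingHom E)).eval (x + δ) = 0) (hk : 2 ≤ k) :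
    A.valuation (δ ^ (2 ^ k - 1) + (taylor x (R.map (Int.castRingHom E))).coeff 1) ≤
      A.valuation (2 : E) * A.valuation δ := by
  have hge : 4 ≤ 2 ^ k := by
    calc 4 = 2 ^ 2 := by norm_num
      _ ≤ 2 ^ k := Nat.pow_le_pow_right (by norm_num) hk
  have hev : (taylor x (R.map (Int.castRingHom E))).eval δ = 0 := by
    rw [taylor_eval, add_comm δ x, hx']
  have hnd : (taylor x (R.map (Int.castRingHom E))).natDegree = 2 ^ k := by
    rw [natDegree_taylor, XVal_natDegree hR]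
  have htop : (taylor x (R.map (Int.castRingHom E))).coeff (2 ^ k) = 1 := by
    rw [← XVal_natDegree (E := E) hR, coeff_taylor_natDegree]
    exact hR.mon.map _
  have hc0 : (taylor x (R.map (Int.castRingHom E))).coeff 0 = 0 := by
    rw [taylor_coeff_zero, hx]
  obtain ⟨n, hn⟩ : ∃ n, 2 ^ k = n + 2 := ⟨2 ^ k - 2, by omega⟩
  rw [eval_eq_sum_range, hnd, Finset.sum_range_succ, htop, one_mul, hn,
    Finset.sum_range_succ', Finset.sum_range_succ', hc0, ← hn] at hev
  have h3 : δ * (δ ^ (2 ^ k - 1) + (taylor x (R.map (Int.castRingHom E))).coeff 1) =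
      δ * -(∑ m ∈ Finset.range n,
        (taylor x (R.map (Int.castRingHom E))).coeff (m + 1 + 1) * δ ^ (m + 1)) := by
    have e1 : δ * -(∑ m ∈ Finset.range n,
        (taylor x (R.map (Int.castRingHom E))).coeff (m + 1 + 1) * δ ^ (m + 1)) =
        -(∑ m ∈ Finset.range n,
        (taylor x (R.map (Int.castRingHom E))).coeff (m + 1 + 1) * δ ^ (m + 1 + 1)) := by
      rw [mul_neg, Finset.mul_sum]
      congr 1
      refine Finset.sum_congr rfl (fun m _ => ?_)
      ring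
    have e2 : δ * δ ^ (2 ^ k - 1) = δ ^ (2 ^ k) := by
      rw [← pow_succ']
      congr 1
      omega
    rw [e1, mul_add, e2]
    linear_combination hev
  have h4 := mul_left_cancel₀ hδ0 h3
  rw [h4, Valuation.map_neg]
  refine A.valuation.map_sum_le (fun m hm => ?_)
  rw [Finset.mem_range] at hm
  rw [map_mul, map_pow, pow_succ, ← mul_assoc]
  refine mul_le_mul_left ?_ _
  exact (mul_le_of_le_one_right' (pow_le_one' hδ1 _)).trans
    (XVal_cm A hR hx (by omega) (by omega))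

theorem XVal_c1v [CharZero E] (hk : 2 ≤ k) (hR : XCond k R) (h2 : A.valuation (2 : E) < 1) {x : E}
    (hx : (R.map (Int.castRingHom E)).eval x = 0) :
    A.valuation ((taylor x (R.map (Int.castRingHom E))).coeff 1) = A.valuation (2 : E) := by
  have hx1 := XVal_lt_one A hR h2 hx
  have h20 : 0 < A.valuation (2 : E) := zero_lt_iff.2 (RVal_two_ne A)
  have h1 : A.valuation ((taylor x (R.map (Int.castRingHom E))).coeff 1 -
      ((R.coeff 1 : ℤ) : E)) < A.valuation ((R.coeff 1 : ℤ) : E) := by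
    rw [XVal_mod4 A h2 hR.c1]
    exact (XVal_c1 A hk hR hx).trans_lt (mul_lt_of_lt_one_right h20 hx1)
  have h3 := Valuation.map_add_eq_of_lt_left _ h1
  rw [add_sub_cancel, XVal_mod4 A h2 hR.c1] at h3
  exact h3

theorem XVal_diff [CharZero E] (hk : 2 ≤ k) (hR : XCond k R) (h2 : A.valuation (2 : E) < 1)
    {x δ : E} (hx : (R.map (Int.castRingHom E)).eval x = 0) (hδ0 : δ ≠ 0)
    (hδ1 : A.valuation δ ≤ 1) (hx' : (R.map (Int.castRingHom E)).eval (x + δ) = 0) :
    A.valuation δ ^ (2 ^ k - 1) = A.valuation (2 : E) := by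
  have hge : 4 ≤ 2 ^ k := by
    calc 4 = 2 ^ 2 := by norm_num
      _ ≤ 2 ^ k := Nat.pow_le_pow_right (by norm_num) hk
  have h20 : 0 < A.valuation (2 : E) := zero_lt_iff.2 (RVal_two_ne A)
  have h1 := XVal_delta A hR hx hδ0 hδ1 hx' hk
  have hc := XVal_c1v A hk hR h2 hx
  have h3 : δ ^ (2 ^ k - 1) = (δ ^ (2 ^ k - 1) +
      (taylor x (R.map (Int.castRingHom E))).coeff 1) -
      (taylor x (R.map (Int.castRingHom E))).coeff 1 := by ring
  have h4 : A.valuation δ ^ (2 ^ k - 1) ≤ A.valuation (2 : E) := by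
    rw [← map_pow, h3]
    refine (A.valuation.map_sub _ _).trans (max_le ?_ hc.le)
    exact h1.trans (mul_le_of_le_one_right' hδ1)
  have hlt : A.valuation δ < 1 := by
    by_contra hcon
    rw [not_lt] at hcon
    have h5 : (1 : A.ValueGroup) ≤ A.valuation δ ^ (2 ^ k - 1) := one_le_pow_of_one_le' hcon _
    exact absurd (h5.trans h4) (not_le.2 h2)
  have h6 : A.valuation (δ ^ (2 ^ k - 1) + (taylor x (R.map (Int.castRingHom E))).coeff 1) <
      A.valuation ((taylor x (R.map (Int.castRingHom E))).coeff 1) := by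
    rw [hc]
    exact h1.trans_lt (mul_lt_of_lt_one_right h20 hlt)
  have h7 : δ ^ (2 ^ k - 1) = -((taylor x (R.map (Int.castRingHom E))).coeff 1 -
      (δ ^ (2 ^ k - 1) + (taylor x (R.map (Int.castRingHom E))).coeff 1)) := by ring
  rw [← map_pow, h7, Valuation.map_neg, Valuation.map_sub_eq_of_lt_left _ h6, hc]

end XValR

variable {k : ℕ} {R : ℤ[X]} {E : Type*} [Field E] [CharZero E]

theorem xval_y (hk : 2 ≤ k) (hR : XCond k R) (A : ValuationSubring E)
    (h2 : A.valuation (2 : E) < 1) {y : Fin (2 ^ k) → E}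
    (hy : R.map (Int.castRingHom E) = ∏ i, (X - C (y i))) (i : Fin (2 ^ k)) :
    A.valuation (y i) ^ (2 ^ k) = A.valuation (2 : E) :=
  XVal_x A hR h2 (XVal_root hy i)

theorem xval_diff (hk : 2 ≤ k) (hR : XCond k R) (A : ValuationSubring E)
    (h2 : A.valuation (2 : E) < 1) {y : Fin (2 ^ k) → E}
    (hy : R.map (Int.castRingHom E) = ∏ i, (X - C (y i))) (hinj : Function.Injective y)
    {i j : Fin (2 ^ k)} (hij : j ≠ i) :
    A.valuation (y j - y i) ^ (2 ^ k - 1) = A.valuation (2 : E) := by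
  refine XVal_diff A hk hR h2 (XVal_root hy i) (sub_ne_zero.2 (hinj.ne hij)) ?_ ?_
  · exact (A.valuation.map_sub _ _).trans (max_le (XVal_le_one A hR (XVal_root hy j))
      (XVal_le_one A hR (XVal_root hy i)))
  · rw [add_sub_cancel]
    exact XVal_root hy j

theorem xval_ka (hk : 2 ≤ k) (hR : XCond k R) (A : ValuationSubring E)
    (h2 : A.valuation (2 : E) < 1) {y : Fin (2 ^ k) → E}
    (hy : R.map (Int.castRingHom E) = ∏ i, (X - C (y i))) (hinj : Function.Injective y)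
    {i j : Fin (2 ^ k)} (hij : j ≠ i) :
    A.valuation (y i ^ (2 ^ k) - (y j - y i) ^ (2 ^ k - 1)) ≤
      A.valuation (2 : E) * A.valuation (y i) := by
  have hge : 4 ≤ 2 ^ k := by
    calc 4 = 2 ^ 2 := by norm_num
      _ ≤ 2 ^ k := Nat.pow_le_pow_right (by norm_num) hk
  have hxi := XVal_root hy i
  have hxj := XVal_root hy j
  have hd1 : A.valuation (y j - y i) ≤ 1 :=
    (A.valuation.map_sub _ _).trans (max_le (XVal_le_one A hR hxj) (XVal_le_one A hR hxi))
  have hyg := xval_y hk hR A h2 hy i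
  have hdg := xval_diff hk hR A h2 hy hinj hij
  have hdy : A.valuation (y j - y i) ≤ A.valuation (y i) := by
    refine RVal_le_of_pow (n := (2 ^ k - 1) * 2 ^ k) ?_ ?_
    · exact Nat.mul_ne_zero (by omega) (by omega)
    · rw [pow_mul, hdg, mul_comm (2 ^ k - 1), pow_mul, hyg]
      exact RVal_pow_anti h2.le (by omega)
  have h2y : A.valuation (2 : E) ≤ A.valuation (y i) := by
    rw [← hyg]
    calc A.valuation (y i) ^ (2 ^ k) ≤ A.valuation (y i) ^ 1 :=
          RVal_pow_anti (XVal_le_one A hR hxi) (by omega)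
      _ = A.valuation (y i) := pow_one _
  have t1 := XVal_xg A hR hxi
  have t2 : A.valuation ((y j - y i) ^ (2 ^ k - 1) +
      (taylor (y i) (R.map (Int.castRingHom E))).coeff 1) ≤
      A.valuation (2 : E) * A.valuation (y i) := by
    refine (XVal_delta A hR hxi (sub_ne_zero.2 (hinj.ne hij)) hd1 ?_ hk).trans ?_
    · rw [add_sub_cancel]
      exact hxj
    · exact mul_le_mul_right hdy _
  have t3 := XVal_c1 A hk hR hxi
  have t4 : A.valuation (((R.coeff 1 : ℤ) : E) - ((R.coeff 0 : ℤ) : E)) ≤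
      A.valuation (2 : E) * A.valuation (y i) := by
    have h4 : (4 : ℤ) ∣ R.coeff 1 - R.coeff 0 := by
      have := hR.c0
      have := hR.c1
      omega
    rw [← Int.cast_sub]
    refine (RVal_dvd4 A h4).trans ?_
    rw [RVal_four_eq, pow_two]
    exact mul_le_mul_right h2y _
  have e : y i ^ (2 ^ k) - (y j - y i) ^ (2 ^ k - 1) =
      (((y i ^ (2 ^ k) + ((R.coeff 0 : ℤ) : E)) - ((y j - y i) ^ (2 ^ k - 1) +
        (taylor (y i) (R.map (Int.castRingHom E))).coeff 1)) +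
        ((taylor (y i) (R.map (Int.castRingHom E))).coeff 1 - ((R.coeff 1 : ℤ) : E))) +
        (((R.coeff 1 : ℤ) : E) - ((R.coeff 0 : ℤ) : E)) := by
    ring
  rw [e]
  refine (A.valuation.map_add _ _).trans (max_le ?_ t4)
  refine (A.valuation.map_add _ _).trans (max_le ?_ t3)
  exact (A.valuation.map_sub _ _).trans (max_le t1 t2)

end LIF
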