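import Pool.Agent.helper1.XLI.XBase
import Pool.Agent.helper1.XLI.XVal
import Pool.Agent.helper1.GLI.AVal

/-!
[XLI-XTwo] Assembly of `TwoX` (imports the stubs `XBase`, `XVal`; adapt `two_ad`, `val_unit` in
`GLI/AVal.lean` by helper59; `alpha_val` there can be used as it is).

`y_i = a_i + p/a_i` are the distinct roots of `R` (`real_mapB`, `y_injB`), `R` satisfies `XCond` (`xcond`),
so `xval_y`, `xval_diff`, `xval_ka` give `vy`, `di`, `ka`.  `a_i` and `p/a_i` are integral and their
product `p` is odd, so both have valuation `1`; `v(p - 1) ≤ v(2)`; `alpha_val` gives `al`, and for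
`p/a_i` in the place of `a_i` it gives `al'` (`p/(p/a_i) = a_i`).
-/

set_option autoImplicit false

namespace LIF

open Polynomial

theorem XTwo_unit {p k : ℕ} {f : ℤ[X]} (h : GoodX p k f) {E : Type*} [Field E] [CharZero E]
    {a : Fin (2 ^ k) → E} (hs : Spl p f a) (A : ValuationSubring E)
    (h2 : A.valuation (2 : E) < 1) (i : Fin (2 ^ k)) :
    A.valuation (a i) = 1 ∧ A.valuation ((p : E) / a i) = 1 := by
  obtain ⟨ha, -⟩ := roots_injB h.toBaseF hs
  have hint : ∀ x : E, (f.map (Int.castRingHom E)).eval x = 0 → IsIntegral ℤ x := by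
    intro x hx
    refine ⟨f, h.mon, ?_⟩
    rw [← hx, eval_map]
    rfl
  have h1 : A.valuation (a i) ≤ 1 := by
    refine val_le_one A (hint _ ?_)
    rw [hs, eval_prod]
    refine Finset.prod_eq_zero (Finset.mem_univ i) ?_
    simp
  have h3 : A.valuation ((p : E) / a i) ≤ 1 := by
    refine val_le_one A (hint _ ?_)
    rw [hs, eval_prod]
    refine Finset.prod_eq_zero (Finset.mem_univ i) ?_
    simp
  have h4 : A.valuation (p : E) = 1 := by
    have h5 := val_int_unit (E := E) A (p := 2) (by exact_mod_cast h2) (c := (p : ℤ)) (by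
      have := h.podd
      omega)
    rwa [Int.cast_natCast] at h5
  have h6 : A.valuation (a i) * A.valuation ((p : E) / a i) = 1 := by
    rw [← map_mul, mul_div_cancel₀ _ (ha i), h4]
  have h7 : A.valuation (a i) = 1 := by
    refine le_antisymm h1 ?_
    calc (1 : A.ValueGroup) = A.valuation (a i) * A.valuation ((p : E) / a i) := h6.symm
      _ ≤ A.valuation (a i) * 1 := mul_le_mul_right h3 _
      _ = _ := mul_one _
  refine ⟨h7, ?_⟩
  rwa [h7, one_mul] at h6

theorem two_x {p k : ℕ} {f : ℤ[X]} (h : GoodX p k f) {E : Type*} [Field E] [CharZero E]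
    {a : Fin (2 ^ k) → E} (hs : Spl p f a) (A : ValuationSubring E)
    (h2 : A.valuation (2 : E) < 1) : TwoX p k A a := by
  have hmap := real_mapB h.toBaseF hs
  have hinj := y_injB h.toBaseF hs
  have hR := xcond h
  have hk : 2 ≤ k := by
    have := h.k3
    omega
  have hg : 2 ≤ 2 ^ k := by
    calc 2 = 2 ^ 1 := by norm_num
      _ ≤ 2 ^ k := Nat.pow_le_pow_right (by norm_num) (by omega)
  have h20 : (2 : E) ≠ 0 := two_ne_zero
  have hp : A.valuation ((p : E) - 1) ≤ A.valuation (2 : E) := by
    have h3 := val_int_dvd (E := E) A (p := 2) (c := (p : ℤ) - 1) (by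
      have := h.podd
      omega)
    push_cast at h3
    exact h3
  obtain ⟨ha, -⟩ := roots_injB h.toBaseF hs
  have hy := fun i => xval_y hk hR A h2 hmap i
  refine ⟨h2, hy, fun i => ?_, fun i => ?_, fun i j hij => ?_, fun i j hij => ?_⟩
  · exact alpha_val A h2 h20 hg (XTwo_unit h hs A h2 i).1 hp (hy i)
  · refine alpha_val A h2 h20 hg (XTwo_unit h hs A h2 i).2 hp ?_
    have e : (p : E) / ((p : E) / a i) = a i := by
      have hp0 : (p : E) ≠ 0 := by
        rw [Nat.cast_ne_zero]
        rintro rfl
        have := h.podd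
        omega
      have hai := ha i
      field_simp
    rw [e, add_comm]
    exact hy i
  · exact xval_diff hk hR A h2 hmap hinj hij
  · exact xval_ka hk hR A h2 hmap hinj hij

end LIF
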