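import Pool.Agent.helper1.XLI.Flip
import Pool.Agent.helper1.XLI.CombE
import Pool.Agent.helper1.XLI.XTwo

/-!
[XLI-XMin] (proofs: helper41) Every nonzero Galois stable space of antisymmetric functions on the roots is the space of
all antisymmetric functions (assembly; adapt `GLI/Min.lean` by helper17; imports the stubs `Flip`,
`CombE`, `XTwo`, `XBase`, `XDeg`).

Proof.  `exists_val` (`LI/Val.lean`) with the prime `2` gives `A` with `v(2) < 1`, `two_x` gives `TwoX`.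
Let `Γ` be the subgroup of all `γ` for which there is `σ` with `σ (Bx x) = Bx (γ x)` for all `x`
(`Bx p a` is injective by `roots_injB`).  (h1): `exists_root_conjB`, `exists_permB`.  (h2): let
`j, l ≠ i`.  `degx_trans`: `σ a_i = a_i`, `σ y_j = y_l`, so `σ a_j` is a root of `X^2 - y_l X + p`, i.e.
`σ a_j = a_l` or `σ a_j = p/a_l`.  `flip` for `i, l` gives `ρ` with `ρ a_i = a_i`, `ρ a_l = p/a_l`,
`ρ (p/a_l) = a_l`.  One of `σ`, `ρ σ` maps `a_j` to the required `Bx (l, c)`.  `comb_full` gives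
the claim and `comb_full_dim` the dimension.
-/

set_option autoImplicit false

namespace LIF

open Polynomial

variable {p k : ℕ} {f : ℤ[X]} {E : Type*} [Field E] [CharZero E]
  [Algebra ℚ E] [IsAlgClosed E] [Algebra.IsAlgebraic ℚ E] [Normal ℚ E]

/-- a root with the same `y` is `a_l` or `p/a_l` -/
theorem XMin_two {E : Type*} [Field E] {p : ℕ} {x y : E} (hx : x ≠ 0)
    (hy : y ≠ 0) (hxy : x + (p : E) / x = y + (p : E) / y) : x = y ∨ x = (p : E) / y := by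
  have h1 : (x - y) * (x * y - p) = 0 := by
    field_simp at hxy
    linear_combination hxy
  rcases mul_eq_zero.1 h1 with h2 | h2
  · exact Or.inl (sub_eq_zero.1 h2)
  · right
    rw [eq_div_iff hy]
    exact sub_eq_zero.1 h2

theorem xmin (h : GoodX p k f) {a : Fin (2 ^ k) → E} (hs : Spl p f a)
    (W : Submodule ℚ (Fin (2 ^ k) × Bool → ℚ))
    (hanti : ∀ φ ∈ W, ∀ i c, φ (i, !c) = - φ (i, c))
    (hst : ∀ φ ∈ W, ∀ (σ : E ≃ₐ[ℚ] E) (γ : Equiv.Perm (Fin (2 ^ k) × Bool)),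
      (∀ x, σ (Bx p a x) = Bx p a (γ x)) → (fun x => φ (γ x)) ∈ W)
    (hW : W ≠ ⊥) : ∀ φ : Fin (2 ^ k) × Bool → ℚ, (∀ i c, φ (i, !c) = - φ (i, c)) → φ ∈ W := by
  haveI : Fact (Nat.Prime 2) := ⟨Nat.prime_two⟩
  obtain ⟨A, hA⟩ := exists_val (E := E) 2
  have h2 : A.valuation (2 : E) < 1 := by exact_mod_cast hA
  have ht : TwoX p k A a := two_x h hs A h2
  obtain ⟨ha0, hinj⟩ := roots_injB h.toBaseF hs
  let Γ : Subgroup (Equiv.Perm (Fin (2 ^ k) × Bool)) :=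
    { carrier := {γ | ∃ σ : E ≃ₐ[ℚ] E, ∀ x, σ (Bx p a x) = Bx p a (γ x)}
      one_mem' := ⟨AlgEquiv.refl, fun x => rfl⟩
      mul_mem' := by
        rintro γ γ' ⟨σ, hσ⟩ ⟨σ', hσ'⟩
        refine ⟨σ * σ', fun x => ?_⟩
        rw [AlgEquiv.mul_apply, hσ', hσ, Equiv.Perm.mul_apply]
      inv_mem' := by
        rintro γ ⟨σ, hσ⟩
        refine ⟨σ.symm, fun x => ?_⟩
        rw [AlgEquiv.symm_apply_eq, hσ]
        congr 1
        exact (γ.apply_symm_apply x).symm }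
  have hΓ : ∀ γ, γ ∈ Γ ↔ ∃ σ : E ≃ₐ[ℚ] E, ∀ x, σ (Bx p a x) = Bx p a (γ x) := fun γ => Iff.rfl
  have htrue : ∀ i, Bx p a (i, true) = a i := fun i => rfl
  have hfalse : ∀ i, Bx p a (i, false) = (p : E) / a i := fun i => rfl
  have hperm : ∀ σ : E ≃ₐ[ℚ] E, ∃ γ ∈ Γ, (∀ x, σ (Bx p a x) = Bx p a (γ x)) ∧
      ∀ i c, γ (i, !c) = ((γ (i, c)).1, !(γ (i, c)).2) := by
    intro σ
    obtain ⟨γ, hγ, hγ'⟩ := exists_permB h.toBaseF hs σ
    exact ⟨γ, (hΓ γ).2 ⟨σ, hγ⟩, hγ, hγ'⟩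
  refine comb_full Γ ?_ ?_ W hanti ?_ hW
  · intro i j
    obtain ⟨σ, hσ⟩ := exists_root_conjB h.toBaseF hs (i, true) (j, true)
    obtain ⟨γ, hγ, h1, -⟩ := hperm σ
    exact ⟨γ, hγ, hinj (by rw [← h1, hσ])⟩
  · intro i j l c hij hil
    obtain ⟨σ, h1, h3⟩ := degx_trans h hs A ht hij hil
    obtain ⟨γ, hγ, h4, -⟩ := hperm σ
    have hγi : γ (i, true) = (i, true) := hinj (by rw [← h4, htrue, h1])
    have hσj : σ (a j) = a l ∨ σ (a j) = (p : E) / a l := by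
      refine XMin_two ?_ (ha0 l) ?_
      · exact (map_ne_zero σ).2 (ha0 j)
      · rw [← h3, map_add, map_div₀, map_natCast]
    obtain ⟨c', hγj⟩ : ∃ c', γ (j, true) = (l, c') := by
      rcases hσj with h5 | h5
      · exact ⟨true, hinj (by rw [← h4, htrue, htrue, h5])⟩
      · exact ⟨false, hinj (by rw [← h4, htrue, hfalse, h5])⟩
    by_cases hc : c' = c
    · exact ⟨γ, hγ, hγi, by rw [hγj, hc]⟩
    · obtain ⟨ρ, h6, h7⟩ := flip h hs A ht hil
      obtain ⟨δ, hδ, h8, h9⟩ := hperm ρ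
      have hδi : δ (i, true) = (i, true) := hinj (by rw [← h8, htrue, h6])
      have hδl : δ (l, true) = (l, false) := hinj (by rw [← h8, htrue, hfalse, h7])
      have hδl' : δ (l, false) = (l, true) := by
        have h10 := h9 l true
        rw [hδl] at h10
        exact h10
      refine ⟨δ * γ, Γ.mul_mem hδ hγ, ?_, ?_⟩
      · rw [Equiv.Perm.mul_apply, hγi, hδi]
      · rw [Equiv.Perm.mul_apply, hγj]
        cases c' <;> cases c
        · exact absurd rfl hc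
        · exact hδl'
        · exact hδl
        · exact absurd rfl hc
  · intro φ hφ γ hγ
    obtain ⟨σ, hσ⟩ := (hΓ γ).1 hγ
    exact hst φ hφ σ γ hσ

theorem xmin_dim (h : GoodX p k f) {a : Fin (2 ^ k) → E} (hs : Spl p f a)
    (W : Submodule ℚ (Fin (2 ^ k) × Bool → ℚ))
    (hanti : ∀ φ ∈ W, ∀ i c, φ (i, !c) = - φ (i, c))
    (hst : ∀ φ ∈ W, ∀ (σ : E ≃ₐ[ℚ] E) (γ : Equiv.Perm (Fin (2 ^ k) × Bool)),
      (∀ x, σ (Bx p a x) = Bx p a (γ x)) → (fun x => φ (γ x)) ∈ W)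
    (hW : W ≠ ⊥) : 2 ^ k ≤ Module.finrank ℚ W :=
  comb_full_dim W (xmin h hs W hanti hst hW)

/-- two different pairs of roots can be changed independently: there is `σ` fixing `a_i` and mapping
`a_j` to `p/a_j` -/
theorem xflip (h : GoodX p k f) {a : Fin (2 ^ k) → E} (hs : Spl p f a) {i j : Fin (2 ^ k)}
    (hij : j ≠ i) : ∃ σ : E ≃ₐ[ℚ] E, σ (a i) = a i ∧ σ (a j) = (p : E) / a j := by
  haveI : Fact (Nat.Prime 2) := ⟨Nat.prime_two⟩
  obtain ⟨A, hA⟩ := exists_val (E := E) 2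
  have h2 : A.valuation (2 : E) < 1 := by exact_mod_cast hA
  exact flip h hs A (two_x h hs A h2) hij

end LIF
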