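import Pool.Agent.helper1.XLI.XSingle
import Pool.Agent.helper1.XLI.XMin
import Pool.Agent.helper1.GLI.JStep
import Pool.Agent.helper1.GLI.JRel

/-!
[XLI-XJoint] No joint relations (assembly; adapt `GLI/Joint.lean` by helper34, `GLI/JC.lean` by
helper39; imports the stubs `XSingle`, `XMin`, `XBase`).

* `xjoint_core`: as `joint_core` in `GLI/Joint.lean`, with `GoodX` in the place of `GoodF`, `xsingle`
  in the place of `single_core`, `xmin_dim` in the place of `min_dim` (`2^K - 1 ≤ 2^K ≤ finrank`),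
  `exists_permB`, `roots_injB` in the place of `exists_perm`, `roots_inj` (`GoodX` extends `BaseF`:
  `h.toBaseF`); `2 ≤ k` from `k3`.
* `xjoint_complex`: as `joint_complex` in `GLI/JC.lean`.
-/

set_option autoImplicit false

namespace LIF

open Polynomial

section

variable {p : ℕ} [Fact p.Prime] {E : Type*} [Field E] [CharZero E] [Algebra ℚ E]
  [IsAlgClosed E] [Algebra.IsAlgebraic ℚ E] [Normal ℚ E]

omit [CharZero E] [Algebra ℚ E] [IsAlgClosed E] [Algebra.IsAlgebraic ℚ E] [Normal ℚ E]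
  [Fact p.Prime] in
/-- the product of an antisymmetric relation -/
private theorem XJoint_prod {g : ℕ} (a : Fin g → E) (n : Fin g × Bool → ℤ)
    (hn : ∀ i c, n (i, !c) = - n (i, c)) :
    ∏ x, Bx p a x ^ n x = ∏ i, (a i ^ 2 / (p : E)) ^ n (i, true) := by
  rw [Fintype.prod_prod_type]
  refine Finset.prod_congr rfl fun i _ => ?_
  have h1 := hn i true
  rw [Bool.not_true] at h1
  rw [Fintype.prod_bool, h1]
  simp only [Bx, if_true, Bool.false_eq_true, if_false]
  rw [zpow_neg, ← inv_zpow, ← mul_zpow, inv_div]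
  congr 1
  rw [pow_two, mul_div_assoc]

omit [CharZero E] [Algebra ℚ E] [IsAlgClosed E] [Algebra.IsAlgebraic ℚ E] [Normal ℚ E]
  [Fact p.Prime] in
/-- from an antisymmetric relation to an integral one -/
private theorem XJoint_int {T : Finset ℕ} {a : (k : ℕ) → Fin (2 ^ k) → E}
    {φ : (k : T) → Fin (2 ^ (k : ℕ)) × Bool → ℚ} (hanti : ∀ k i c, φ k (i, !c) = - φ k (i, c))
    (hr : IsRel p T a φ) : ∃ m : ℕ, 0 < m ∧ ∃ n : (k : ℕ) → Fin (2 ^ k) → ℤ,
      (∀ (k : T) i, (m : ℚ) * φ k (i, true) = n k i) ∧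
        ∏ k ∈ T, ∏ i, (a k i ^ 2 / (p : E)) ^ n k i = 1 := by
  classical
  obtain ⟨m, hm, n, hn, hprod⟩ := hr
  have hna : ∀ (k : T) i c, n k (i, !c) = - n k (i, c) := by
    intro k i c
    have h1 := hn k (i, !c)
    rw [hanti k i c, mul_neg, hn k (i, c)] at h1
    have h2 : (-(n k (i, c)) : ℚ) = ((-(n k (i, c)) : ℤ) : ℚ) := by push_cast; rfl
    rw [h2] at h1
    exact (Int.cast_injective h1).symm
  refine ⟨m, hm, fun k i => if hk : k ∈ T then n ⟨k, hk⟩ (i, true) else 0, ?_, ?_⟩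
  · intro k i
    beta_reduce
    rw [dif_pos k.2]
    exact hn k (i, true)
  · rw [← Finset.prod_coe_sort]
    rw [← hprod]
    refine Finset.prod_congr rfl fun k _ => ?_
    rw [XJoint_prod (a k) (n k) (hna k)]
    refine Finset.prod_congr rfl fun i _ => ?_
    beta_reduce
    rw [dif_pos k.2]

private theorem XJoint_zero {T : Finset ℕ} {φ : (k : T) → Fin (2 ^ (k : ℕ)) × Bool → ℚ}
    (hanti : ∀ k i c, φ k (i, !c) = - φ k (i, c)) {m : ℕ} (hm : 0 < m)
    {n : (k : ℕ) → Fin (2 ^ k) → ℤ} (hn : ∀ (k : T) i, (m : ℚ) * φ k (i, true) = n k i)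
    (h0 : ∀ (k : T) i, n k i = 0) : φ = 0 := by
  have hm' : (m : ℚ) ≠ 0 := by exact_mod_cast hm.ne'
  have h1 : ∀ (k : T) i, φ k (i, true) = 0 := by
    intro k i
    have h2 := hn k i
    rw [h0 k i, Int.cast_zero] at h2
    exact (mul_eq_zero.1 h2).resolve_left hm'
  funext k ⟨i, c⟩
  cases c with
  | true => exact h1 k i
  | false =>
    have h3 := hanti k i true
    rw [h1 k i, neg_zero] at h3
    exact h3

/-- the image of the relations in one component is large -/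
private theorem XJoint_min {T : Finset ℕ} {f : ℕ → ℤ[X]} {a : (k : ℕ) → Fin (2 ^ k) → E}
    (h : ∀ k ∈ T, GoodX p k (f k)) (hs : ∀ k ∈ T, Spl p (f k) (a k))
    (hne : ∀ k ∈ T, ∀ x, Bx p (a k) x ≠ 0) {K : ℕ} (hK : K ∈ T)
    (hW : (relQ p T a hne).map (LinearMap.proj (R := ℚ)
        (φ := fun k : T => Fin (2 ^ (k : ℕ)) × Bool → ℚ) (⟨K, hK⟩ : T)) ≠ ⊥) :
    2 ^ K - 1 ≤ Module.finrank ℚ ((relQ p T a hne).map (LinearMap.proj (R := ℚ)
        (φ := fun k : T => Fin (2 ^ (k : ℕ)) × Bool → ℚ) (⟨K, hK⟩ : T))) := by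
  refine le_trans (Nat.sub_le _ _) (xmin_dim (h K hK) (hs K hK) _ ?_ ?_ hW)
  · intro φ' hφ' i c
    obtain ⟨φ, hφ, rfl⟩ := Submodule.mem_map.1 hφ'
    exact (mem_relQ.1 hφ).1 ⟨K, hK⟩ i c
  · intro φ' hφ' σ γ hγ
    obtain ⟨φ, hφ, rfl⟩ := Submodule.mem_map.1 hφ'
    obtain ⟨hφ1, hφ2⟩ := mem_relQ.1 hφ
    have hex : ∀ k : T, ∃ γ : Equiv.Perm (Fin (2 ^ (k : ℕ)) × Bool),
        (∀ x, σ (Bx p (a k) x) = Bx p (a k) (γ x)) ∧
          ∀ i c, γ (i, !c) = ((γ (i, c)).1, !(γ (i, c)).2) :=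
      fun k => exists_permB (h k k.2).toBaseF (hs k k.2) σ
    choose Γ hΓ1 hΓ2 using hex
    have hinj := (roots_injB (h K hK).toBaseF (hs K hK)).2
    have hΓK : ∀ x, Γ ⟨K, hK⟩ x = γ x := by
      intro x
      apply hinj
      rw [← hγ x]
      exact (hΓ1 ⟨K, hK⟩ x).symm
    refine Submodule.mem_map.2 ⟨fun k x => φ k (Γ k x), mem_relQ.2 ⟨?_, ?_⟩, ?_⟩
    · intro k i c
      show φ k (Γ k (i, !c)) = - φ k (Γ k (i, c))
      rw [hΓ2 k i c, hφ1]
    · exact isRel_sigma σ Γ hΓ1 hφ2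
    · funext x
      show φ ⟨K, hK⟩ (Γ ⟨K, hK⟩ x) = φ ⟨K, hK⟩ (γ x)
      rw [hΓK x]

theorem xjoint_core {p : ℕ} [Fact p.Prime] {E : Type*} [Field E] [CharZero E] [Algebra ℚ E]
    [IsAlgClosed E] [Algebra.IsAlgebraic ℚ E] [Normal ℚ E] (T : Finset ℕ) (f : ℕ → ℤ[X])
    (a : (k : ℕ) → Fin (2 ^ k) → E)
    (h : ∀ k ∈ T, GoodX p k (f k)) (hs : ∀ k ∈ T, Spl p (f k) (a k))
    (n : (k : ℕ) → Fin (2 ^ k) → ℤ)
    (hn : ∏ k ∈ T, ∏ i, (a k i ^ 2 / (p : E)) ^ n k i = 1) : ∀ k ∈ T, ∀ i, n k i = 0 := by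
  classical
  have hpE : (p : E) ≠ 0 := by
    have : p ≠ 0 := (Fact.out : p.Prime).ne_zero
    exact_mod_cast this
  induction T using Finset.induction_on_max generalizing n with
  | empty => intro k hk; exact absurd hk (Finset.notMem_empty k)
  | insert K T' hlt ih =>
    have hKT : K ∉ T' := fun hh => lt_irrefl K (hlt K hh)
    have ih' := ih (fun k hk => h k (Finset.mem_insert_of_mem hk))
      (fun k hk => hs k (Finset.mem_insert_of_mem hk))
    have hK : K ∈ insert K T' := Finset.mem_insert_self K T'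
    have hne : ∀ k ∈ insert K T', ∀ x, Bx p (a k) x ≠ 0 := by
      intro k hk x
      have h1 := (roots_injB (h k hk).toBaseF (hs k hk)).1 x.1
      unfold Bx
      split_ifs
      · exact h1
      · exact div_ne_zero hpE h1
    have hR : relQ p (insert K T') a hne = ⊥ := by
      refine joint_step hK ?_ (relQ p (insert K T') a hne) (fun φ hφ => (mem_relQ.1 hφ).1) ?_ ?_
        (fun hW => XJoint_min h hs hne hK hW)
      · intro k hk
        refine ⟨(by have := (h k hk).k3; omega), ?_⟩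
        rcases Finset.mem_insert.1 hk with h1 | h1
        · exact h1.le
        · exact (hlt k h1).le
      · intro φ hφ hφ0
        obtain ⟨hφ1, hφ2⟩ := mem_relQ.1 hφ
        obtain ⟨m, hm, n', hn1, hn2⟩ := XJoint_int hφ1 hφ2
        have hz : ∀ k ∈ T', ∀ i, n' k i = 0 := by
          intro k hk i
          have hkT : k ∈ insert K T' := Finset.mem_insert_of_mem hk
          have h1 := hn1 ⟨k, hkT⟩ i
          rw [hφ0 ⟨k, hkT⟩ (hlt k hk).ne, Pi.zero_apply, mul_zero] at h1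
          exact_mod_cast h1.symm
        rw [Finset.prod_insert hKT] at hn2
        have h2 : ∏ k ∈ T', ∏ i, (a k i ^ 2 / (p : E)) ^ n' k i = 1 := by
          refine Finset.prod_eq_one fun k hk => Finset.prod_eq_one fun i _ => ?_
          rw [hz k hk i, zpow_zero]
        rw [h2, mul_one] at hn2
        have h3 := xsingle (h K hK) (hs K hK) (n' K) hn2
        refine XJoint_zero hφ1 hm hn1 fun k i => ?_
        obtain ⟨k, hk⟩ := k
        rcases Finset.mem_insert.1 hk with h1 | h1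
        · subst h1
          exact congrFun h3 i
        · exact hz k h1 i
      · intro φ hφ hφ0
        obtain ⟨hφ1, hφ2⟩ := mem_relQ.1 hφ
        obtain ⟨m, hm, n', hn1, hn2⟩ := XJoint_int hφ1 hφ2
        have hz : ∀ i, n' K i = 0 := by
          intro i
          have h1 := hn1 ⟨K, hK⟩ i
          rw [hφ0, Pi.zero_apply, mul_zero] at h1
          exact_mod_cast h1.symm
        rw [Finset.prod_insert hKT] at hn2
        have h2 : ∏ i, (a K i ^ 2 / (p : E)) ^ n' K i = 1 := by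
          refine Finset.prod_eq_one fun i _ => ?_
          rw [hz i, zpow_zero]
        rw [h2, one_mul] at hn2
        have h3 := ih' n' hn2
        refine XJoint_zero hφ1 hm hn1 fun k i => ?_
        obtain ⟨k, hk⟩ := k
        rcases Finset.mem_insert.1 hk with h1 | h1
        · subst h1
          exact hz i
        · exact h3 k h1 i
    let φ : (k : (insert K T' : Finset ℕ)) → Fin (2 ^ (k : ℕ)) × Bool → ℚ :=
      fun k x => if x.2 then (n k x.1 : ℚ) else -(n k x.1 : ℚ)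
    let n' : (k : (insert K T' : Finset ℕ)) → Fin (2 ^ (k : ℕ)) × Bool → ℤ :=
      fun k x => if x.2 then n k x.1 else -n k x.1
    have hφ : φ ∈ relQ p (insert K T') a hne := by
      refine mem_relQ.2 ⟨?_, 1, one_pos, n', ?_, ?_⟩
      · intro k i c
        cases c <;> simp [φ]
      · rintro k ⟨i, c⟩
        cases c <;> simp [φ, n']
      · refine Eq.trans ?_ hn
        rw [← Finset.prod_coe_sort (insert K T')]
        refine Finset.prod_congr rfl fun k _ => ?_
        rw [XJoint_prod (a k) (n' k) (by intro i c; cases c <;> simp [n'])]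
        refine Finset.prod_congr rfl fun i _ => ?_
        simp [n']
    rw [hR, Submodule.mem_bot] at hφ
    intro k hk i
    have h1 := congrFun (congrFun hφ ⟨k, hk⟩) (i, true)
    simp only [φ, if_true, Pi.zero_apply] at h1
    exact_mod_cast h1


end

private theorem XJC_spl {E : Type*} [Field E] [Algebra ℚ E] [IsAlgClosed E] (ι : E →ₐ[ℚ] ℂ)
    {p g : ℕ} {f : ℤ[X]} (hm : f.Monic) (α : Fin g → ℂ)
    (hα : f.map (Int.castRingHom ℂ) = ∏ i, ((X - C (α i)) * (X - C ((p : ℂ) / α i)))) :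
    ∃ a : Fin g → E, (∀ i, ι (a i) = α i) ∧ Spl p f a := by
  classical
  have hιinj : Function.Injective ι := ι.toRingHom.injective
  have hmapι : (f.map (Int.castRingHom E)).map (ι : E →+* ℂ) = f.map (Int.castRingHom ℂ) := by
    rw [Polynomial.map_map]
    congr 1
    exact RingHom.ext_int _ _
  have hsplit : (f.map (Int.castRingHom E)).Splits := IsAlgClosed.splits _
  have hmE : (f.map (Int.castRingHom E)).Monic := hm.map _
  have hfE : f.map (Int.castRingHom E) =
      ((f.map (Int.castRingHom E)).roots.map fun x => X - C x).prod := by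
    have h := hsplit.eq_prod_roots
    rw [hmE.leadingCoeff, C_1, one_mul] at h
    exact h
  have hex : ∀ i, ∃ a : E, ι a = α i := by
    intro i
    have h1 : (f.map (Int.castRingHom ℂ)).eval (α i) = 0 := by
      rw [hα, eval_prod]
      refine Finset.prod_eq_zero (Finset.mem_univ i) ?_
      simp
    rw [← hmapι, hfE, Polynomial.map_multiset_prod, eval_multiset_prod, Multiset.prod_eq_zero_iff,
      Multiset.mem_map] at h1
    obtain ⟨q, hq, hq0⟩ := h1
    rw [Multiset.mem_map] at hq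
    obtain ⟨q', hq', rfl⟩ := hq
    rw [Multiset.mem_map] at hq'
    obtain ⟨a, -, rfl⟩ := hq'
    refine ⟨a, ?_⟩
    simp only [Polynomial.map_sub, map_X, map_C, eval_sub, eval_X, eval_C] at hq0
    exact (sub_eq_zero.mp hq0).symm
  choose a ha using hex
  refine ⟨a, ha, ?_⟩
  unfold Spl
  apply Polynomial.map_injective (ι : E →+* ℂ) hιinj
  rw [hmapι, hα, Polynomial.map_prod]
  refine Finset.prod_congr rfl fun i _ => ?_
  rw [Polynomial.map_mul, Polynomial.map_sub, Polynomial.map_sub, map_X, map_C, map_C]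
  have h1 : (ι : E →+* ℂ) (a i) = α i := ha i
  have h2 : (ι : E →+* ℂ) ((p : E) / a i) = (p : ℂ) / α i := by
    rw [map_div₀, h1, map_natCast]
  rw [h1, h2]

private theorem XJC_aux {E : Type*} [Field E] [CharZero E] [Algebra ℚ E] [IsAlgClosed E]
    [Algebra.IsAlgebraic ℚ E] [Normal ℚ E] (ι : E →ₐ[ℚ] ℂ) {p : ℕ} [Fact p.Prime] (T : Finset ℕ)
    (f : ℕ → ℤ[X]) (α : (k : ℕ) → Fin (2 ^ k) → ℂ) (h : ∀ k ∈ T, GoodX p k (f k))
    (hs : ∀ k ∈ T, (f k).map (Int.castRingHom ℂ) =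
      ∏ i, ((X - C (α k i)) * (X - C ((p : ℂ) / α k i))))
    (n : (k : ℕ) → Fin (2 ^ k) → ℤ)
    (hn : ∏ k ∈ T, ∏ i, (α k i ^ 2 / (p : ℂ)) ^ n k i = 1) : ∀ k ∈ T, ∀ i, n k i = 0 := by
  classical
  have hex : ∀ k : ℕ, ∃ a : Fin (2 ^ k) → E, k ∈ T → (∀ i, ι (a i) = α k i) ∧ Spl p (f k) a := by
    intro k
    by_cases hk : k ∈ T
    · obtain ⟨a, ha⟩ := XJC_spl ι (h k hk).mon (α k) (hs k hk)
      exact ⟨a, fun _ => ha⟩
    · exact ⟨fun _ => 0, fun hk' => absurd hk' hk⟩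
  choose a ha using hex
  refine xjoint_core T f a h (fun k hk => (ha k hk).2) n ?_
  apply ι.toRingHom.injective
  show ι (∏ k ∈ T, ∏ i, (a k i ^ 2 / (p : E)) ^ n k i) = ι 1
  rw [map_prod, map_one, ← hn]
  refine Finset.prod_congr rfl fun k hk => ?_
  rw [map_prod]
  refine Finset.prod_congr rfl fun i _ => ?_
  rw [map_zpow₀, map_div₀, map_pow, (ha k hk).1, map_natCast]

theorem xjoint_complex {p : ℕ} [Fact p.Prime] (T : Finset ℕ) (f : ℕ → ℤ[X])
    (α : (k : ℕ) → Fin (2 ^ k) → ℂ) (h : ∀ k ∈ T, GoodX p k (f k))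
    (hs : ∀ k ∈ T, (f k).map (Int.castRingHom ℂ) =
      ∏ i, ((X - C (α k i)) * (X - C ((p : ℂ) / α k i))))
    (n : (k : ℕ) → Fin (2 ^ k) → ℤ)
    (hn : ∏ k ∈ T, ∏ i, (α k i ^ 2 / (p : ℂ)) ^ n k i = 1) : ∀ k ∈ T, ∀ i, n k i = 0 := by
  letI : Algebra ℚ (AlgebraicClosure ℚ) := AlgebraicClosure.instAlgebra ℚ
  haveI : Algebra.IsAlgebraic ℚ (AlgebraicClosure ℚ) := AlgebraicClosure.isAlgebraic ℚ
  exact XJC_aux (E := AlgebraicClosure ℚ) IsAlgClosed.lift T f α h hs n hn

end LIF
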