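import Pool.Agent.helper1.XLI.DataX
import Pool.Agent.helper1.XLI.XJoint
import Pool.Agent.helper1.XLI.CountX
import Pool.Agent.helper1.GLI.JOver
import Pool.Agent.helper1.GLI.Sum8
import Pool.Agent.helper1.LI.Sep

/-!
[XLI-TopX] Assembly.
-/

set_option autoImplicit false

namespace LIF

open Polynomial

theorem TopX_root {p : ℕ} [Fact p.Prime] {k : ℕ} {h : (ZMod p)[X]} (hh : h ∈ HX p k) :
    ∃ γ : AlgebraicClosure (ZMod p), aeval γ h = 0 := by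
  obtain ⟨h1, h2, h3, -⟩ := hh
  have h4 : h.degree ≠ 0 := by
    rw [degree_eq_natDegree h1.ne_zero, h3]
    have : 2 * 2 ^ k ≠ 0 := by positivity
    exact_mod_cast this
  exact IsAlgClosed.exists_aeval_eq_zero (AlgebraicClosure (ZMod p)) h h4

theorem top_x {p : ℕ} [Fact p.Prime] (p2 : p ≠ 2) {P : ℕ → Prop} (hP : ∀ k, P k → 3 ≤ k)
    {h : ℕ → (ZMod p)[X]} (hh : ∀ k, P k → h k ∈ HX p k) {a : ℕ} (ha : 1 ≤ a) :
    ∃ φ : (k : ℕ) → Fin (2 ^ k) → ℝ,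
      (∀ k, P k → StrictMono (φ k) ∧ (∀ i, 0 < φ k i ∧ φ k i < Real.pi) ∧
        ∀ m : ℕ, 1 ≤ m →
        (Nat.card {z : GaloisField p (a * m) × GaloisField p (a * m) //
          z.2 ^ 2 = aeval z.1 (Dp (h k))} : ℝ) =
        (p : ℝ) ^ (a * m) -
          ∑ i, 2 * (Real.sqrt ((p : ℝ) ^ a)) ^ m * Real.cos (m * φ k i)) ∧
      LinearIndependent ℚ (jfam P φ) := by
  classical
  have hdata : ∀ k, P k → GoodX p k (Lp (2 ^ k) (Dp (h k))) ∧
      ∃ θ : Fin (2 ^ k) → ℝ,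
      (∀ m : ℕ, 1 ≤ m →
        (Nat.card {z : GaloisField p m × GaloisField p m //
          z.2 ^ 2 = aeval z.1 (Dp (h k))} : ℝ) =
          (p : ℝ) ^ m - ∑ i, 2 * (Real.sqrt p) ^ m * Real.cos (m * θ i)) ∧
      (Lp (2 ^ k) (Dp (h k))).map (Int.castRingHom ℂ) =
          ∏ i, ((X - C ((Real.sqrt p : ℂ) * Complex.exp (θ i * Complex.I))) *
            (X - C ((p : ℂ) / ((Real.sqrt p : ℂ) * Complex.exp (θ i * Complex.I))))) := by
    intro k hk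
    obtain ⟨γ, hγ⟩ := TopX_root (hh k hk)
    obtain ⟨hG, hmin⟩ := HX_gamX p2 (hh k hk) hγ
    exact data_x p2 (hP k hk) hG hmin
  have hch : ∀ k, ∃ θ : Fin (2 ^ k) → ℝ, P k →
      (∀ m : ℕ, 1 ≤ m →
        (Nat.card {z : GaloisField p m × GaloisField p m //
          z.2 ^ 2 = aeval z.1 (Dp (h k))} : ℝ) =
          (p : ℝ) ^ m - ∑ i, 2 * (Real.sqrt p) ^ m * Real.cos (m * θ i)) ∧
      (Lp (2 ^ k) (Dp (h k))).map (Int.castRingHom ℂ) =
          ∏ i, ((X - C ((Real.sqrt p : ℂ) * Complex.exp (θ i * Complex.I))) *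
            (X - C ((p : ℂ) / ((Real.sqrt p : ℂ) * Complex.exp (θ i * Complex.I))))) := by
    intro k
    by_cases hk : P k
    · obtain ⟨θ, h1, h2⟩ := (hdata k hk).2
      exact ⟨θ, fun _ => ⟨h1, h2⟩⟩
    · exact ⟨fun _ => 0, fun h => absurd h hk⟩
  choose θ hθ using hch
  refine jover ha θ (fun k hk => (hθ k hk).1) ?_
  refine jangles (p := p) θ ?_
  intro T hT n hn
  exact xjoint_complex (p := p) T (fun k => Lp (2 ^ k) (Dp (h k)))
    (fun k i => (Real.sqrt p : ℂ) * Complex.exp (θ k i * Complex.I))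
    (fun k hk => (hdata k (hT k hk)).1) (fun k hk => (hθ k (hT k hk)).2) n hn

theorem top_good {p : ℕ} [Fact p.Prime] (p2 : p ≠ 2) {k : ℕ} {h : (ZMod p)[X]}
    (hh : h ∈ HX p k) : Good p (2 ^ k) h := by
  obtain ⟨γ, hγ⟩ := TopX_root hh
  obtain ⟨hG, hmin⟩ := HX_gamX p2 hh hγ
  rw [← hmin]
  exact gamX_good p2 hG

theorem top_count {p : ℕ} [Fact p.Prime] (p2 : p ≠ 2) {k : ℕ} (hk : 2 ≤ k) :
    (HX p k).Finite ∧ p ^ (2 * 2 ^ k) ≤ 32 * 2 ^ k * (HX p k).ncard := by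
  classical
  obtain ⟨h1, h2⟩ := HX_card (k := k) p2
  refine ⟨h1, ?_⟩
  calc p ^ (2 * 2 ^ k) ≤ 16 * ((Km p (2 * 2 ^ k)).filter (fun x => GamX p k x)).card :=
        count_gam p2 hk
    _ ≤ 16 * (2 * 2 ^ k * (HX p k).ncard) := Nat.mul_le_mul_left _ h2
    _ = 32 * 2 ^ k * (HX p k).ncard := by ring

end LIF
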