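import Pool.Agent.helper1.XLI.Defs
import Pool.Agent.helper1.GLI.Real
import Pool.Agent.helper1.GLI.Perm

/-!
[XLI-XBase] The statements of `GLI/Real.lean` (helper29) and `GLI/Perm.lean` (helper80) under the
weaker hypothesis `BaseF` (monic of degree `2g`, irreducible over `ℚ`, functional equation).  Copy
and adapt the proofs: they only use these hypotheses.

* `real_identB`: for `x ≠ 0`: `f(x) = x^g R(x + p/x)`.
* `roots_injB`: the `2g` numbers `a_i, p/a_i` are nonzero and distinct.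
* `real_mapB`: `R = ∏_i (X - (a_i + p/a_i))`.
* `y_injB`: the `y_i = a_i + p/a_i` are distinct.
* `exists_permB`: an automorphism permutes the roots `Bx p a x`, commuting with the swap.
* `exists_root_conjB`: two roots are conjugate.
* `xcond`: under `GoodX`: `R` satisfies `XCond`.  As `real_cond`: `R = Dk p g + ∑_{0<d<g} S_d Dk p (g-d)
  + S_g`; `R.coeff 0 ≡ 2 + 0 + 0 (mod 4)` (`Dk_pow`; `S_d` and `(Dk p (g-d)).coeff 0` are even,
  `Dk_zero_even`; `4 ∣ S_g`); `2 ∣ R.coeff i` for `0 < i < g`; `R.coeff 1`: `(Dk p g).coeff 1 = 0`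
  (`Dk_parity`), for even `d` `(Dk p (g-d)).coeff 1 = 0`, for odd `d` it is odd (`Dk_one`), so
  `S_d (Dk p (g-d)).coeff 1 ≡ S_d (mod 4)`; total `≡ ∑_{d odd < g} S_d ≡ 2 (mod 4)`.
-/

set_option autoImplicit false

namespace LIF

open Polynomial

variable {p k : ℕ} {f : ℤ[X]}

theorem real_identB (h : BaseF p k f) {E : Type*} [Field E] {x : E} (hx : x ≠ 0) :
    (f.map (Int.castRingHom E)).eval x =
      x ^ (2 ^ k) * ((Rp p (2 ^ k) (fun d => f.coeff (2 * 2 ^ k - d))).map
        (Int.castRingHom E)).eval (x + (p : E) / x) := by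
  have h0 : 0 < 2 ^ k := by positivity
  have hcoe : ∀ a : ℤ, (Int.castRingHom E) a = (a : E) := fun a => rfl
  have hfe : ∀ d ∈ Finset.range (2 ^ k), ((f.coeff d : ℤ) : E) * x ^ d =
      (p : E) ^ (2 ^ k - d) * (f.coeff (2 * 2 ^ k - d) : E) * x ^ d := by
    intro d hd
    rw [Finset.mem_range] at hd
    rw [h.fe d hd.le]
    push_cast
    ring
  have hL : (f.map (Int.castRingHom E)).eval x = (f.coeff (2 ^ k) : E) * x ^ 2 ^ k +
      ∑ d ∈ Finset.range (2 ^ k), (f.coeff (2 * 2 ^ k - d) : E) *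
        (x ^ (2 * 2 ^ k - d) + (p : E) ^ (2 ^ k - d) * x ^ d) := by
    rw [eval_map, eval₂_eq_sum_range, h.deg]
    simp only [hcoe]
    have e1 : 2 * 2 ^ k + 1 = 2 ^ k + (2 ^ k + 1) := by ring
    rw [e1, Finset.sum_range_add, Finset.sum_range_succ', Nat.add_zero, Finset.sum_congr rfl hfe,
      ← Finset.sum_range_reflect (fun i => ((f.coeff (2 ^ k + (i + 1)) : ℤ) : E) *
        x ^ (2 ^ k + (i + 1)))]
    have e2 : ∀ d ∈ Finset.range (2 ^ k),
        ((f.coeff (2 ^ k + (2 ^ k - 1 - d + 1)) : ℤ) : E) * x ^ (2 ^ k + (2 ^ k - 1 - d + 1)) =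
        ((f.coeff (2 * 2 ^ k - d) : ℤ) : E) * x ^ (2 * 2 ^ k - d) := by
      intro d hd
      rw [Finset.mem_range] at hd
      have e3 : 2 ^ k + (2 ^ k - 1 - d + 1) = 2 * 2 ^ k - d := by omega
      rw [e3]
    rw [Finset.sum_congr rfl e2]
    simp only [mul_add, Finset.sum_add_distrib]
    have e4 : ∑ d ∈ Finset.range (2 ^ k),
        (p : E) ^ (2 ^ k - d) * (f.coeff (2 * 2 ^ k - d) : E) * x ^ d =
        ∑ d ∈ Finset.range (2 ^ k),
        (f.coeff (2 * 2 ^ k - d) : E) * ((p : E) ^ (2 ^ k - d) * x ^ d) :=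
      Finset.sum_congr rfl fun d _ => by ring
    rw [e4]
    ring
  have hR : ((Rp p (2 ^ k) (fun d => f.coeff (2 * 2 ^ k - d))).map
        (Int.castRingHom E)).eval (x + (p : E) / x) = (f.coeff (2 ^ k) : E) +
      ∑ d ∈ Finset.range (2 ^ k), (f.coeff (2 * 2 ^ k - d) : E) *
        (x ^ (2 ^ k - d) + ((p : E) / x) ^ (2 ^ k - d)) := by
    unfold Rp
    have e : 2 * 2 ^ k - 2 ^ k = 2 ^ k := by omega
    simp only [Polynomial.map_add, Polynomial.map_sum, Polynomial.map_mul, map_C, eval_add,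
      eval_C, eval_finsetSum, eval_mul, hcoe, e, Dk_eval p _ hx]
  rw [hL, hR, mul_add, Finset.mul_sum, mul_comm (x ^ 2 ^ k)]
  congr 1
  refine Finset.sum_congr rfl fun d hd => ?_
  rw [Finset.mem_range] at hd
  obtain ⟨m, hm⟩ : ∃ m, 2 ^ k = d + m := ⟨2 ^ k - d, by omega⟩
  have e1 : 2 ^ k - d = m := by omega
  have e2 : 2 * 2 ^ k - d = d + m + m := by omega
  rw [e1, e2, hm, div_pow]
  field_simp
  ring

theorem roots_injB (h : BaseF p k f) {E : Type*} [Field E] [CharZero E] {a : Fin (2 ^ k) → E}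
    (hs : Spl p f a) : (∀ i, a i ≠ 0) ∧ Function.Injective (Bx p a) := by
  have h1 : f.map (Int.castRingHom E) = ∏ x : Fin (2 ^ k) × Bool, (X - C (Bx p a x)) := by
    rw [hs, Fintype.prod_prod_type]
    refine Finset.prod_congr rfl fun i _ => ?_
    rw [Fintype.prod_bool]
    simp [Bx]
  have h2 : (f.map (Int.castRingHom E)).Separable := by
    have h3 := (h.irr.separable).map (f := algebraMap ℚ E)
    rw [Polynomial.map_map] at h3
    have h4 : (algebraMap ℚ E).comp (Int.castRingHom ℚ) = Int.castRingHom E :=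
      RingHom.ext_int _ _
    rwa [h4] at h3
  rw [h1, separable_prod_X_sub_C_iff] at h2
  refine ⟨fun i hi => ?_, h2⟩
  have h5 : Bx p a (i, true) = Bx p a (i, false) := by simp [Bx, hi]
  have h6 := h2 h5
  simp at h6

private theorem XBase_lead (h : BaseF p k f) : f.coeff (2 * 2 ^ k) = 1 := by
  have := h.mon
  rw [Monic, leadingCoeff, h.deg] at this
  exact this

private theorem XBase_rest (h : BaseF p k f) : ∃ Q : ℤ[X], Q.natDegree < 2 ^ k ∧
    Rp p (2 ^ k) (fun d => f.coeff (2 * 2 ^ k - d)) = Dk p (2 ^ k) + Q := by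
  obtain ⟨g, hg⟩ : ∃ g, 2 ^ k = g + 1 := ⟨2 ^ k - 1, by
    have : 0 < 2 ^ k := by positivity
    omega⟩
  have h1 := XBase_lead h
  refine ⟨C (f.coeff (2 * 2 ^ k - 2 ^ k)) + ∑ d ∈ Finset.range g,
    C (f.coeff (2 * 2 ^ k - (d + 1))) * Dk p (2 ^ k - (d + 1)), ?_, ?_⟩
  · have h2 : (C (f.coeff (2 * 2 ^ k - 2 ^ k)) + ∑ d ∈ Finset.range g,
        C (f.coeff (2 * 2 ^ k - (d + 1))) * Dk p (2 ^ k - (d + 1))).natDegree ≤ g := by
      refine (natDegree_add_le _ _).trans (max_le ?_ ?_)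
      · rw [natDegree_C]
        exact Nat.zero_le _
      · refine natDegree_sum_le_of_forall_le _ _ fun d hd => ?_
        rw [Finset.mem_range] at hd
        refine (natDegree_C_mul_le _ _).trans ?_
        rw [(Dk_monic p (by omega)).2]
        omega
    omega
  · unfold Rp
    rw [hg, Finset.sum_range_succ', ← hg, Nat.sub_zero]
    beta_reduce
    rw [Nat.sub_zero, h1, C_1, one_mul]
    ring

private theorem XBase_md (h : BaseF p k f) :
    (Rp p (2 ^ k) (fun d => f.coeff (2 * 2 ^ k - d))).Monic ∧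
      (Rp p (2 ^ k) (fun d => f.coeff (2 * 2 ^ k - d))).natDegree = 2 ^ k := by
  have h0 : 0 < 2 ^ k := by positivity
  obtain ⟨Q, hQ, hR⟩ := XBase_rest h
  have hD := Dk_monic p (n := 2 ^ k) (by omega)
  constructor
  · rw [hR]
    refine hD.1.add_of_left ?_
    rw [degree_eq_natDegree hD.1.ne_zero, hD.2]
    exact (degree_le_natDegree).trans_lt (by exact_mod_cast hQ)
  · rw [hR, natDegree_add_eq_left_of_natDegree_lt (by rw [hD.2]; exact hQ), hD.2]

private theorem XBase_coeff (i : ℕ) :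
    (Rp p (2 ^ k) (fun d => f.coeff (2 * 2 ^ k - d))).coeff i =
      (C (f.coeff (2 ^ k)) : ℤ[X]).coeff i +
      ∑ d ∈ Finset.range (2 ^ k), f.coeff (2 * 2 ^ k - d) * (Dk p (2 ^ k - d)).coeff i := by
  unfold Rp
  have e : 2 * 2 ^ k - 2 ^ k = 2 ^ k := by omega
  rw [coeff_add, finsetSum_coeff]
  simp only [coeff_C_mul, e]

private theorem XBase_coeff' (h : BaseF p k f) (i : ℕ) :
    (Rp p (2 ^ k) (fun d => f.coeff (2 * 2 ^ k - d))).coeff i =
      (C (f.coeff (2 ^ k)) : ℤ[X]).coeff i +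
      (∑ d ∈ Finset.range (2 ^ k - 1), f.coeff (2 * 2 ^ k - (d + 1)) *
        (Dk p (2 ^ k - (d + 1))).coeff i + (Dk p (2 ^ k)).coeff i) := by
  have h0 : 0 < 2 ^ k := by positivity
  obtain ⟨g, hg⟩ : ∃ g, 2 ^ k = g + 1 := ⟨2 ^ k - 1, by omega⟩
  have h1 := XBase_lead h
  have h2 : ∑ d ∈ Finset.range (2 ^ k), f.coeff (2 * 2 ^ k - d) * (Dk p (2 ^ k - d)).coeff i =
      ∑ d ∈ Finset.range (2 ^ k - 1), f.coeff (2 * 2 ^ k - (d + 1)) *
        (Dk p (2 ^ k - (d + 1))).coeff i + (Dk p (2 ^ k)).coeff i := by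
    have e : 2 ^ k - 1 = g := by omega
    rw [e]
    conv_lhs => rw [hg, Finset.sum_range_succ', ← hg]
    rw [Nat.sub_zero, Nat.sub_zero, h1, one_mul]
  rw [XBase_coeff, h2]

theorem y_injB (h : BaseF p k f) {E : Type*} [Field E] [CharZero E] {a : Fin (2 ^ k) → E}
    (hs : Spl p f a) : Function.Injective (fun i => a i + (p : E) / a i) := by
  obtain ⟨ha, hinj⟩ := roots_injB h hs
  intro i j hij
  simp only at hij
  have hi := ha i
  have hj := ha j
  have h1 : (a i - a j) * (a i * a j - p) = 0 := by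
    field_simp at hij
    linear_combination hij
  rcases mul_eq_zero.1 h1 with h2 | h2
  · have h3 : Bx p a (i, true) = Bx p a (j, true) := by
      simpa [Bx] using sub_eq_zero.1 h2
    have h4 := hinj h3
    simpa using h4
  · have h3 : Bx p a (i, true) = Bx p a (j, false) := by
      simp only [Bx, if_true, Bool.false_eq_true, if_false]
      rw [eq_div_iff hj]
      exact sub_eq_zero.1 h2
    have h4 := hinj h3
    simp at h4


theorem real_mapB (h : BaseF p k f) {E : Type*} [Field E] [CharZero E] {a : Fin (2 ^ k) → E}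
    (hs : Spl p f a) :
    (Rp p (2 ^ k) (fun d => f.coeff (2 * 2 ^ k - d))).map (Int.castRingHom E) =
      ∏ i, (X - C (a i + (p : E) / a i)) := by
  obtain ⟨ha, hinj⟩ := roots_injB h hs
  have hc := XBase_md h
  have hy := y_injB h hs
  have hm : ((Rp p (2 ^ k) (fun d => f.coeff (2 * 2 ^ k - d))).map
      (Int.castRingHom E)).Monic := hc.1.map _
  refine eq_of_monic_of_dvd_of_natDegree_le (monic_prod_X_sub_C _ _) hm ?_ ?_
  · refine Fintype.prod_dvd_of_coprime (pairwise_coprime_X_sub_C hy) fun i => ?_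
    rw [dvd_iff_isRoot, IsRoot]
    have h1 := real_identB h (ha i)
    have h2 : (f.map (Int.castRingHom E)).eval (a i) = 0 := by
      rw [hs, eval_prod]
      refine Finset.prod_eq_zero (Finset.mem_univ i) ?_
      simp
    rw [h2] at h1
    rcases mul_eq_zero.1 h1.symm with h3 | h3
    · exact absurd (pow_eq_zero_iff (by positivity) |>.1 h3) (ha i)
    · exact h3
  · rw [hc.1.natDegree_map, hc.2, natDegree_prod_of_monic _ _ fun i _ => monic_X_sub_C _]
    simp only [natDegree_X_sub_C]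
    simp

theorem exists_permB (h : BaseF p k f) {E : Type*} [Field E] [CharZero E] [Algebra ℚ E]
    {a : Fin (2 ^ k) → E} (hs : Spl p f a) (σ : E ≃ₐ[ℚ] E) :
    ∃ γ : Equiv.Perm (Fin (2 ^ k) × Bool), (∀ x, σ (Bx p a x) = Bx p a (γ x)) ∧
      ∀ i c, γ (i, !c) = ((γ (i, c)).1, !(γ (i, c)).2) := by
  classical
  obtain ⟨ha0, hinj⟩ := roots_injB h hs
  have hp0 : (p : E) ≠ 0 := by
    have h1 : p ≠ 0 := by
      intro h0
      have h2 := h.podd
      rw [h0] at h2
      omega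
    exact_mod_cast h1
  have hmap : (f.map (Int.castRingHom E)).map (σ : E →+* E) = f.map (Int.castRingHom E) := by
    rw [Polynomial.map_map]
    congr 1
    exact RingHom.ext_int _ _
  have hroot : ∀ x, ∃ z, Bx p a z = σ (Bx p a x) := by
    intro x
    rw [Bx_root hs ha0]
    have h1 : (f.map (Int.castRingHom E)).eval (Bx p a x) = 0 := (Bx_root hs ha0 _).mp ⟨x, rfl⟩
    have h2 : ((f.map (Int.castRingHom E)).map (σ : E →+* E)).eval ((σ : E →+* E) (Bx p a x)) =
        (σ : E →+* E) ((f.map (Int.castRingHom E)).eval (Bx p a x)) := by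
      rw [eval_map_apply]
    rw [hmap, h1, map_zero] at h2
    exact h2
  choose γ hγ using hroot
  have hγi : Function.Injective γ := by
    intro x y hxy
    apply hinj
    apply σ.injective
    rw [← hγ x, ← hγ y, hxy]
  have hγb : Function.Bijective γ := Finite.injective_iff_bijective.mp hγi
  have hneg : ∀ (i : Fin (2 ^ k)) (c : Bool), Bx p a (i, !c) = (p : E) / Bx p a (i, c) := by
    intro i c
    cases c
    · simp only [Bx, Bool.not_false, if_true, Bool.false_eq_true, if_false]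
      rw [div_div_cancel₀ hp0]
    · simp [Bx]
  refine ⟨Equiv.ofBijective γ hγb, fun x => (hγ x).symm, fun i c => ?_⟩
  change γ (i, !c) = ((γ (i, c)).1, !(γ (i, c)).2)
  apply hinj
  rw [hγ, hneg, hneg, hγ]
  rw [map_div₀, map_natCast]

theorem exists_root_conjB (h : BaseF p k f) {E : Type*} [Field E] [CharZero E] [Algebra ℚ E]
    [IsAlgClosed E] [Algebra.IsAlgebraic ℚ E] [Normal ℚ E] {a : Fin (2 ^ k) → E}
    (hs : Spl p f a) (x y : Fin (2 ^ k) × Bool) :
    ∃ σ : E ≃ₐ[ℚ] E, σ (Bx p a x) = Bx p a y := by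
  obtain ⟨ha0, -⟩ := roots_injB h hs
  have hmin : ∀ z, minpoly ℚ (Bx p a z) = f.map (Int.castRingHom ℚ) := by
    intro z
    symm
    apply minpoly.eq_of_irreducible_of_monic h.irr _ (h.mon.map _)
    have h1 : (f.map (Int.castRingHom E)).eval (Bx p a z) = 0 := (Bx_root hs ha0 _).mp ⟨z, rfl⟩
    have h2 : (f.map (Int.castRingHom ℚ)).map (algebraMap ℚ E) = f.map (Int.castRingHom E) := by
      rw [Polynomial.map_map]
      congr 1
      exact RingHom.ext_int _ _
    rw [aeval_def, ← eval_map, h2, h1]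
  have hconj : IsConjRoot ℚ (Bx p a y) (Bx p a x) := by
    rw [IsConjRoot, hmin, hmin]
  exact isConjRoot_iff_exists_algEquiv.mp hconj

theorem xcond (h : GoodX p k f) :
    XCond k (Rp p (2 ^ k) (fun d => f.coeff (2 * 2 ^ k - d))) := by
  have hb : BaseF p k f := h.toBaseF
  have hk := h.k3
  have h0 : 8 ≤ 2 ^ k := by
    calc 8 = 2 ^ 3 := by norm_num
      _ ≤ 2 ^ k := Nat.pow_le_pow_right (by norm_num) hk
  have hg2 : 2 ^ k % 2 = 0 := by
    obtain ⟨m, rfl⟩ : ∃ m, k = m + 1 := ⟨k - 1, by omega⟩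
    rw [pow_succ]
    omega
  have hP := Dk_pow p h.podd (k := k) (by omega)
  refine ⟨(XBase_md hb).1, (XBase_md hb).2, ?_, ?_, ?_⟩
  · rw [XBase_coeff' hb 0]
    have h3 : (4 : ℤ) ∣ ∑ d ∈ Finset.range (2 ^ k - 1), f.coeff (2 * 2 ^ k - (d + 1)) *
        (Dk p (2 ^ k - (d + 1))).coeff 0 := by
      refine Finset.dvd_sum fun d hd => ?_
      rw [Finset.mem_range] at hd
      have h4 := mul_dvd_mul (h.even (2 * 2 ^ k - (d + 1)) (by omega) (by omega))
        (Dk_zero_even p (2 ^ k - (d + 1)))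
      exact (show (4 : ℤ) = 2 * 2 by norm_num) ▸ h4
    have h4 := h.midc
    have h5 := hP.1
    rw [coeff_C_zero]
    omega
  · have h1 : (4 : ℤ) ∣ ∑ d ∈ Finset.range (2 ^ k),
        (f.coeff (2 * 2 ^ k - d) * (Dk p (2 ^ k - d)).coeff 1 -
          if d % 2 = 1 then f.coeff (2 * 2 ^ k - d) else 0) := by
      refine Finset.dvd_sum fun d hd => ?_
      rw [Finset.mem_range] at hd
      by_cases hd1 : d % 2 = 1
      · rw [if_pos hd1]
        have h2 := Dk_one p h.podd (n := 2 ^ k - d) (by omega)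
        have h3 : (2 : ℤ) ∣ (Dk p (2 ^ k - d)).coeff 1 - 1 := by omega
        have h4 := h.even (2 * 2 ^ k - d) (by omega) (by omega)
        have h5 := mul_dvd_mul h4 h3
        have e : f.coeff (2 * 2 ^ k - d) * (Dk p (2 ^ k - d)).coeff 1 -
            f.coeff (2 * 2 ^ k - d) =
            f.coeff (2 * 2 ^ k - d) * ((Dk p (2 ^ k - d)).coeff 1 - 1) := by ring
        rw [e]
        exact (show (4 : ℤ) = 2 * 2 by norm_num) ▸ h5
      · rw [if_neg hd1, Dk_parity p (2 ^ k - d) 1 (by omega)]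
        simp
    rw [Finset.sum_sub_distrib, ← Finset.sum_filter] at h1
    have h2 := h.sum4
    rw [XBase_coeff 1, coeff_C, if_neg one_ne_zero, zero_add]
    have h3 : oddsB (2 ^ k) = (Finset.range (2 ^ k)).filter (fun d => d % 2 = 1) := rfl
    rw [h3] at h2
    omega
  · intro i hi hi2
    rw [XBase_coeff' hb i, coeff_C, if_neg (by omega), zero_add]
    have h3 : (2 : ℤ) ∣ ∑ d ∈ Finset.range (2 ^ k - 1), f.coeff (2 * 2 ^ k - (d + 1)) *
        (Dk p (2 ^ k - (d + 1))).coeff i := by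
      refine Finset.dvd_sum fun d hd => ?_
      rw [Finset.mem_range] at hd
      exact Dvd.dvd.mul_right (h.even (2 * 2 ^ k - (d + 1)) (by omega) (by omega)) _
    have h4 : (2 : ℤ) ∣ (Dk p (2 ^ k)).coeff i :=
      (show (2 : ℤ) ∣ 4 by norm_num).trans (hP.2 i hi hi2)
    exact dvd_add h3 h4

end LIF
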