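import Pool.Agent.helper1.XLI.XBase
import Pool.Agent.helper1.XLI.LinG

/-!
[XLI-XDeg] Degrees and transitivity (imports the stubs `XBase`, `LinG`; adapt `GLI/Deg.lean` by
helper72).  `g = 2^k`, `y_j = a_j + p/a_j`, `j ≠ i`.

* `degx_trans`: for `j ≠ i`, `l ≠ i` there is `σ` with `σ a_i = a_i`, `σ y_j = y_l`.  `L = ℚ(a_i)` has
  degree `2g`; `y_j` is a root of `∏_{l ≠ i} (X - y_l) = R/(X - y_i) ∈ L[X]`, degree `g - 1`.  The
  `2g(g-1)` elements `(a_i - 1)^a (y_j - y_i)^b`, `a < 2g`, `b < g - 1`, are linearly independent over `ℚ`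
  (`ling_zero`, `n = 2g`, `m = g - 1`, coprime; `TwoX.al`, `TwoX.di`), so `[ℚ(a_i, y_j) : ℚ] = 2g(g-1)` and
  the minimal polynomial of `y_j` over `L` is `∏_{l ≠ i} (X - y_l)`; `y_l` is a conjugate of `y_j`
  over `L`.
* `valm`: for `0 ≠ x ∈ ℚ(y_i, y_j)`: `v(x)^(g(g-1)) = v(2)^m` for an integer `m`.  `[ℚ(y_i) : ℚ] ≤ g`
  (`y_i` is a root of `R`), `[ℚ(y_i, y_j) : ℚ(y_i)] ≤ g - 1`, and the `g(g-1)` elements
  `y_i^a (y_j - y_i)^b`, `a < g`, `b < g - 1`, are independent (`ling_zero`, `n = g`, `m = g - 1`;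
  `TwoX.vy`, `TwoX.di`), so they form a basis and `ling_val` applies.
-/

set_option autoImplicit false

namespace LIF

open Polynomial

variable {p k : ℕ} {f : ℤ[X]} {E : Type*} [Field E] [CharZero E] [Algebra ℚ E]
  [IsAlgClosed E] [Algebra.IsAlgebraic ℚ E] [Normal ℚ E]

private theorem XDeg_sum {M F ι : Type*} [Field M] [Field F] [CharZero F] [Algebra M F]
    [hm : Module ℚ M] [Fintype ι] (c : ι → ℚ) (v : ι → M) :
    algebraMap M F (∑ z, hm.toDistribMulAction.toDistribSMul.toSMulZeroClass.toSMul.smul (c z)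
      (v z)) = ∑ z, (c z : F) * algebraMap M F (v z) := by
  rw [map_sum]
  refine Finset.sum_congr rfl fun z _ => ?_
  exact (map_rat_smul (algebraMap M F) (c z) (v z)).trans (Rat.smul_def _ _)

/-- the quotient of `R` by `X - y_i` over a field containing `y_i` -/
private theorem XDeg_quot (h : GoodX p k f) {a : Fin (2 ^ k) → E} (hs : Spl p f a)
    (i : Fin (2 ^ k)) (L : IntermediateField ℚ E) (hyi : a i + (p : E) / a i ∈ L) :
    ∃ Q : L[X], Q.map (algebraMap L E) =
      ∏ l ∈ Finset.univ.erase i, (X - C (a l + (p : E) / a l)) := by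
  classical
  set yi : L := ⟨a i + (p : E) / a i, hyi⟩ with hyi'
  set RL : L[X] := (Rp p (2 ^ k) (fun d => f.coeff (2 * 2 ^ k - d))).map (Int.castRingHom L)
    with hRL
  have hRE : RL.map (algebraMap L E) = ∏ i, (X - C (a i + (p : E) / a i)) := by
    rw [← real_mapB h.toBaseF hs, hRL, Polynomial.map_map]
    congr 1
  have hroot : RL.IsRoot yi := by
    apply (algebraMap L E).injective
    have h1 : algebraMap L E (RL.eval yi) = (RL.map (algebraMap L E)).eval (algebraMap L E yi) :=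
      (eval_map_apply (algebraMap L E) yi).symm
    rw [h1, hRE, map_zero, eval_prod]
    refine Finset.prod_eq_zero (Finset.mem_univ i) ?_
    rw [eval_sub, eval_X, eval_C]
    exact sub_self _
  refine ⟨RL /ₘ (X - C yi), ?_⟩
  have h2 := mul_divByMonic_eq_iff_isRoot.2 hroot
  have h3 := congrArg (Polynomial.map (algebraMap L E)) h2
  rw [Polynomial.map_mul, hRE, Polynomial.map_sub, map_X, map_C,
    ← Finset.mul_prod_erase Finset.univ _ (Finset.mem_univ i)] at h3
  exact mul_left_cancel₀ (X_sub_C_ne_zero _) h3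

private theorem XDeg_core (h : GoodX p k f) {a : Fin (2 ^ k) → E} (hs : Spl p f a)
    (A : ValuationSubring E) (ht : TwoX p k A a) {i j : Fin (2 ^ k)} (hij : j ≠ i) {t u : E}
    {n : ℕ} (hn : 1 ≤ n) (hcop : Nat.Coprime n (2 ^ k - 1)) (hg1 : 1 ≤ 2 ^ k - 1)
    (hdeg : (minpoly ℚ t).natDegree ≤ n)
    (hyi : a i + (p : E) / a i ∈ IntermediateField.adjoin ℚ {t})
    (hu : u ∈ IntermediateField.adjoin ℚ {t})
    (huv : A.valuation u ^ n = A.valuation (2 : E)) :
    (minpoly (IntermediateField.adjoin ℚ {t}) (a j + (p : E) / a j)).map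
      (algebraMap (IntermediateField.adjoin ℚ {t}) E) =
        ∏ l ∈ Finset.univ.erase i, (X - C (a l + (p : E) / a l)) ∧
    ∀ x ∈ IntermediateField.adjoin (IntermediateField.adjoin ℚ {t}) {a j + (p : E) / a j},
      ∃ c : Fin n × Fin (2 ^ k - 1) → ℚ,
      x = ∑ z, (c z : E) * (u ^ (z.1 : ℕ) *
        ((a j + (p : E) / a j) - (a i + (p : E) / a i)) ^ (z.2 : ℕ)) := by
  classical
  set L := IntermediateField.adjoin ℚ {t} with hL
  obtain ⟨Q, hQ⟩ : ∃ Q : L[X], Q.map (algebraMap L E) =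
    ∏ l ∈ Finset.univ.erase i, (X - C (a l + (p : E) / a l)) := XDeg_quot h hs i L hyi
  set y := a j + (p : E) / a j with hy
  set M := IntermediateField.adjoin L {y} with hM
  have hLM : ∀ x : E, x ∈ L → x ∈ M := fun x hx => M.algebraMap_mem (⟨x, hx⟩ : L)
  have hyM : y ∈ M := IntermediateField.mem_adjoin_simple_self L y
  have hint : IsIntegral ℚ t := Algebra.IsIntegral.isIntegral t
  have hinty : IsIntegral L y := (Algebra.IsIntegral.isIntegral (R := ℚ) y).tower_top
  have hQm : Q.Monic := by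
    refine monic_of_injective (algebraMap L E).injective ?_
    rw [hQ]
    exact monic_prod_of_monic _ _ fun l _ => monic_X_sub_C _
  have hQd : Q.natDegree = 2 ^ k - 1 := by
    rw [← natDegree_map_eq_of_injective (algebraMap L E).injective, hQ,
      natDegree_prod_of_monic _ _ fun l _ => monic_X_sub_C _,
      Finset.sum_congr rfl fun l _ => natDegree_X_sub_C _, Finset.sum_const,
      Finset.card_erase_of_mem (Finset.mem_univ i), Finset.card_univ, Fintype.card_fin,
      smul_eq_mul, mul_one]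
  have hQy : aeval y Q = 0 := by
    rw [aeval_def, ← eval_map, hQ, eval_prod]
    refine Finset.prod_eq_zero (Finset.mem_erase.2 ⟨hij, Finset.mem_univ j⟩) ?_
    rw [eval_sub, eval_X, eval_C]
    exact sub_self _
  have hdvd : minpoly L y ∣ Q := minpoly.dvd L y hQy
  have hle : (minpoly L y).natDegree ≤ 2 ^ k - 1 := by
    rw [← hQd]
    exact natDegree_le_of_dvd hdvd hQm.ne_zero
  have : FiniteDimensional ℚ L := IntermediateField.adjoin.finiteDimensional hint
  have : FiniteDimensional L M := IntermediateField.adjoin.finiteDimensional hinty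
  have : FiniteDimensional ℚ M := FiniteDimensional.trans ℚ L M
  have hf1 : Module.finrank ℚ L ≤ n := by
    rw [hL, IntermediateField.adjoin.finrank hint]
    exact hdeg
  have hf2 : Module.finrank L M = (minpoly L y).natDegree := by
    rw [hM, IntermediateField.adjoin.finrank hinty]
  have hf3 : Module.finrank ℚ L * Module.finrank L M = Module.finrank ℚ M :=
    Module.finrank_mul_finrank ℚ L M
  let v : Fin n × Fin (2 ^ k - 1) → M := fun z =>
    ⟨u ^ (z.1 : ℕ) * (y - (a i + (p : E) / a i)) ^ (z.2 : ℕ),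
      M.mul_mem (pow_mem (hLM _ hu) _) (pow_mem (M.sub_mem hyM (hLM _ hyi)) _)⟩
  have hli : LinearIndependent ℚ v := by
    rw [Fintype.linearIndependent_iff]
    intro c hc z
    have h1 : c = 0 := by
      refine ling_zero A ht.h2 hn hg1 hcop huv (ht.di i j hij) c ?_
      have h0 := congrArg (algebraMap M E) hc
      rw [map_zero] at h0
      exact (XDeg_sum (M := M) (F := E) c v).symm.trans h0
    rw [h1]; rfl
  have hcard : Fintype.card (Fin n × Fin (2 ^ k - 1)) = n * (2 ^ k - 1) := by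
    simp
  have hge : n * (2 ^ k - 1) ≤ Module.finrank ℚ M := by
    rw [← hcard]
    exact hli.fintype_card_le_finrank
  have hfin : Module.finrank ℚ M = n * (2 ^ k - 1) := by
    apply le_antisymm _ hge
    rw [← hf3, hf2]
    exact Nat.mul_le_mul hf1 hle
  constructor
  · have hdeg : (minpoly L y).natDegree = 2 ^ k - 1 := by
      apply le_antisymm hle
      have h1 : n * (2 ^ k - 1) ≤ n * (minpoly L y).natDegree := by
        rw [← hfin, ← hf3, hf2]
        exact Nat.mul_le_mul_right _ hf1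
      exact Nat.le_of_mul_le_mul_left h1 hn
    have : minpoly L y = Q := by
      refine eq_of_dvd_of_natDegree_le_of_leadingCoeff hdvd (by rw [hdeg, hQd]) ?_
      rw [(minpoly.monic hinty).leadingCoeff, hQm.leadingCoeff]
    rw [this, hQ]
  · intro x hx
    have hspan := hli.span_eq_top_of_card_eq_finrank' (by rw [hcard, hfin])
    have hx' : (⟨x, hx⟩ : M) ∈ Submodule.span ℚ (Set.range v) := by
      rw [hspan]; trivial
    obtain ⟨c, hc⟩ := (Submodule.mem_span_range_iff_exists_fun ℚ).1 hx'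
    refine ⟨c, ?_⟩
    have h0 := congrArg (algebraMap M E) hc
    exact h0.symm.trans (XDeg_sum (M := M) (F := E) c v)

private theorem XDeg_mem {s t x : E}
    (hx : x ∈ IntermediateField.adjoin ℚ {s, t}) :
    x ∈ IntermediateField.adjoin (IntermediateField.adjoin ℚ {s}) {t} := by
  have h1 := IntermediateField.adjoin_adjoin_left ℚ ({s} : Set E) ({t} : Set E)
  rw [Set.singleton_union] at h1
  rw [← h1] at hx
  exact hx

private theorem XDeg_pow (h : GoodX p k f) :
    1 ≤ 2 ^ k - 1 ∧ Nat.Coprime (2 ^ k) (2 ^ k - 1) ∧ Nat.Coprime (2 * 2 ^ k) (2 ^ k - 1) := by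
  have h0 : 8 ≤ 2 ^ k := by
    calc 8 = 2 ^ 3 := by norm_num
      _ ≤ 2 ^ k := Nat.pow_le_pow_right (by norm_num) h.k3
  obtain ⟨m, hm⟩ : ∃ m, k = m + 1 := ⟨k - 1, by have := h.k3; omega⟩
  have h1 : (2 ^ k - 1) % 2 = 1 := by
    have h2 : 2 ^ k = 2 * 2 ^ m := by rw [hm, pow_succ]; ring
    omega
  have h2 : Nat.Coprime 2 (2 ^ k - 1) := by
    rw [Nat.coprime_two_left]
    exact Nat.odd_iff.2 h1
  have h3 : Nat.Coprime (2 ^ k) (2 ^ k - 1) := Nat.Coprime.pow_left k h2
  exact ⟨by omega, h3, Nat.Coprime.mul_left h2 h3⟩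

private theorem XDeg_aeval (h : GoodX p k f) {a : Fin (2 ^ k) → E} (hs : Spl p f a)
    (i : Fin (2 ^ k)) : (minpoly ℚ (a i)).natDegree ≤ 2 * 2 ^ k := by
  have h1 : (f.map (Int.castRingHom E)).eval (a i) = 0 := by
    rw [show f.map (Int.castRingHom E) = _ from hs, eval_prod]
    refine Finset.prod_eq_zero (Finset.mem_univ i) ?_
    rw [eval_mul, eval_sub, eval_X, eval_C, sub_self, zero_mul]
  have h2 : aeval (a i) (f.map (Int.castRingHom ℚ)) = 0 := by
    rw [← h1, aeval_def, eval₂_map, eval_map]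
    congr 1
    exact RingHom.ext_int _ _
  have h3 : f.map (Int.castRingHom ℚ) ≠ 0 := (h.mon.map (Int.castRingHom ℚ)).ne_zero
  have h4 := natDegree_le_of_dvd (minpoly.dvd ℚ (a i) h2) h3
  rwa [h.mon.natDegree_map, h.deg] at h4

private theorem XDeg_aevaly (h : GoodX p k f) {a : Fin (2 ^ k) → E} (hs : Spl p f a)
    (i : Fin (2 ^ k)) : (minpoly ℚ (a i + (p : E) / a i)).natDegree ≤ 2 ^ k := by
  have hc := xcond h
  set R := Rp p (2 ^ k) (fun d => f.coeff (2 * 2 ^ k - d)) with hR
  have h1 : (R.map (Int.castRingHom E)).eval (a i + (p : E) / a i) = 0 := by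
    rw [hR, real_mapB h.toBaseF hs, eval_prod]
    refine Finset.prod_eq_zero (Finset.mem_univ i) ?_
    rw [eval_sub, eval_X, eval_C, sub_self]
  have h2 : aeval (a i + (p : E) / a i) (R.map (Int.castRingHom ℚ)) = 0 := by
    rw [← h1, aeval_def, eval₂_map, eval_map]
    congr 1
    exact RingHom.ext_int _ _
  have h3 : R.map (Int.castRingHom ℚ) ≠ 0 := (hc.mon.map (Int.castRingHom ℚ)).ne_zero
  have h4 := natDegree_le_of_dvd (minpoly.dvd ℚ (a i + (p : E) / a i) h2) h3
  rwa [hc.mon.natDegree_map, hc.deg] at h4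

theorem degx_trans (h : GoodX p k f) {a : Fin (2 ^ k) → E} (hs : Spl p f a)
    (A : ValuationSubring E) (ht : TwoX p k A a) {i j l : Fin (2 ^ k)} (hij : j ≠ i)
    (hil : l ≠ i) :
    ∃ σ : E ≃ₐ[ℚ] E, σ (a i) = a i ∧ σ (a j + (p : E) / a j) = a l + (p : E) / a l := by
  classical
  obtain ⟨hg1, -, hcop⟩ := XDeg_pow h
  have hai : a i ∈ IntermediateField.adjoin ℚ {a i} :=
    IntermediateField.mem_adjoin_simple_self ℚ (a i)
  have hyi : a i + (p : E) / a i ∈ IntermediateField.adjoin ℚ {a i} :=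
    (IntermediateField.adjoin ℚ {a i}).add_mem hai
      ((IntermediateField.adjoin ℚ {a i}).div_mem (natCast_mem _ p) hai)
  have hc := (XDeg_core h hs A ht hij (t := a i) (u := a i - 1) (n := 2 * 2 ^ k)
    (by have : 0 < 2 ^ k := by positivity
        omega) hcop hg1 (XDeg_aeval h hs i) hyi
    ((IntermediateField.adjoin ℚ {a i}).sub_mem hai
      (IntermediateField.adjoin ℚ {a i}).one_mem) (ht.al i)).1
  set L := IntermediateField.adjoin ℚ {a i} with hL
  have : Normal L E := Normal.tower_top_of_normal ℚ L E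
  have hinty : IsIntegral L (a j + (p : E) / a j) :=
    (Algebra.IsIntegral.isIntegral (R := ℚ) _).tower_top
  have h1 : aeval (a l + (p : E) / a l) (minpoly L (a j + (p : E) / a j)) = 0 := by
    rw [aeval_def, ← eval_map, hc, eval_prod]
    refine Finset.prod_eq_zero (Finset.mem_erase.2 ⟨hil, Finset.mem_univ l⟩) ?_
    rw [eval_sub, eval_X, eval_C]
    exact sub_self _
  have h2 : IsConjRoot L (a j + (p : E) / a j) (a l + (p : E) / a l) :=
    (isConjRoot_iff_aeval_eq_zero hinty).2 h1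
  obtain ⟨σ, hσ⟩ := isConjRoot_iff_exists_algEquiv.1 h2
  refine ⟨σ.symm.restrictScalars ℚ, ?_, ?_⟩
  · have hai : a i ∈ L := IntermediateField.mem_adjoin_simple_self ℚ (a i)
    exact σ.symm.commutes (⟨a i, hai⟩ : L)
  · show σ.symm _ = _
    rw [← hσ, AlgEquiv.symm_apply_apply]

theorem valm (h : GoodX p k f) {a : Fin (2 ^ k) → E} (hs : Spl p f a)
    (A : ValuationSubring E) (ht : TwoX p k A a) {i j : Fin (2 ^ k)} (hij : j ≠ i) {x : E}
    (hx : x ∈ IntermediateField.adjoin ℚ {a i + (p : E) / a i, a j + (p : E) / a j})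
    (hx0 : x ≠ 0) :
    ∃ m : ℤ, A.valuation x ^ (2 ^ k * (2 ^ k - 1)) = A.valuation (2 : E) ^ m := by
  classical
  obtain ⟨hg1, hcop, -⟩ := XDeg_pow h
  have hyi := IntermediateField.mem_adjoin_simple_self ℚ (a i + (p : E) / a i)
  obtain ⟨c, hc⟩ := (XDeg_core h hs A ht hij (t := a i + (p : E) / a i)
    (u := a i + (p : E) / a i) (n := 2 ^ k) Nat.one_le_two_pow hcop hg1 (XDeg_aevaly h hs i)
    hyi hyi (ht.vy i)).2 x (XDeg_mem hx)
  have hc0 : c ≠ 0 := by
    rintro rfl
    apply hx0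
    rw [hc]
    simp
  obtain ⟨m, hm⟩ := ling_val A ht.h2 Nat.one_le_two_pow hg1 hcop (ht.vy i) (ht.di i j hij) c hc0
  exact ⟨m, by rw [hc]; exact hm⟩

end LIF
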