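import Pool.Agent.helper1.XLI.XMin
import Pool.Agent.helper1.GLI.JRel

/-!
[XLI-XSingle] No relation for one curve (imports the stubs `XMin`, `XBase`; `GLI/JRel.lean`).

`∏_i (a_i^2/p)^(n_i) = 1 → n = 0`.

Proof.  Suppose `n ≠ 0`.  Let `W` be the set of all antisymmetric `φ : Fin (2^k) × Bool → ℚ` for which
there are `m > 0` and an integral `n'` with `m φ = n'` and `∏_x (Bx x)^(n' x) = 1`; it is a
subspace and Galois stable (as in `GLI/JRel.lean` by helper47: `isRel_add`, `isRel_smul`,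
`isRel_sigma`; either copy these for one index `k` or use them with `T = {k}`), and contains
`φ (i, true) = n_i`, `φ (i, false) = - n_i` (`∏_x (Bx x)^(φ x) = ∏_i (a_i/(p/a_i))^(n_i)`), so `W ≠ 0`.
By `xmin` it contains `e` with `e (0, true) = 1`, `e (0, false) = -1`, zero elsewhere: there is `m > 0`
with `(a_0^2/p)^m = 1` (`0 : Fin (2^k)`).
Let `j ≠ 0` (`2^k ≥ 8`), `ζ_0 = a_0^2/p`, `ζ_j = a_j^2/p`; there is `τ` with `τ a_0 = a_j`
(`exists_root_conjB`), so `ζ_j = τ ζ_0` has the same order `N ≥ 1` as `ζ_0`, both are primitive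
`N`-th roots of unity (`IsPrimitiveRoot.orderOf`), so `ζ_j = ζ_0^t` for some `t`
(`IsPrimitiveRoot.eq_pow_of_pow_eq_one`).  `xflip`: `ρ a_0 = a_0`, `ρ a_j = p/a_j`.  So
`ρ ζ_0 = ζ_0`, `ρ ζ_j = ζ_j`, but `ρ ζ_j = (p/a_j)^2/p = ζ_j⁻¹`.  So `ζ_j^2 = 1`, `a_j^4 = p^2`.  But the
minimal polynomial of `a_j` over `ℚ` is `f` (irreducible, monic), of degree `2 * 2^k ≥ 16`, and it
would divide `X^4 - p^2`: contradiction.
-/

set_option autoImplicit false

namespace LIF

open Polynomial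

/-- relations for one curve -/
private def XSingle_IsRel (p : ℕ) {g : ℕ} {E : Type*} [Field E] (a : Fin g → E)
    (φ : Fin g × Bool → ℚ) : Prop :=
  ∃ m : ℕ, 0 < m ∧ ∃ n : Fin g × Bool → ℤ,
    (∀ x, (m : ℚ) * φ x = n x) ∧ ∏ x, Bx p a x ^ n x = 1

private theorem XSingle_zero {p g : ℕ} {E : Type*} [Field E] {a : Fin g → E} :
    XSingle_IsRel p a 0 :=
  ⟨1, one_pos, 0, fun x => by simp, by simp⟩

private theorem XSingle_add {p g : ℕ} {E : Type*} [Field E] {a : Fin g → E}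
    (hne : ∀ x, Bx p a x ≠ 0) {φ ψ : Fin g × Bool → ℚ} (h1 : XSingle_IsRel p a φ)
    (h2 : XSingle_IsRel p a ψ) : XSingle_IsRel p a (φ + ψ) := by
  obtain ⟨m, hm, n, h3, h4⟩ := h1
  obtain ⟨m', hm', n', h5, h6⟩ := h2
  refine ⟨m * m', Nat.mul_pos hm hm', fun x => (m' : ℤ) * n x + (m : ℤ) * n' x,
    fun x => ?_, ?_⟩
  · rw [Pi.add_apply]
    push_cast
    rw [← h3, ← h5]
    ring
  · have e : ∀ (x : Fin g × Bool),
        Bx p a x ^ ((m' : ℤ) * n x + (m : ℤ) * n' x) =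
        (Bx p a x ^ n x) ^ (m' : ℤ) * (Bx p a x ^ n' x) ^ (m : ℤ) := fun x => by
      rw [zpow_add₀ (hne x), zpow_mul', zpow_mul' _ (m : ℤ)]
    simp only [e, Finset.prod_mul_distrib, Finset.prod_zpow, h4, h6, one_zpow, mul_one]

private theorem XSingle_smul {p g : ℕ} {E : Type*} [Field E] {a : Fin g → E}
    {φ : Fin g × Bool → ℚ} (h1 : XSingle_IsRel p a φ) (c : ℚ) :
    XSingle_IsRel p a (c • φ) := by
  obtain ⟨m, hm, n, h3, h4⟩ := h1
  refine ⟨c.den * m, Nat.mul_pos c.den_pos hm, fun x => c.num * n x, fun x => ?_, ?_⟩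
  · rw [Pi.smul_apply, smul_eq_mul]
    push_cast
    rw [← h3, ← Rat.mul_den_eq_num c]
    ring
  · have e : ∀ (x : Fin g × Bool),
        Bx p a x ^ (c.num * n x) = (Bx p a x ^ n x) ^ c.num := fun x => by
      rw [zpow_mul']
    simp only [e, Finset.prod_zpow, h4, one_zpow]

private theorem XSingle_sigma {p g : ℕ} {E : Type*} [Field E] [CharZero E] [Algebra ℚ E]
    {a : Fin g → E} (σ : E ≃ₐ[ℚ] E) (γ : Equiv.Perm (Fin g × Bool))
    (hγ : ∀ x : Fin g × Bool, σ (Bx p a x) = Bx p a (γ x))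
    {φ : Fin g × Bool → ℚ} (h1 : XSingle_IsRel p a φ) :
    XSingle_IsRel p a (fun x => φ (γ x)) := by
  obtain ⟨m, hm, n, h3, h4⟩ := h1
  refine ⟨m, hm, fun x => n (γ x), fun x => h3 (γ x), ?_⟩
  apply σ.injective
  rw [map_one, ← h4]
  simp only [map_prod, map_zpow₀, hγ]
  exact Equiv.prod_comp γ (fun y => Bx p a y ^ n y)

/-- the space of antisymmetric relations -/
private def XSingle_W (p : ℕ) {g : ℕ} {E : Type*} [Field E] (a : Fin g → E)
    (hne : ∀ x, Bx p a x ≠ 0) : Submodule ℚ (Fin g × Bool → ℚ) where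
  carrier := {φ | (∀ i c, φ (i, !c) = - φ (i, c)) ∧ XSingle_IsRel p a φ}
  add_mem' := by
    rintro φ ψ ⟨h1, h2⟩ ⟨h3, h4⟩
    refine ⟨fun i c => ?_, XSingle_add hne h2 h4⟩
    rw [Pi.add_apply, Pi.add_apply, h1, h3]
    ring
  zero_mem' := ⟨fun i c => by simp, XSingle_zero⟩
  smul_mem' := by
    rintro c φ ⟨h1, h2⟩
    refine ⟨fun i c' => ?_, XSingle_smul h2 c⟩
    rw [Pi.smul_apply, Pi.smul_apply, h1, smul_neg]

variable {p k : ℕ} [Fact p.Prime] {f : ℤ[X]} {E : Type*} [Field E] [CharZero E]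
  [Algebra ℚ E] [IsAlgClosed E] [Algebra.IsAlgebraic ℚ E] [Normal ℚ E]

/-- if `n ≠ 0` is a relation, then all the antisymmetric functions are relations -/
private theorem XSingle_all (h : GoodX p k f) {a : Fin (2 ^ k) → E} (hs : Spl p f a)
    (n : Fin (2 ^ k) → ℤ) (hn : ∏ i, (a i ^ 2 / (p : E)) ^ n i = 1) (hn0 : n ≠ 0)
    (φ : Fin (2 ^ k) × Bool → ℚ) (hφ : ∀ i c, φ (i, !c) = - φ (i, c)) :
    XSingle_IsRel p a φ := by
  obtain ⟨ha0, hinj⟩ := roots_injB h.toBaseF hs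
  have hp0 : (p : E) ≠ 0 := Nat.cast_ne_zero.2 (Fact.out : p.Prime).ne_zero
  have hne : ∀ x, Bx p a x ≠ 0 := by
    rintro ⟨i, c⟩
    unfold Bx
    cases c
    · exact div_ne_zero hp0 (ha0 i)
    · exact ha0 i
  refine (xmin h hs (XSingle_W p a hne) (fun φ hφ => hφ.1) ?_ ?_ φ hφ).2
  · rintro φ ⟨h1, h2⟩ σ γ hγ
    refine ⟨fun i c => ?_, XSingle_sigma σ γ hγ h2⟩
    obtain ⟨γ', hγ', hsw⟩ := exists_permB h.toBaseF hs σ
    have e : γ' = γ := by
      ext1 x
      exact hinj ((hγ' x).symm.trans (hγ x))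
    subst e
    change φ (γ' (i, !c)) = - φ (γ' (i, c))
    rw [hsw, h1]
  · intro hW
    apply hn0
    have hmem : (fun x : Fin (2 ^ k) × Bool => if x.2 then ((n x.1 : ℤ) : ℚ) else -((n x.1 : ℤ) : ℚ)) ∈
        XSingle_W p a hne := by
      refine ⟨fun i c => ?_, 1, one_pos, fun x => if x.2 then n x.1 else - n x.1, fun x => ?_, ?_⟩
      · cases c <;> simp
      · rcases x with ⟨i, c⟩
        cases c <;> simp
      · rw [Fintype.prod_prod_type, ← hn]
        apply Finset.prod_congr rfl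
        intro i _
        rw [Fintype.prod_bool]
        unfold Bx
        simp only [if_true, Bool.false_eq_true, if_false]
        rw [zpow_neg, ← inv_zpow, ← mul_zpow]
        congr 1
        have h3 := ha0 i
        field_simp
    rw [hW, Submodule.mem_bot] at hmem
    funext i
    have h1 := congrFun hmem (i, true)
    simpa using h1

theorem xsingle (h : GoodX p k f) {a : Fin (2 ^ k) → E} (hs : Spl p f a)
    (n : Fin (2 ^ k) → ℤ) (hn : ∏ i, (a i ^ 2 / (p : E)) ^ n i = 1) : n = 0 := by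
  by_contra hn0
  obtain ⟨ha0, hinj⟩ := roots_injB h.toBaseF hs
  have hp0 : (p : E) ≠ 0 := Nat.cast_ne_zero.2 (Fact.out : p.Prime).ne_zero
  have h8 : 8 ≤ 2 ^ k := by
    calc 8 = 2 ^ 3 := by norm_num
      _ ≤ 2 ^ k := Nat.pow_le_pow_right (by norm_num) h.k3
  obtain ⟨i₀, j, hij⟩ : ∃ i₀ j : Fin (2 ^ k), j ≠ i₀ :=
    ⟨⟨0, by omega⟩, ⟨1, by omega⟩, fun he => by
      have := congrArg Fin.val he
      simp at this⟩
  -- `ζ₀` is a root of unity
  obtain ⟨m, hm, hζm⟩ : ∃ m : ℕ, 0 < m ∧ (a i₀ ^ 2 / (p : E)) ^ m = 1 := by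
    classical
    obtain ⟨m, hm, n', h1, h2⟩ := XSingle_all h hs n hn hn0
      (fun x => if x.1 = i₀ then (if x.2 then 1 else -1) else 0) (fun i c => by
        by_cases hi : i = i₀
        · simp only [hi, if_true]
          cases c <;> simp
        · simp only [hi, if_false, neg_zero])
    refine ⟨m, hm, ?_⟩
    have e1 : n' (i₀, true) = m := by
      have := h1 (i₀, true)
      simp only [if_true, mul_one] at this
      exact_mod_cast this.symm
    have e2 : n' (i₀, false) = -m := by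
      have := h1 (i₀, false)
      simp only [if_true, Bool.false_eq_true, if_false, mul_neg, mul_one] at this
      exact_mod_cast this.symm
    have e3 : ∀ i, i ≠ i₀ → ∀ c, n' (i, c) = 0 := by
      intro i hi c
      have := h1 (i, c)
      simp only [hi, if_false, mul_zero] at this
      exact_mod_cast this.symm
    rw [Fintype.prod_prod_type, Finset.prod_eq_single i₀] at h2
    · rw [Fintype.prod_bool, e1, e2] at h2
      unfold Bx at h2
      simp only [if_true, Bool.false_eq_true, if_false] at h2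
      rw [zpow_neg, ← inv_zpow, ← mul_zpow, zpow_natCast] at h2
      rw [← h2]
      congr 1
      have h3 := ha0 i₀
      field_simp
    · intro i _ hi
      rw [Fintype.prod_bool, e3 i hi, e3 i hi, zpow_zero, zpow_zero, mul_one]
    · intro hi
      exact absurd (Finset.mem_univ _) hi
  set ζ : E := a i₀ ^ 2 / (p : E) with hζ
  have hfin : IsOfFinOrder ζ := isOfFinOrder_iff_pow_eq_one.2 ⟨m, hm, hζm⟩
  have hN : 0 < orderOf ζ := hfin.orderOf_pos
  have : NeZero (orderOf ζ) := ⟨hN.ne'⟩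
  have hprim : IsPrimitiveRoot ζ (orderOf ζ) := IsPrimitiveRoot.orderOf ζ
  -- the conjugation
  obtain ⟨τ, hτ⟩ := exists_root_conjB h.toBaseF hs (i₀, true) (j, true)
  have hτ' : τ (a i₀) = a j := by
    simpa [Bx] using hτ
  have hζj : τ ζ = a j ^ 2 / (p : E) := by
    rw [hζ, map_div₀, map_pow, hτ', map_natCast]
  obtain ⟨t, -, ht⟩ : ∃ t < orderOf ζ, ζ ^ t = a j ^ 2 / (p : E) := by
    refine hprim.eq_pow_of_pow_eq_one ?_
    rw [← hζj, ← map_pow, pow_orderOf_eq_one, map_one]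
  -- the flip
  obtain ⟨ρ, hρ1, hρ2⟩ := xflip h hs hij
  have hρζ : ρ ζ = ζ := by
    rw [hζ, map_div₀, map_pow, hρ1, map_natCast]
  have h4 : ((p : E) / a j) ^ 2 / (p : E) = a j ^ 2 / (p : E) := by
    calc ((p : E) / a j) ^ 2 / (p : E) = ρ (a j ^ 2 / (p : E)) := by
          rw [map_div₀, map_pow, hρ2, map_natCast]
      _ = ρ (ζ ^ t) := by rw [ht]
      _ = ζ ^ t := by rw [map_pow, hρζ]
      _ = a j ^ 2 / (p : E) := ht
  have h5 : a j ^ 4 = (p : E) ^ 2 := by
    have h6 := ha0 j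
    field_simp at h4
    linear_combination -h4
  -- degrees
  have hroot : aeval (a j) (f.map (Int.castRingHom ℚ)) = 0 := by
    have e1 : aeval (a j) (f.map (Int.castRingHom ℚ)) =
        (f.map (Int.castRingHom E)).eval (a j) := by
      rw [aeval_def, eval₂_map, eval_map]
      congr 1
      exact RingHom.ext_int _ _
    rw [e1, hs, eval_prod]
    apply Finset.prod_eq_zero (Finset.mem_univ j)
    simp
  have hmin : minpoly ℚ (a j) = f.map (Int.castRingHom ℚ) :=
    (minpoly.eq_of_irreducible_of_monic h.irr hroot (h.mon.map _)).symm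
  have hdvd : minpoly ℚ (a j) ∣ (X ^ 4 - C ((p : ℚ) ^ 2) : ℚ[X]) := by
    apply minpoly.dvd
    rw [map_sub, map_pow, aeval_X, aeval_C, map_pow, map_natCast, h5, sub_self]
  have hdeg := natDegree_le_of_dvd hdvd (X_pow_sub_C_ne_zero (by norm_num) _)
  rw [hmin, h.mon.natDegree_map, h.deg, natDegree_X_pow_sub_C] at hdeg
  omega

end LIF
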